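import Pool.Agent.Lib.MP_3bfe94_nt.Burg

/-!
Counting solutions of `y ≡ a x` in a box, summed over `a` in a coset: reduction to character sums.
-/

set_option autoImplicit false

open Finset

namespace Pool.Agent.Lib.MP_3bfe94_nt

variable {p : ℕ} [Fact p.Prime]

/-- A multiplicative subgroup, as a finite set of residues. -/
structure IsSub (U : Finset (ZMod p)) : Prop where
  one : (1 : ZMod p) ∈ U
  zero : (0 : ZMod p) ∉ U
  mul : ∀ x ∈ U, ∀ y ∈ U, x * y ∈ U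
  inv : ∀ x ∈ U, x⁻¹ ∈ U

lemma IsSub.ne {U : Finset (ZMod p)} (hU : IsSub U) {u : ZMod p} (hu : u ∈ U) : u ≠ 0 := by
  rintro rfl; exact hU.zero hu

open Classical in
/-- The characters that are trivial on `U`. -/
noncomputable def HH (U : Finset (ZMod p)) : Finset (MulChar (ZMod p) ℂ) :=
  univ.filter fun χ : DirichletCharacter ℂ p => ∀ u ∈ U, χ u = 1

lemma mem_HH {U : Finset (ZMod p)} {χ : MulChar (ZMod p) ℂ} : χ ∈ HH U ↔ ∀ u ∈ U, χ u = 1 := by
  simp [HH]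

lemma sumU {U : Finset (ZMod p)} (hU : IsSub U) (χ : MulChar (ZMod p) ℂ) (h : χ ∉ HH U) :
    ∑ u ∈ U, χ u = 0 := by
  rw [mem_HH] at h
  push Not at h
  obtain ⟨u0, hu0, h1⟩ := h
  refine eq_zero_of_mul_eq_self_left h1 ?_
  rw [mul_sum]
  refine sum_bij' (fun u _ => u0 * u) (fun u _ => u0⁻¹ * u) (fun u hu => hU.mul _ hu0 _ hu)
    (fun u hu => hU.mul _ (hU.inv _ hu0) _ hu) ?_ ?_ ?_
  · intro u _; rw [inv_mul_cancel_left₀ (hU.ne hu0)]
  · intro u _; rw [mul_inv_cancel_left₀ (hU.ne hu0)]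
  · intro u _; rw [map_mul]

lemma sumH_aux {U : Finset (ZMod p)} (hU : IsSub U) (z : ZMod p) :
    (U.card : ℂ) * ∑ χ ∈ HH U, χ z = if z ∈ U then ((p - 1 : ℕ) : ℂ) else 0 := by
  classical
  have h1 : (U.card : ℂ) * ∑ χ ∈ HH U, χ z =
      ∑ χ : DirichletCharacter ℂ p, χ z * ∑ u ∈ U, χ u := by
    rw [mul_sum, ← sum_subset (subset_univ (HH U))]
    · refine sum_congr rfl fun χ hχ => ?_
      rw [sum_congr rfl fun u hu => mem_HH.1 hχ u hu, sum_const, nsmul_eq_mul, mul_one, mul_comm]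
    · intro χ _ hχ
      rw [sumU hU χ hχ, mul_zero]
  rw [h1]
  simp only [mul_sum, ← map_mul]
  rw [sum_comm]
  simp only [DirichletCharacter.sum_characters_eq, Nat.totient_prime (Fact.out : p.Prime)]
  split_ifs with hz
  · rw [sum_eq_single z⁻¹, if_pos (mul_inv_cancel₀ (hU.ne hz))]
    · intro u _ hu
      rw [if_neg]
      intro h
      exact hu (eq_inv_of_mul_eq_one_right h)
    · intro h
      exact absurd (hU.inv z hz) h
  · refine sum_eq_zero fun u hu => if_neg fun h => hz ?_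
    rw [eq_inv_of_mul_eq_one_left h]
    exact hU.inv u hu

lemma card_HH {U : Finset (ZMod p)} (hU : IsSub U) : (HH U).card * U.card + 1 = p := by
  have h := sumH_aux hU 1
  simp only [map_one, sum_const, nsmul_eq_mul, mul_one, if_pos hU.one] at h
  have h2 : U.card * (HH U).card = p - 1 := by exact_mod_cast h
  have := (Fact.out : p.Prime).pos
  rw [mul_comm, h2]
  omega

lemma sumH {U : Finset (ZMod p)} (hU : IsSub U) (z : ZMod p) :
    ∑ χ ∈ HH U, χ z = if z ∈ U then ((HH U).card : ℂ) else 0 := by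
  split_ifs with hz
  · rw [sum_congr rfl fun χ hχ => mem_HH.1 hχ z hz, sum_const, nsmul_eq_mul, mul_one]
  · have h := sumH_aux hU z
    rw [if_neg hz] at h
    exact (mul_eq_zero.1 h).resolve_left (Nat.cast_ne_zero.2 (card_pos.2 ⟨1, hU.one⟩).ne')

/-- The residues of `1, …, X`. -/
def iv (p X : ℕ) : Finset (ZMod p) := (Icc 1 X).image Nat.cast

/-- The number of nonzero residues `z` of `1, …, X` with `a z` a residue of `1, …, Y`. -/
def Pc (a : ZMod p) (X Y : ℕ) : ℕ := ((iv p X).filter fun z => z ≠ 0 ∧ a * z ∈ iv p Y).card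

lemma Pc_le (a : ZMod p) (X Y : ℕ) : Pc a X Y ≤ X :=
  (card_filter_le _ _).trans (card_image_le.trans (by simp))

lemma Pc_swap (a : ZMod p) (ha : a ≠ 0) (X Y : ℕ) : Pc a X Y = Pc a⁻¹ Y X := by
  refine card_bij' (fun z _ => a * z) (fun z _ => a⁻¹ * z) ?_ ?_ ?_ ?_
  · intro z hz
    rw [mem_filter] at hz ⊢
    exact ⟨hz.2.2, mul_ne_zero ha hz.2.1, by rw [inv_mul_cancel_left₀ ha]; exact hz.1⟩
  · intro z hz
    rw [mem_filter] at hz ⊢
    exact ⟨hz.2.2, mul_ne_zero (inv_ne_zero ha) hz.2.1, by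
      rw [mul_inv_cancel_left₀ ha]; exact hz.1⟩
  · intro z _; rw [inv_mul_cancel_left₀ ha]
  · intro z _; rw [mul_inv_cancel_left₀ ha]

lemma key_major {U : Finset (ZMod p)} (hU : IsSub U) (v : ZMod p) (hv : v ≠ 0) (X Y : ℕ)
    (w φ : ZMod p → ℝ) (α β : ℝ) (hα : 0 ≤ α) (hβ : 0 ≤ β) (hw0 : ∀ z, 0 ≤ w z)
    (hφ0 : ∀ z, 0 ≤ φ z) (hw : ∀ z ∈ iv p X, α ≤ w z) (hφ : ∀ z ∈ iv p Y, β ≤ φ z) :
    α * β * ((HH U).card * ∑ u ∈ U, (Pc (v * u) X Y : ℝ)) ≤ (∑ z, w z) * (∑ y, φ y) +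
      ∑ χ ∈ (HH U).erase 1, ‖∑ z, (w z : ℂ) * χ⁻¹ z‖ * ‖∑ y, (φ y : ℂ) * χ y‖ := by
  classical
  set D := (HH U).card with hD
  have h1 : ∑ χ ∈ HH U, χ⁻¹ v * ((∑ z, (w z : ℂ) * χ⁻¹ z) * ∑ y, (φ y : ℂ) * χ y) =
      ((D * ∑ z, ∑ y, if y * (v * z)⁻¹ ∈ U then w z * φ y else 0 : ℝ) : ℂ) := by
    simp only [sum_mul_sum]
    simp only [mul_sum]
    push_cast
    rw [sum_comm]
    refine sum_congr rfl fun z _ => ?_
    rw [sum_comm]
    refine sum_congr rfl fun y _ => ?_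
    have e1 : ∀ χ : MulChar (ZMod p) ℂ, χ⁻¹ v * (w z * χ⁻¹ z * (φ y * χ y)) =
        w z * φ y * χ (y * (v * z)⁻¹) := by
      intro χ
      rw [map_mul, ← MulChar.inv_apply', map_mul]
      ring
    rw [sum_congr rfl fun χ _ => e1 χ, ← mul_sum, sumH hU]
    split_ifs <;> simp [hD, mul_comm]
  have h2 : α * β * ∑ u ∈ U, (Pc (v * u) X Y : ℝ) ≤
      ∑ z, ∑ y, if y * (v * z)⁻¹ ∈ U then w z * φ y else 0 := by
    have e1 : ∀ u, (Pc (v * u) X Y : ℝ) =
        ∑ z, if z ∈ iv p X ∧ z ≠ 0 ∧ v * u * z ∈ iv p Y then 1 else 0 := by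
      intro u
      rw [← sum_filter, sum_const, nsmul_eq_mul, mul_one, Pc]
      congr 2
      ext z
      simp
    rw [sum_congr rfl fun u _ => e1 u, sum_comm, mul_sum]
    refine sum_le_sum fun z _ => ?_
    rcases eq_or_ne z 0 with rfl | hz
    · simp only [ne_eq, not_true_eq_false, false_and, and_false, if_false, sum_const_zero,
        mul_zero]
      exact sum_nonneg fun y _ => by split_ifs; exacts [mul_nonneg (hw0 _) (hφ0 _), le_rfl]
    have hvz : v * z ≠ 0 := mul_ne_zero hv hz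
    have e2 : ∑ y, (if y * (v * z)⁻¹ ∈ U then w z * φ y else 0) =
        ∑ u ∈ U, w z * φ (v * u * z) := by
      rw [← sum_filter]
      refine sum_bij' (fun y _ => y * (v * z)⁻¹) (fun u _ => v * u * z)
        (fun y hy => (mem_filter.1 hy).2) ?_ ?_ ?_ ?_
      · intro u hu
        rw [mem_filter]
        refine ⟨mem_univ _, ?_⟩
        have : v * u * z * (v * z)⁻¹ = u := by field_simp
        rwa [this]
      · intro y _; field_simp
      · intro u _; field_simp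
      · intro y _
        congr 2
        field_simp
    rw [e2, mul_sum]
    refine sum_le_sum fun u _ => ?_
    split_ifs with h
    · rw [mul_one]
      exact mul_le_mul (hw z h.1) (hφ _ h.2.2) hβ (hw0 _)
    · rw [mul_zero]
      exact mul_nonneg (hw0 _) (hφ0 _)
  have h1H : (1 : MulChar (ZMod p) ℂ) ∈ HH U :=
    mem_HH.2 fun u hu => MulChar.one_apply (Ne.isUnit (hU.ne hu))
  have hb : ∀ (g : ZMod p → ℝ) (ψ : MulChar (ZMod p) ℂ), (∀ z, 0 ≤ g z) →
      ‖∑ z, (g z : ℂ) * ψ z‖ ≤ ∑ z, g z := by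
    intro g ψ hg
    refine (norm_sum_le _ _).trans (sum_le_sum fun z _ => ?_)
    rw [norm_mul, Complex.norm_real, Real.norm_of_nonneg (hg z)]
    exact mul_le_of_le_one_right (hg z) (norm_mulChar_le _ _)
  calc α * β * (D * ∑ u ∈ U, (Pc (v * u) X Y : ℝ))
      = D * (α * β * ∑ u ∈ U, (Pc (v * u) X Y : ℝ)) := by ring
    _ ≤ D * ∑ z, ∑ y, if y * (v * z)⁻¹ ∈ U then w z * φ y else 0 := by gcongr
    _ ≤ ‖∑ χ ∈ HH U, χ⁻¹ v * ((∑ z, (w z : ℂ) * χ⁻¹ z) * ∑ y, (φ y : ℂ) * χ y)‖ := by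
        rw [h1, Complex.norm_real]; exact le_abs_self _
    _ ≤ ∑ χ ∈ HH U, ‖∑ z, (w z : ℂ) * χ⁻¹ z‖ * ‖∑ y, (φ y : ℂ) * χ y‖ := by
        refine (norm_sum_le _ _).trans (sum_le_sum fun χ _ => ?_)
        rw [norm_mul, norm_mul]
        exact mul_le_of_le_one_left (by positivity) (norm_mulChar_le _ _)
    _ ≤ _ := by
        rw [← add_sum_erase _ _ h1H]
        gcongr
        · exact sum_nonneg fun z _ => hw0 z
        · exact hb w _ hw0
        · exact hb φ _ hφ0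

/-- The majorant on the short side. -/
noncomputable def wX (p X A B : ℕ) (z : ZMod p) : ℝ :=
  ∑ h ∈ Icc (-(X : ℤ)) X, ∑ a ∈ Icc 1 A, ∑ b ∈ Icc 1 B,
    if z = (h : ZMod p) + (a : ZMod p) * (b : ZMod p) then 1 else 0

omit [Fact p.Prime] in
lemma wX_nonneg (X A B : ℕ) (z : ZMod p) : 0 ≤ wX p X A B z :=
  sum_nonneg fun _ _ => sum_nonneg fun _ _ => sum_nonneg fun _ _ => by split_ifs <;> norm_num

lemma wX_sum (X A B : ℕ) (g : ZMod p → ℂ) : ∑ z, (wX p X A B z : ℂ) * g z =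
    ∑ h ∈ Icc (-(X : ℤ)) X, ∑ a ∈ Icc 1 A, ∑ b ∈ Icc 1 B,
      g ((h : ZMod p) + (a : ZMod p) * (b : ZMod p)) := by
  simp only [wX, Complex.ofReal_sum, sum_mul]
  rw [sum_comm]
  refine sum_congr rfl fun h _ => ?_
  rw [sum_comm]
  refine sum_congr rfl fun a _ => ?_
  rw [sum_comm]
  refine sum_congr rfl fun b _ => ?_
  simp [apply_ite Complex.ofReal]

lemma wX_mass (X A B : ℕ) : ∑ z, wX p X A B z = (2 * X + 1) * (A * B) := by
  apply Complex.ofReal_injective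
  have := wX_sum (p := p) X A B fun _ => 1
  simp only [mul_one, sum_const, Nat.card_Icc, Int.card_Icc, nsmul_eq_mul] at this
  rw [Complex.ofReal_sum, this, show ((X : ℤ) + 1 - -X).toNat = 2 * X + 1 by omega]
  simp

omit [Fact p.Prime] in
lemma wX_ge (X A B : ℕ) (h : A * B ≤ X) (z : ZMod p) (hz : z ∈ iv p X) :
    (A * B : ℝ) ≤ wX p X A B z := by
  obtain ⟨x, hx, rfl⟩ := mem_image.1 hz
  rw [mem_Icc] at hx
  rw [wX, sum_comm]
  have e : (A * B : ℝ) = ∑ a ∈ Icc 1 A, ∑ b ∈ Icc 1 B, (1 : ℝ) := by simp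
  rw [e]
  refine sum_le_sum fun a ha => ?_
  rw [sum_comm]
  refine sum_le_sum fun b hb => ?_
  rw [mem_Icc] at ha hb
  have hab : a * b ≤ X := (Nat.mul_le_mul ha.2 hb.2).trans h
  have hm : (x : ℤ) - (a * b : ℕ) ∈ Icc (-(X : ℤ)) X := by
    rw [mem_Icc]; omega
  refine le_trans (le_of_eq ?_) (single_le_sum (f := fun h : ℤ =>
    if (x : ZMod p) = (h : ZMod p) + (a : ZMod p) * (b : ZMod p) then (1 : ℝ) else 0)
    (fun _ _ => by split_ifs <;> norm_num) hm)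
  simp

/-- The index set of the majorant on the long side. -/
def idx (H A B : ℕ) : Finset (ℕ × ℕ × ℕ) := range H ×ˢ Icc 1 A ×ˢ Icc 1 B

/-- The frequencies of the majorant on the long side. -/
def frq (t : ℕ × ℕ × ℕ) : ℕ := t.1 + t.2.1 * t.2.2

lemma card_idx (H A B : ℕ) : (idx H A B).card = H * (A * B) := by simp [idx]

lemma frq_le {H A B : ℕ} {t : ℕ × ℕ × ℕ} (ht : t ∈ idx H A B) : frq t ≤ H + A * B := by
  simp only [idx, mem_product, mem_range, mem_Icc] at ht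
  exact Nat.add_le_add ht.1.le (Nat.mul_le_mul ht.2.1.2 ht.2.2.2)

/-- The majorant on the long side. -/
noncomputable def φY (p : ℕ) [NeZero p] (H A B : ℕ) (y : ZMod p) : ℝ :=
  ‖∑ t ∈ idx H A B, ZMod.stdAddChar ((frq t : ZMod p) * y)‖ ^ 2

lemma φY_eq (H A B : ℕ) (y : ZMod p) : (φY p H A B y : ℂ) =
    ∑ t' ∈ idx H A B, ∑ t ∈ idx H A B,
      ZMod.stdAddChar (((frq t : ZMod p) - (frq t' : ZMod p)) * y) := by
  rw [φY, Complex.ofReal_pow, ← Complex.conj_mul', map_sum, sum_mul_sum]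
  refine sum_congr rfl fun t' _ => sum_congr rfl fun t _ => ?_
  rw [← AddChar.map_neg_eq_conj, ← AddChar.map_add_eq_mul]
  congr 1
  ring

lemma φY_mass (H A B : ℕ) (hH : H ≤ p) : ∑ y, φY p H A B y ≤ p * (H * (A * B) ^ 2) := by
  classical
  have h1 : ((∑ y, φY p H A B y : ℝ) : ℂ) = ((∑ t' ∈ idx H A B, ∑ t ∈ idx H A B,
      if (frq t : ZMod p) = (frq t' : ZMod p) then (p : ℝ) else 0 : ℝ) : ℂ) := by
    push_cast
    rw [sum_congr rfl fun y _ => φY_eq H A B y, sum_comm]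
    refine sum_congr rfl fun t' _ => ?_
    rw [sum_comm]
    refine sum_congr rfl fun t _ => ?_
    simp only [mul_comm (_ - _ : ZMod p)]
    rw [AddChar.sum_mulShift _ (ZMod.isPrimitive_stdAddChar p)]
    simp [sub_eq_zero, apply_ite Complex.ofReal]
  rw [Complex.ofReal_injective h1]
  have h2 : ∀ t' ∈ idx H A B, (∑ t ∈ idx H A B,
      if (frq t : ZMod p) = (frq t' : ZMod p) then (p : ℝ) else 0) ≤ (A * B : ℕ) * p := by
    intro t' _
    rw [← sum_filter, sum_const, nsmul_eq_mul]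
    gcongr
    have : (Icc 1 A ×ˢ Icc 1 B).card = A * B := by simp
    rw [← this]
    refine card_le_card_of_injOn (fun t => t.2) (fun t ht => ?_) ?_
    · exact (mem_product.1 (mem_filter.1 ht).1).2
    · rintro ⟨j, ab⟩ h1 ⟨j', ab'⟩ h2 h
      simp only at h
      subst h
      have e1 := (mem_filter.1 h1).2.trans (mem_filter.1 h2).2.symm
      have e2 := mem_range.1 (mem_product.1 (mem_filter.1 h1).1).1
      have e3 := mem_range.1 (mem_product.1 (mem_filter.1 h2).1).1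
      simp only [frq, Nat.cast_add, add_left_inj] at e1 e2 e3
      have := (ZMod.natCast_eq_natCast_iff' j j' p).1 e1
      rw [Nat.mod_eq_of_lt (by omega), Nat.mod_eq_of_lt (by omega)] at this
      rw [this]
  refine (sum_le_sum h2).trans (le_of_eq ?_)
  rw [sum_const, card_idx, nsmul_eq_mul]
  push_cast
  ring

lemma re_stdAddChar_ge (k : ℕ) (hk : 6 * k ≤ p) :
    1 / 2 ≤ (ZMod.stdAddChar (k : ZMod p)).re := by
  have hp : (0 : ℝ) < p := by exact_mod_cast (Fact.out : p.Prime).pos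
  have h1 := ZMod.stdAddChar_coe (N := p) (k : ℤ)
  rw [Int.cast_natCast] at h1
  have h2 : (2 * Real.pi * Complex.I * ((k : ℤ) : ℂ) / p : ℂ) =
      ((2 * Real.pi * k / p : ℝ) : ℂ) * Complex.I := by push_cast; ring
  rw [h1, h2, Complex.exp_ofReal_mul_I_re, ← Real.cos_pi_div_three]
  have hk' : (6 * k : ℝ) ≤ p := by exact_mod_cast hk
  refine Real.cos_le_cos_of_nonneg_of_le_pi (by positivity) (by linarith [Real.pi_pos]) ?_
  rw [div_le_div_iff₀ hp (by norm_num)]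
  nlinarith [Real.pi_pos]

lemma φY_ge (H A B Y : ℕ) (h : 6 * ((H + A * B) * Y) ≤ p) (y : ZMod p) (hy : y ∈ iv p Y) :
    ((H : ℝ) * (A * B)) ^ 2 / 4 ≤ φY p H A B y := by
  obtain ⟨x, hx, rfl⟩ := mem_image.1 hy
  rw [mem_Icc] at hx
  have h1 : (H : ℝ) * (A * B) / 2 ≤
      ‖∑ t ∈ idx H A B, ZMod.stdAddChar ((frq t : ZMod p) * (x : ZMod p))‖ := by
    refine le_trans ?_ (Complex.re_le_norm _)
    rw [Complex.re_sum]
    have e : (H : ℝ) * (A * B) / 2 = ∑ _t ∈ idx H A B, (1 / 2 : ℝ) := by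
      rw [sum_const, card_idx, nsmul_eq_mul]; push_cast; ring
    rw [e]
    refine sum_le_sum fun t ht => ?_
    rw [← Nat.cast_mul]
    exact re_stdAddChar_ge _ (le_trans (by gcongr; exacts [frq_le ht, hx.2]) h)
  calc ((H : ℝ) * (A * B)) ^ 2 / 4 = ((H : ℝ) * (A * B) / 2) ^ 2 := by ring
    _ ≤ _ := pow_le_pow_left₀ (by positivity) h1 2

lemma gauss_shift (χ : MulChar (ZMod p) ℂ) (hχ : χ ≠ 1) (m : ZMod p) :
    ∑ y, ZMod.stdAddChar (m * y) * χ y = χ⁻¹ m * gaussSum χ ZMod.stdAddChar := by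
  have e : ∑ y, ZMod.stdAddChar (m * y) * χ y = gaussSum χ (ZMod.stdAddChar.mulShift m) := by
    simp [gaussSum, mul_comm]
  rw [e]
  rcases eq_or_ne m 0 with rfl | hm
  · rw [AddChar.mulShift_zero, gaussSum_one_right hχ, MulChar.map_zero, zero_mul]
  · exact gaussSum_mulShift_eq χ _ (Units.mk0 m hm)

lemma norm_gauss_sq (χ : MulChar (ZMod p) ℂ) (hχ : χ ≠ 1) :
    ‖gaussSum χ ZMod.stdAddChar‖ ^ 2 = p := by
  have h := gaussSum_mul_gaussSum_eq_card hχ (ZMod.isPrimitive_stdAddChar p)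
  rw [← star_gaussSum_eq, Complex.star_def, Complex.mul_conj', ZMod.card] at h
  exact_mod_cast h

lemma φY_char (H A B : ℕ) (χ : MulChar (ZMod p) ℂ) (hχ : χ ≠ 1) :
    ∑ y, (φY p H A B y : ℂ) * χ y = gaussSum χ ZMod.stdAddChar *
      ∑ t' ∈ idx H A B, Ssum (Ico (-(frq t' : ℤ)) (H - frq t')) A B χ⁻¹ := by
  simp only [φY_eq, sum_mul]
  rw [sum_comm, mul_sum]
  refine sum_congr rfl fun t' _ => ?_
  rw [sum_comm, sum_congr rfl fun t _ => gauss_shift χ hχ _, ← sum_mul, mul_comm]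
  congr 1
  rw [idx, sum_product, Ssum]
  refine sum_bij' (fun j _ => (j : ℤ) - frq t') (fun h _ => (h + frq t').toNat) ?_ ?_ ?_ ?_ ?_
  · intro j hj
    rw [mem_range] at hj
    rw [mem_Ico]
    omega
  · intro h hh
    rw [mem_Ico] at hh
    rw [mem_range]
    omega
  · intro j _; simp
  · intro h hh
    rw [mem_Ico] at hh
    omega
  · intro j _
    rw [sum_product]
    refine sum_congr rfl fun a _ => sum_congr rfl fun b _ => ?_
    congr 1
    simp only [frq]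
    push_cast
    ring

theorem box_gen {U : Finset (ZMod p)} (hU : IsSub U) (v : ZMod p) (hv : v ≠ 0)
    (X Y A B H A' B' : ℕ) (hA : 0 < A) (hB : 0 < B) (hH : 0 < H) (hA' : 0 < A') (hB' : 0 < B')
    (hX : A * B ≤ X) (hY : 6 * ((H + A' * B') * Y) ≤ p) (hHp : H ≤ p) (WX WY : ℝ)
    (hWX0 : 0 ≤ WX) (hWY0 : 0 ≤ WY)
    (hWX : ∑ χ ∈ (HH U).erase 1, ‖Ssum (Icc (-(X : ℤ)) X) A B χ‖ ^ 2 ≤ WX * (A * B) ^ 2)
    (hWY : ∀ m : ℕ, m ≤ H + A' * B' →
      ∑ χ ∈ (HH U).erase 1, ‖Ssum (Ico (-(m : ℤ)) (H - m)) A' B' χ‖ ^ 2 ≤ WY * (A' * B') ^ 2) :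
    (HH U).card * ∑ u ∈ U, (Pc (v * u) X Y : ℝ) ≤
      4 * (2 * X + 1) * p / H + 4 * √(p * WX * WY) / H := by
  classical
  have h1 := key_major hU v hv X Y (wX p X A B) (φY p H A' B') (A * B) _ (by positivity)
    (by positivity) (wX_nonneg X A B) (fun _ => sq_nonneg _) (wX_ge X A B hX)
    (φY_ge H A' B' Y hY)
  set T := (HH U).erase 1 with hT
  have h2 : ∑ χ ∈ T, ‖∑ z, (wX p X A B z : ℂ) * χ⁻¹ z‖ ^ 2 ≤ WX * (A * B) ^ 2 := by
    refine le_trans (le_of_eq (sum_congr rfl fun χ _ => ?_)) hWX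
    rw [wX_sum, ← Ssum.eq_1, Ssum_inv, norm_star]
  have h3 : ∑ χ ∈ T, ‖∑ y, (φY p H A' B' y : ℂ) * χ y‖ ^ 2 ≤
      p * WY * (H * (A' * B') ^ 2) ^ 2 := by
    have e1 : ∀ χ ∈ T, ‖∑ y, (φY p H A' B' y : ℂ) * χ y‖ ^ 2 ≤ p * ((H * (A' * B') : ℕ) *
        ∑ t' ∈ idx H A' B', ‖Ssum (Ico (-(frq t' : ℤ)) (H - frq t')) A' B' χ‖ ^ 2) := by
      intro χ hχ
      have hχ1 := ne_of_mem_erase hχ
      rw [φY_char H A' B' χ hχ1, norm_mul, mul_pow, norm_gauss_sq χ hχ1, ← card_idx]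
      gcongr
      refine (pow_le_pow_left₀ (norm_nonneg _) (norm_sum_le _ _) 2).trans ?_
      simp only [Ssum_inv, norm_star]
      exact sq_sum_le_card_mul_sum_sq
    refine (sum_le_sum e1).trans ?_
    rw [← mul_sum, ← mul_sum, sum_comm]
    have e2 := sum_le_sum fun t' (ht' : t' ∈ idx H A' B') => hWY (frq t') (frq_le ht')
    rw [sum_const, card_idx, nsmul_eq_mul] at e2
    calc _ ≤ (p : ℝ) * ((H * (A' * B') : ℕ) * ((H * (A' * B') : ℕ) * (WY * (A' * B') ^ 2))) := by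
          gcongr
      _ = _ := by push_cast; ring
  have h4 : ∑ χ ∈ T, ‖∑ z, (wX p X A B z : ℂ) * χ⁻¹ z‖ * ‖∑ y, (φY p H A' B' y : ℂ) * χ y‖ ≤
      √(p * WX * WY) * ((A * B) * (H * (A' * B') ^ 2)) := by
    refine (Real.sum_mul_le_sqrt_mul_sqrt _ _ _).trans ?_
    rw [← Real.sqrt_mul (by positivity), ← Real.sqrt_sq (x := (A * B) * (H * (A' * B') ^ 2))
      (by positivity), ← Real.sqrt_mul (by positivity)]
    apply Real.sqrt_le_sqrt
    calc _ ≤ (WX * (A * B) ^ 2) * (p * WY * (H * (A' * B') ^ 2) ^ 2) := by gcongr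
      _ = _ := by ring
  have h5 : (∑ z, wX p X A B z) * (∑ y, φY p H A' B' y) ≤
      (2 * X + 1) * (A * B) * (p * (H * (A' * B') ^ 2)) := by
    rw [wX_mass]
    gcongr
    exact φY_mass H A' B' hHp
  have hpos : (0 : ℝ) < A * B * (((H : ℝ) * (A' * B')) ^ 2 / 4) := by positivity
  refine le_of_mul_le_mul_left (h1.trans ((add_le_add h5 h4).trans (le_of_eq ?_))) hpos
  field_simp

end Pool.Agent.Lib.MP_3bfe94_nt
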