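import Pool.Agent.Lib.MP_3bfe94_nt.Box

/-!
The upper bound of the expected order for the number of solutions of `y ≡ a x` in a box,
summed over a coset.
-/

set_option autoImplicit false

open Finset

namespace Pool.Agent.Lib.MP_3bfe94_nt

variable {p : ℕ} [Fact p.Prime]

lemma Ssum_one_le (I : Finset ℤ) (χ : MulChar (ZMod p) ℂ) : ‖Ssum I 1 1 χ‖ ≤ I.card := by
  rw [Ssum]
  refine (norm_sum_le _ _).trans ((sum_le_sum (g := fun _ => (1 : ℝ)) fun h _ => ?_).trans (by simp))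
  simp only [Icc_self, sum_singleton]
  exact norm_mulChar_le _ _

lemma W_one_le (U : Finset (ZMod p)) (I : Finset ℤ) :
    ∑ χ ∈ (HH U).erase 1, ‖Ssum I 1 1 χ‖ ^ 2 ≤ (HH U).card * (I.card : ℝ) ^ 2 := by
  refine (sum_le_sum (g := fun _ => (I.card : ℝ) ^ 2) fun χ _ =>
    pow_le_pow_left₀ (norm_nonneg _) (Ssum_one_le I χ) 2).trans ?_
  rw [sum_const, nsmul_eq_mul]
  gcongr
  exact erase_subset _ _

lemma burgess_H {U : Finset (ZMod p)} (hU : IsSub U) (B H A : ℕ) (Z : ℝ) (hZ : 0 ≤ Z)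
    (hB : B ^ 6 ≤ p) (hDB : (HH U).card ≤ B)
    (hL : (1 + Real.log p) ^ 2 * (HH U).card * p ≤ B * Z)
    (hA0 : 0 < A) (hA : A ≤ H) (hHA : 2 * H * A < p)
    (I : Finset ℤ) (hI : ∀ h ∈ I, |h| ≤ H) (hIc : I.card ≤ 3 * H) (c t : ℝ) (hc : 0 ≤ c)
    (ht : 0 ≤ t) (hH : 378 * (H : ℝ) ^ 3 ≤ c ^ 2 * t ^ 2 * (A * B)) :
    ∑ χ ∈ (HH U).erase 1, ‖Ssum I A B χ‖ ^ 2 ≤ c * √Z * t * (A * B) ^ 2 := by
  classical
  have h := burgess U ((HH U).erase 1) (fun χ hχ => ne_of_mem_erase hχ)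
    (fun χ hχ => mem_HH.1 (mem_of_mem_erase hχ))
    (fun χ hχ => mem_erase.2 ⟨inv_ne_one.2 (ne_of_mem_erase hχ), mem_HH.2 fun u hu => by
      rw [MulChar.inv_apply_eq_inv', mem_HH.1 (mem_of_mem_erase hχ) u hu, inv_one]⟩)
    (HH U).card H A B (card_HH hU) (card_erase_le) hDB hB hA hHA I hI hIc
  refine le_of_pow_le_pow_left₀ two_ne_zero (by positivity) (h.trans ?_)
  have hAp : (A : ℝ) ≤ p := by
    have : A ≤ p := by nlinarith
    exact_mod_cast this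
  have hA1 : (1 : ℝ) ≤ A := by exact_mod_cast hA0
  have hlog : (1 + Real.log A) ^ 2 ≤ (1 + Real.log p) ^ 2 := by
    have := Real.log_nonneg hA1
    gcongr
  calc 378 * (H : ℝ) ^ 3 * (A : ℝ) ^ 3 * (1 + Real.log A) ^ 2 * (HH U).card * (B : ℝ) ^ 2 * p
      = 378 * (H : ℝ) ^ 3 * (A : ℝ) ^ 3 * (B : ℝ) ^ 2 *
          ((1 + Real.log A) ^ 2 * (HH U).card * p) := by ring
    _ ≤ c ^ 2 * t ^ 2 * (A * B) * (A : ℝ) ^ 3 * (B : ℝ) ^ 2 * (B * Z) := by
        refine mul_le_mul (by gcongr) (le_trans (by gcongr) hL) (by positivity) (by positivity)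
    _ = c ^ 2 * √Z ^ 2 * t ^ 2 * ((A * B) ^ 2) ^ 2 := by rw [Real.sq_sqrt hZ]; ring
    _ = _ := by ring

lemma num_err1 (p D X Y H : ℝ) (hp : 0 ≤ p) (hX : 1 ≤ X) (hY : 0 ≤ Y) (hH : 0 < H)
    (e : D ^ 2 * p ≤ Y ^ 2) :
    4 * √(p * (D * (2 * X + 1) ^ 2) * (D * H ^ 2)) / H ≤ 12 * (X * Y) := by
  rw [div_le_iff₀ hH]
  have : √(p * (D * (2 * X + 1) ^ 2) * (D * H ^ 2)) ≤ 3 * (X * Y) * H := by
    rw [Real.sqrt_le_left (by positivity)]
    calc p * (D * (2 * X + 1) ^ 2) * (D * H ^ 2)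
        = (D ^ 2 * p) * (2 * X + 1) ^ 2 * H ^ 2 := by ring
      _ ≤ Y ^ 2 * (3 * X) ^ 2 * H ^ 2 := by gcongr; linarith
      _ = _ := by ring
  linarith

lemma num_err2 (p X Y H : ℝ) (hX : 0 ≤ X) (hY : 0 ≤ Y) (hH : 0 < H) (e : p ≤ 24 * (Y * H)) :
    4 * √(p * (28 * √(X * Y) * X) * (78 * √(X * Y) * H)) / H ≤ 940 * (X * Y) := by
  rw [div_le_iff₀ hH]
  have : √(p * (28 * √(X * Y) * X) * (78 * √(X * Y) * H)) ≤ 235 * (X * Y) * H := by
    rw [Real.sqrt_le_left (by positivity)]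
    have e1 : √(X * Y) * √(X * Y) = X * Y := Real.mul_self_sqrt (by positivity)
    calc p * (28 * √(X * Y) * X) * (78 * √(X * Y) * H)
        = 2184 * p * (√(X * Y) * √(X * Y)) * X * H := by ring
      _ ≤ 2184 * (24 * (Y * H)) * (X * Y) * X * H := by rw [e1]; gcongr
      _ = 52416 * (X * Y * H) ^ 2 := by ring
      _ ≤ 55225 * (X * Y * H) ^ 2 := by gcongr; norm_num
      _ = _ := by ring
  linarith

lemma num_main (p X Y H : ℝ) (hp : 0 ≤ p) (hX : 1 ≤ X) (hH : 0 < H) (e : p ≤ 24 * (Y * H)) :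
    4 * (2 * X + 1) * p / H ≤ 288 * (X * Y) := by
  rw [div_le_iff₀ hH]
  calc 4 * (2 * X + 1) * p ≤ 4 * (3 * X) * (24 * (Y * H)) := by gcongr; linarith
    _ = _ := by ring

lemma num_c1 (X t : ℝ) (hX : 0 ≤ X) (h : X ≤ 2 * t) : 378 * X ^ 3 ≤ 28 ^ 2 * X ^ 2 * t := by
  have ht : 0 ≤ t := by linarith
  calc 378 * X ^ 3 = 378 * X ^ 2 * X := by ring
    _ ≤ 378 * X ^ 2 * (2 * t) := by gcongr
    _ = 756 * (X ^ 2 * t) := by ring
    _ ≤ 784 * (X ^ 2 * t) := by gcongr; norm_num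
    _ = _ := by ring

lemma num_c2 (X t : ℝ) (hX : 0 ≤ X) (h : X ≤ 2 * t) :
    378 * (2 * X) ^ 3 ≤ 78 ^ 2 * X ^ 2 * t := by
  have ht : 0 ≤ t := by linarith
  calc 378 * (2 * X) ^ 3 = 3024 * X ^ 2 * X := by ring
    _ ≤ 3024 * X ^ 2 * (2 * t) := by gcongr
    _ = 6048 * (X ^ 2 * t) := by ring
    _ ≤ 6084 * (X ^ 2 * t) := by gcongr; norm_num
    _ = _ := by ring

lemma div_approx (X B : ℕ) (hB : 0 < B) (h : B ≤ X) :
    0 < X / B ∧ X / B * B ≤ X ∧ X ≤ 2 * (X / B * B) := by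
  have h0 : 0 < X / B := Nat.div_pos h hB
  have h1 := Nat.lt_div_mul_add (a := X) hB
  have h2 : B ≤ X / B * B := Nat.le_mul_of_pos_left B h0
  exact ⟨h0, Nat.div_mul_le_self _ _, by omega⟩

lemma num_BX (p D M B X Y : ℕ) (hB4 : B ^ 4 ≤ p) (hDM : D * M ≤ B) (hM : 0 < M) (hB : 0 < B)
    (h1 : p ≤ M * (X * Y)) (hlt : Y ^ 2 < D ^ 2 * p) : B ≤ X := by
  by_contra hc
  push Not at hc
  have e1 : p ^ 2 ≤ (M * (B * Y)) ^ 2 := by
    refine Nat.pow_le_pow_left (h1.trans ?_) 2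
    gcongr
  have e2 : (M * (B * Y)) ^ 2 < (D * M) ^ 2 * B ^ 2 * p := by
    calc (M * (B * Y)) ^ 2 = (M * B) ^ 2 * Y ^ 2 := by ring
      _ < (M * B) ^ 2 * (D ^ 2 * p) := by gcongr
      _ = _ := by ring
  have e3 : (D * M) ^ 2 * B ^ 2 * p ≤ p ^ 2 := by
    calc (D * M) ^ 2 * B ^ 2 * p ≤ B ^ 2 * B ^ 2 * p := by gcongr
      _ = B ^ 4 * p := by ring
      _ ≤ p * p := by gcongr
      _ = _ := by ring
  omega

lemma num_BH (p D B Y : ℕ) (hB4 : B ^ 4 ≤ p) (hDB : 12 * D ≤ B)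
    (hlt : Y ^ 2 < D ^ 2 * p) : B * (12 * Y) ≤ p := by
  refine le_of_pow_le_pow_left₀ two_ne_zero (Nat.zero_le _) ?_
  calc (B * (12 * Y)) ^ 2 = 144 * B ^ 2 * Y ^ 2 := by ring
    _ ≤ 144 * B ^ 2 * (D ^ 2 * p) := by gcongr
    _ = (12 * D) ^ 2 * B ^ 2 * p := by ring
    _ ≤ B ^ 2 * B ^ 2 * p := by gcongr
    _ = B ^ 4 * p := by ring
    _ ≤ p * p := by gcongr
    _ = _ := by ring

lemma num_HA1 (p B X Y A : ℕ) (hp : 0 < p) (hB : 12 ≤ B) (hA : A * B ≤ X) (hXY : X ≤ Y)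
    (h2 : X * Y ≤ 2 * p) : 2 * X * A < p := by
  refine lt_of_mul_lt_mul_right (a := B) ?_ (Nat.zero_le _)
  calc 2 * X * A * B = 2 * X * (A * B) := by ring
    _ ≤ 2 * X * Y := by gcongr; omega
    _ = 2 * (X * Y) := by ring
    _ < p * 12 := by omega
    _ ≤ p * B := by gcongr

lemma num_HA2 (p B M X Y H A : ℕ) (hp : 0 < p) (hB : 0 < B) (hA : A * B ≤ H) (hXY : X ≤ Y)
    (hMB : M ≤ B) (h1 : p ≤ M * (X * Y)) (hH : H * (12 * Y) ≤ p) : 2 * (2 * H) * A < p := by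
  have e1 : 144 * H ^ 2 * p ≤ B * p * p := by
    calc 144 * H ^ 2 * p ≤ 144 * H ^ 2 * (B * (Y * Y)) := by
          gcongr
          exact h1.trans (by gcongr)
      _ = B * (H * (12 * Y)) * (H * (12 * Y)) := by ring
      _ ≤ _ := by gcongr
  have e2 : 144 * H ^ 2 ≤ B * p := le_of_mul_le_mul_right e1 hp
  have e3 : B * (144 * (H * A)) ≤ B * p := by
    refine le_trans ?_ e2
    calc B * (144 * (H * A)) = 144 * H * (A * B) := by ring
      _ ≤ 144 * H * H := by gcongr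
      _ = _ := by ring
  have e4 := le_of_mul_le_mul_left e3 hB
  have e5 : 2 * (2 * H) * A = 4 * (H * A) := by ring
  omega

lemma box_ordered {U : Finset (ZMod p)} (hU : IsSub U) (v : ZMod p) (hv : v ≠ 0) (B M X Y : ℕ)
    (hB6 : B ^ 6 ≤ p) (hM : 12 ≤ M) (hD : (1 + Real.log p) ^ 2 * (HH U).card * M ≤ B)
    (hXY : X ≤ Y) (h1 : p ≤ M * (X * Y)) (h2 : X * Y ≤ 2 * p) :
    (HH U).card * ∑ u ∈ U, (Pc (v * u) X Y : ℝ) ≤ 1300 * (X * Y) := by
  have hp0 : 0 < p := (Fact.out : p.Prime).pos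
  have hDU := card_HH hU
  obtain ⟨D, hDdef⟩ : ∃ D, D = (HH U).card := ⟨_, rfl⟩
  rw [← hDdef] at hD hDU
  have hX0 : 0 < X := by
    rcases Nat.eq_zero_or_pos X with rfl | h
    · simp at h1; omega
    · exact h
  have hY0 : 0 < Y := by omega
  have hXR : (1 : ℝ) ≤ X := by exact_mod_cast hX0
  have hXY0 : (0 : ℝ) ≤ X * Y := by positivity
  rcases Nat.lt_or_ge p (12 * Y) with hbig | hsmall
  · have e1 : ∑ u ∈ U, (Pc (v * u) X Y : ℝ) ≤ U.card * X := by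
      refine (sum_le_sum (g := fun _ => (X : ℝ)) fun u _ => ?_).trans (by simp)
      exact_mod_cast Pc_le _ _ _
    have e2 : (D * U.card : ℝ) ≤ 12 * Y := by
      have : D * U.card ≤ 12 * Y := by omega
      exact_mod_cast this
    rw [← hDdef]
    calc _ ≤ D * (U.card * X : ℝ) := by gcongr
      _ = (D * U.card) * X := by ring
      _ ≤ (12 * Y) * X := by gcongr
      _ ≤ _ := by linarith
  obtain ⟨hH0, hH1, hH2⟩ := div_approx p (12 * Y) (by omega) hsmall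
  have hH3 := Nat.lt_div_mul_add (a := p) (show 0 < 12 * Y by omega)
  generalize p / (12 * Y) = H at hH0 hH1 hH2 hH3
  have hHp : H ≤ p := (Nat.le_mul_of_pos_right H (by omega)).trans hH1
  have hHR : (0 : ℝ) < H := by exact_mod_cast hH0
  have hH2R : (p : ℝ) ≤ 24 * (Y * H) := by
    have : p ≤ 24 * (Y * H) := by linarith
    exact_mod_cast this
  have hmain := num_main p X Y H (by positivity) hXR hHR hH2R
  have hY6 : ∀ t, t ≤ H → 6 * ((H + t) * Y) ≤ p := by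
    intro t ht
    calc 6 * ((H + t) * Y) ≤ 6 * ((H + H) * Y) := by gcongr
      _ = H * (12 * Y) := by ring
      _ ≤ p := hH1
  rcases Nat.lt_or_ge (Y ^ 2) (D ^ 2 * p) with hlt | hge
  swap
  · have h := box_gen hU v hv X Y 1 1 H 1 1 one_pos one_pos hH0 one_pos one_pos (by omega)
      (hY6 _ (by omega)) hHp
      (D * (2 * X + 1) ^ 2) (D * H ^ 2) (by positivity) (by positivity)
      (by
        refine (W_one_le U _).trans (le_of_eq ?_)
        rw [Int.card_Icc, show ((X : ℤ) + 1 - -X).toNat = 2 * X + 1 by omega, ← hDdef]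
        simp)
      (by
        intro m _
        refine (W_one_le U _).trans (le_of_eq ?_)
        rw [Int.card_Ico, show ((H : ℤ) - m - -m).toNat = H by omega, ← hDdef]
        simp)
    have herr := num_err1 p D X Y H (by positivity) hXR (by positivity) hHR (by exact_mod_cast hge)
    linarith
  have hlog : 0 ≤ Real.log p := Real.log_natCast_nonneg p
  have hDM : D * M ≤ B := by
    have : (D * M : ℝ) ≤ B := by
      refine le_trans ?_ hD
      rw [mul_assoc]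
      exact le_mul_of_one_le_left (by positivity) (one_le_pow₀ (by linarith))
    exact_mod_cast this
  have hD0 : 0 < D := by
    rcases Nat.eq_zero_or_pos D with h | h
    · rw [h] at hlt; simp at hlt
    · exact h
  have hMB : M ≤ B := le_trans (Nat.le_mul_of_pos_left M hD0) hDM
  have hDB : 12 * D ≤ B := by
    rw [mul_comm]; exact (Nat.mul_le_mul_left D hM).trans hDM
  have hB0 : 0 < B := by omega
  have hB4 : B ^ 4 ≤ p := le_trans (Nat.pow_le_pow_right hB0 (by norm_num)) hB6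
  have hBX := num_BX p D M B X Y hB4 hDM (by omega) hB0 h1 hlt
  have hBH : B ≤ H := by
    have := num_BH p D B Y hB4 hDB hlt
    by_contra hc
    have e1 : (H + 1) * (12 * Y) ≤ B * (12 * Y) := Nat.mul_le_mul_right _ (by omega)
    rw [add_mul, one_mul] at e1
    omega
  obtain ⟨hA0, hA1, hA2⟩ := div_approx X B hB0 hBX
  obtain ⟨hA0', hA1', hA2'⟩ := div_approx H B hB0 hBH
  generalize X / B = A at hA0 hA1 hA2
  generalize H / B = A' at hA0' hA1' hA2'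
  have hA2R : (X : ℝ) ≤ 2 * (A * B) := by exact_mod_cast hA2
  have hA2R' : (H : ℝ) ≤ 2 * (A' * B) := by exact_mod_cast hA2'
  have hc1 := num_HA1 p B X Y A hp0 (by omega) hA1 hXY h2
  have hc2 := num_HA2 p B M X Y H A' hp0 hB0 hA1' hXY hMB h1 hH1
  have hL : (1 + Real.log p) ^ 2 * (HH U).card * p ≤ B * (X * Y : ℝ) := by
    have e : (p : ℝ) ≤ M * (X * Y) := by exact_mod_cast h1
    rw [← hDdef]
    calc (1 + Real.log p) ^ 2 * D * p ≤ (1 + Real.log p) ^ 2 * D * (M * (X * Y)) := by gcongr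
      _ = ((1 + Real.log p) ^ 2 * D * M) * (X * Y) := by ring
      _ ≤ _ := by gcongr
  have hAX : A ≤ X := (Nat.le_mul_of_pos_right A hB0).trans hA1
  have hAH : A' ≤ H := (Nat.le_mul_of_pos_right A' hB0).trans hA1'
  have h := box_gen hU v hv X Y A B H A' B hA0 hB0 hH0 hA0' hB0 hA1 (hY6 _ hA1') hHp
    (28 * √(X * Y) * X) (78 * √(X * Y) * H) (by positivity) (by positivity)
    (burgess_H hU B X A (X * Y) hXY0 hB6 (by omega) hL hA0 hAX hc1 _
      (fun h hh => by rw [mem_Icc] at hh; exact abs_le.2 hh)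
      (by rw [Int.card_Icc]; omega) 28 X (by norm_num) (by positivity)
      (num_c1 _ _ (by positivity) hA2R))
    (fun m hm => burgess_H hU B (2 * H) A' (X * Y) hXY0 hB6 (by omega) hL hA0' (by omega) hc2 _
      (fun h hh => by rw [mem_Ico] at hh; rw [abs_le]; omega)
      (by rw [Int.card_Ico]; omega) 78 H (by norm_num) (by positivity)
      (by push_cast; exact num_c2 _ _ (by positivity) hA2R'))
  have herr := num_err2 p X Y H (by positivity) (by positivity) hHR hH2R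
  linarith

/-- The box bound. -/
theorem box_le {U : Finset (ZMod p)} (hU : IsSub U) (v : ZMod p) (hv : v ≠ 0) (B M X Y : ℕ)
    (hB6 : B ^ 6 ≤ p) (hM : 12 ≤ M) (hD : (1 + Real.log p) ^ 2 * (HH U).card * M ≤ B)
    (h1 : p ≤ M * (X * Y)) (h2 : X * Y ≤ 2 * p) :
    (HH U).card * ∑ u ∈ U, (Pc (v * u) X Y : ℝ) ≤ 1300 * (X * Y) := by
  rcases le_total X Y with h | h
  · exact box_ordered hU v hv B M X Y hB6 hM hD h h1 h2
  · have e : ∑ u ∈ U, (Pc (v * u) X Y : ℝ) = ∑ u ∈ U, (Pc (v⁻¹ * u) Y X : ℝ) := by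
      refine sum_bij' (fun u _ => u⁻¹) (fun u _ => u⁻¹) hU.inv hU.inv (by simp) (by simp) ?_
      intro u hu
      rw [Pc_swap _ (mul_ne_zero hv (hU.ne hu)), mul_inv]
    rw [e, mul_comm (X : ℝ)]
    exact box_ordered hU v⁻¹ (inv_ne_zero hv) B M Y X hB6 hM hD h (by rwa [mul_comm Y])
      (by rwa [mul_comm Y])

end Pool.Agent.Lib.MP_3bfe94_nt
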