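import Pool.Agent.Lib.MP_3bfe94_nt.Four

/-!
The method of Burgess averaged over a family of characters that are trivial on a set `U`.
-/

set_option autoImplicit false

open Finset

namespace Pool.Agent.Lib.MP_3bfe94_nt

lemma harm_le (A : ℕ) : ∑ u ∈ Icc 1 A, (u : ℝ)⁻¹ ≤ 1 + Real.log A := by
  have := harmonic_le_one_add_log A
  rw [harmonic_eq_sum_Icc] at this
  simpa using this

lemma energy (H A : ℕ) (hA : A ≤ H) (I : Finset ℤ) (hI : ∀ h ∈ I, |h| ≤ H) :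
    ((((I ×ˢ Icc 1 A) ×ˢ (I ×ˢ Icc 1 A)).filter
      fun z : (ℤ × ℕ) × (ℤ × ℕ) => z.1.1 * z.2.2 = z.2.1 * z.1.2).card : ℝ) ≤
        3 * A * H * (1 + Real.log A) ^ 2 := by
  classical
  set P1 := (Icc 1 A).sigma fun u => Icc 1 (A / u) with hP1
  set P2 := (Icc 1 A).sigma fun v => Icc (-((H / v : ℕ) : ℤ)) ((H / v : ℕ) : ℤ) with hP2
  have hsub : (((I ×ˢ Icc 1 A) ×ˢ (I ×ˢ Icc 1 A)).filter
      fun z : (ℤ × ℕ) × (ℤ × ℕ) => z.1.1 * z.2.2 = z.2.1 * z.1.2) ⊆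
      (P1 ×ˢ P2).image fun w => ((w.1.1 * w.2.2, w.1.2 * w.1.1), (w.2.1 * w.2.2, w.1.2 * w.2.1)) := by
    rintro ⟨⟨h, a⟩, ⟨h', a'⟩⟩ hz
    simp only [mem_filter, mem_product, mem_Icc] at hz
    obtain ⟨⟨⟨-, ha1, ha2⟩, hh', ha1', ha2'⟩, he⟩ := hz
    obtain ⟨g, u, v, hg, huv, rfl, rfl⟩ := Nat.exists_coprime' (Nat.gcd_pos_of_pos_left a' ha1)
    have hu : 0 < u := Nat.pos_of_mul_pos_right ha1
    have hv : 0 < v := Nat.pos_of_mul_pos_right ha1'
    have e1 : h * v = h' * u := by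
      push_cast at he
      have : (g : ℤ) ≠ 0 := by exact_mod_cast hg.ne'
      apply mul_right_cancel₀ this
      linear_combination he
    have e2 : (u : ℤ) ∣ h := by
      have : IsCoprime (u : ℤ) (v : ℤ) := Nat.isCoprime_iff_coprime.2 huv
      exact this.dvd_of_dvd_mul_right ⟨h', by rw [e1, mul_comm]⟩
    obtain ⟨t, rfl⟩ := e2
    have e3 : h' = v * t := by
      have : (u : ℤ) ≠ 0 := by exact_mod_cast hu.ne'
      apply mul_right_cancel₀ this
      linear_combination -e1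
    subst e3
    have e4 : t.natAbs ≤ H / v := by
      rw [Nat.le_div_iff_mul_le hv]
      have := hI _ hh'
      rw [abs_mul, Nat.abs_cast, ← Int.natCast_natAbs] at this
      rw [mul_comm]
      exact_mod_cast this
    refine mem_image.2 ⟨(⟨u, g⟩, ⟨v, t⟩), ?_, ?_⟩
    · simp only [hP1, hP2, mem_product, mem_sigma, mem_Icc]
      refine ⟨⟨⟨hu, ?_⟩, hg, ?_⟩, ⟨hv, ?_⟩, ?_, ?_⟩
      · exact (Nat.le_mul_of_pos_right u hg).trans ha2
      · rw [Nat.le_div_iff_mul_le hu, mul_comm]; exact ha2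
      · exact (Nat.le_mul_of_pos_right v hg).trans ha2'
      · omega
      · omega
    · simp [mul_comm]
  have h1 : (P1.card : ℝ) ≤ A * (1 + Real.log A) := by
    rw [hP1, card_sigma, Nat.cast_sum]
    refine le_trans ?_ (mul_le_mul_of_nonneg_left (harm_le A) (Nat.cast_nonneg _))
    rw [mul_sum]
    refine sum_le_sum fun u _ => ?_
    rw [Nat.card_Icc, Nat.add_sub_cancel, ← div_eq_mul_inv]
    exact Nat.cast_div_le
  have h2 : (P2.card : ℝ) ≤ 3 * H * (1 + Real.log A) := by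
    rw [hP2, card_sigma, Nat.cast_sum]
    refine le_trans ?_ (mul_le_mul_of_nonneg_left (harm_le A) (by positivity))
    rw [mul_sum]
    refine sum_le_sum fun v hv => ?_
    rw [mem_Icc] at hv
    have e1 : 1 ≤ H / v := by rw [Nat.le_div_iff_mul_le hv.1]; omega
    have e2 : (Icc (-((H / v : ℕ) : ℤ)) ((H / v : ℕ) : ℤ)).card ≤ 3 * (H / v) := by
      rw [Int.card_Icc]; omega
    have e3 : ((H / v : ℕ) : ℝ) ≤ H / v := Nat.cast_div_le
    calc _ ≤ ((3 * (H / v) : ℕ) : ℝ) := by exact_mod_cast e2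
      _ ≤ 3 * (H / v : ℝ) := by push_cast; gcongr
      _ = _ := by ring
  have h3 := (card_le_card hsub).trans (card_image_le.trans (card_product P1 P2).le)
  calc _ ≤ (P1.card : ℝ) * P2.card := by exact_mod_cast h3
    _ ≤ (A * (1 + Real.log A)) * (3 * H * (1 + Real.log A)) := by gcongr
    _ = _ := by ring

variable {p : ℕ} [Fact p.Prime]

/-- The smoothed character sum. -/
noncomputable def Ssum (I : Finset ℤ) (A B : ℕ) (χ : MulChar (ZMod p) ℂ) : ℂ :=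
  ∑ h ∈ I, ∑ a ∈ Icc 1 A, ∑ b ∈ Icc 1 B, χ ((h : ZMod p) + (a : ZMod p) * (b : ZMod p))

lemma Ssum_inv (I : Finset ℤ) (A B : ℕ) (χ : MulChar (ZMod p) ℂ) :
    Ssum I A B χ⁻¹ = star (Ssum I A B χ) := by
  simp only [Ssum, star_sum, MulChar.star_apply']

lemma natCast_ne_zero_of_lt {a : ℕ} (h0 : 0 < a) (h : a < p) : (a : ZMod p) ≠ 0 := by
  rw [Ne, ZMod.natCast_eq_zero_iff]
  exact Nat.not_dvd_of_pos_of_lt h0 h

theorem burgess_raw (U : Finset (ZMod p))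
    (T : Finset (MulChar (ZMod p) ℂ)) (hT : ∀ χ ∈ T, χ ≠ 1) (hTU : ∀ χ ∈ T, ∀ u ∈ U, χ u = 1)
    (hTi : ∀ χ ∈ T, χ⁻¹ ∈ T) (H A B : ℕ) (hA : A ≤ H) (hHA : 2 * H * A < p) (hB : B < p)
    (I : Finset ℤ) (hI : ∀ h ∈ I, |h| ≤ H) :
    U.card * (∑ χ ∈ T, ‖Ssum I A B χ‖ ^ 2) ^ 2 ≤
      ((I.card : ℝ) * A) ^ 2 * (3 * A * H * (1 + Real.log A) ^ 2) *
        (3 * (B : ℝ) ^ 2 * (p : ℝ) ^ 2 + B * (p : ℝ) ^ 2 * T.card +
          3 * (B : ℝ) ^ 4 * √p * p * T.card) := by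
  classical
  set W := ∑ χ ∈ T, ‖Ssum I A B χ‖ ^ 2 with hW
  set F : ZMod p → ℂ := fun x => ∑ χ ∈ T, star (Ssum I A B χ) * χ x with hF
  have hreal : ∀ x, (((F x).re : ℝ) : ℂ) = F x := by
    intro x
    rw [← Complex.conj_eq_iff_re, ← Complex.star_def]
    simp only [hF, star_sum]
    refine sum_bij' (fun χ _ => χ⁻¹) (fun χ _ => χ⁻¹) hTi hTi (by simp) (by simp) ?_
    intro χ _
    rw [star_mul', MulChar.star_apply', Ssum_inv]
  set f : ZMod p → ℝ := fun x => (F x).re with hf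
  have hAp : ∀ a ∈ Icc 1 A, (a : ZMod p) ≠ 0 := by
    intro a ha
    rw [mem_Icc] at ha
    refine natCast_ne_zero_of_lt ha.1 ?_
    nlinarith [ha.1, ha.2]
  have hinjB : Set.InjOn (fun b : ℕ => (b : ZMod p)) (Icc 1 B : Finset ℕ) := by
    intro a ha b hb h
    rw [mem_coe, mem_Icc] at ha hb
    have := (ZMod.natCast_eq_natCast_iff' a b p).1 h
    rwa [Nat.mod_eq_of_lt (by omega), Nat.mod_eq_of_lt (by omega)] at this
  set Bs := (Icc 1 B).image fun b : ℕ => (b : ZMod p) with hBs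
  have hBc : Bs.card = B := by rw [hBs, card_image_of_injOn hinjB]; simp
  set G : ZMod p → ZMod p → ℝ := fun s x => ∑ b ∈ Bs, f (x * (s + b)) with hG
  set γ : ZMod p → ℝ := fun s => ∑ x, G s x ^ 4 with hγ
  have h4 := fourth_moment T (fun χ => star (Ssum I A B χ)) f hreal hT Bs
  simp only [norm_star, ZMod.card, hBc] at h4
  rw [← hW] at h4
  change ∑ s, γ s ≤ _ at h4
  set J := I ×ˢ Icc 1 A with hJ
  set σ : ℤ × ℕ → ZMod p := fun z => (z.1 : ZMod p) / (z.2 : ZMod p) with hσ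
  have hWG : W = ∑ z ∈ J, G (σ z) z.2 := by
    apply Complex.ofReal_injective
    have e1 : (W : ℂ) = ∑ χ ∈ T, star (Ssum I A B χ) * Ssum I A B χ := by
      rw [hW]
      push_cast
      refine sum_congr rfl fun χ _ => ?_
      rw [Complex.star_def, Complex.conj_mul']
    rw [e1]
    push_cast
    rw [hJ, sum_product]
    conv_lhs => simp only [Ssum.eq_1 I A B, mul_sum]
    rw [sum_comm]
    refine sum_congr rfl fun h _ => ?_
    rw [sum_comm]
    refine sum_congr rfl fun a ha => ?_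
    rw [sum_comm]
    simp only [hG, hBs]
    rw [sum_image hinjB]
    push_cast
    refine sum_congr rfl fun b _ => ?_
    rw [hreal]
    have : (a : ZMod p) * (σ (h, a) + b) = h + a * b := by
      have := hAp a ha
      simp only [hσ]
      field_simp
    rw [this]
    rfl
  have hfU : ∀ u ∈ U, ∀ x, f (u * x) = f x := by
    intro u hu x
    simp only [hf, hF]
    congr 1
    refine sum_congr rfl fun χ hχ => ?_
    rw [map_mul, hTU χ hχ u hu, one_mul]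
  have hGU : ∀ s a, a ≠ 0 → U.card * G s a ^ 4 ≤ γ s := by
    intro s a ha
    have e1 : ∀ u ∈ U, G s (u * a) ^ 4 = G s a ^ 4 := by
      intro u hu
      simp only [hG, mul_assoc, hfU u hu]
    rw [← nsmul_eq_mul, ← sum_const, ← sum_congr rfl e1,
      ← sum_image (s := U) (g := fun u => u * a) (f := fun x => G s x ^ 4)
        (fun u _ v _ h => mul_right_cancel₀ ha h)]
    exact sum_le_univ_sum_of_nonneg fun x => by positivity
  have hγ0 : ∀ s, 0 ≤ γ s := fun s => sum_nonneg fun x _ => by positivity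
  set ν : ZMod p → ℕ := fun s => (J.filter fun z => σ z = s).card with hν
  have hE : ∑ s, (ν s : ℝ) ^ 2 ≤ 3 * A * H * (1 + Real.log A) ^ 2 := by
    refine le_trans ?_ (energy H A hA I hI)
    have e1 : ∑ s, ν s ^ 2 = ((J ×ˢ J).filter fun z => σ z.1 = σ z.2).card := by
      rw [card_eq_sum_card_fiberwise (f := fun z => σ z.2) (t := univ) (fun _ _ => mem_univ _)]
      refine sum_congr rfl fun s _ => ?_
      rw [sq, ← card_product]
      congr 1
      ext z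
      simp only [mem_product, mem_filter]
      constructor
      · rintro ⟨⟨h1, h2⟩, h3, h4⟩
        exact ⟨⟨⟨h1, h3⟩, h2.trans h4.symm⟩, h4⟩
      · rintro ⟨⟨⟨h1, h3⟩, h2⟩, h4⟩
        exact ⟨⟨h1, h2.trans h4⟩, h3, h4⟩
    have e2 : ((J ×ˢ J).filter fun z => σ z.1 = σ z.2) ⊆ (J ×ˢ J).filter
        fun z : (ℤ × ℕ) × (ℤ × ℕ) => z.1.1 * z.2.2 = z.2.1 * z.1.2 := by
      rintro ⟨⟨h, a⟩, ⟨h', a'⟩⟩ hz
      rw [mem_filter] at hz ⊢
      refine ⟨hz.1, ?_⟩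
      obtain ⟨h1, h2⟩ := hz
      simp only [hJ, mem_product] at h1
      obtain ⟨⟨hh, ha⟩, hh', ha'⟩ := h1
      simp only [hσ] at h2
      rw [div_eq_div_iff (hAp a ha) (hAp a' ha')] at h2
      have h3 : (p : ℤ) ∣ h * a' - h' * a := by
        rw [← ZMod.intCast_zmod_eq_zero_iff_dvd]
        push_cast
        rw [h2, sub_self]
      rw [mem_Icc] at ha ha'
      have h5 : |h * a' - h' * a| < p := by
        have b1 : |h * a'| ≤ H * A := by
          rw [abs_mul, Nat.abs_cast]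
          exact mul_le_mul (hI h hh) (by exact_mod_cast ha'.2) (by positivity) (by positivity)
        have b2 : |h' * a| ≤ H * A := by
          rw [abs_mul, Nat.abs_cast]
          exact mul_le_mul (hI h' hh') (by exact_mod_cast ha.2) (by positivity) (by positivity)
        have b3 : (2 * H * A : ℤ) < p := by exact_mod_cast hHA
        have := abs_sub (h * a') (h' * a)
        linarith
      exact sub_eq_zero.1 (Int.eq_zero_of_abs_lt_dvd h3 h5)
    have := e1.le.trans (card_le_card e2)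
    exact_mod_cast this
  have s1 : W ^ 2 ≤ J.card * ∑ z ∈ J, G (σ z) z.2 ^ 2 := by
    rw [hWG]; exact sq_sum_le_card_mul_sum_sq
  have s2 : √U.card * ∑ z ∈ J, G (σ z) z.2 ^ 2 ≤ ∑ s, ν s * √(γ s) := by
    rw [mul_sum, ← sum_fiberwise (s := J) (g := σ)]
    refine sum_le_sum fun s _ => ?_
    rw [← nsmul_eq_mul, ← sum_const]
    refine sum_le_sum fun z hz => ?_
    rw [mem_filter] at hz
    apply Real.le_sqrt_of_sq_le
    rw [mul_pow, Real.sq_sqrt (Nat.cast_nonneg _), ← pow_mul, ← hz.2]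
    exact hGU _ _ (hAp _ (mem_product.1 hz.1).2)
  have s3 : (∑ s, ν s * √(γ s)) ^ 2 ≤ (∑ s, (ν s : ℝ) ^ 2) * ∑ s, γ s := by
    refine (sum_mul_sq_le_sq_mul_sq _ _ _).trans (le_of_eq ?_)
    simp only [Real.sq_sqrt (hγ0 _)]
  have hJc : (J.card : ℝ) = I.card * A := by
    rw [hJ, card_product]; simp
  set Kc : ℝ := 3 * (B : ℝ) ^ 2 * (p : ℝ) ^ 2 + B * (p : ℝ) ^ 2 * T.card +
          3 * (B : ℝ) ^ 4 * √p * p * T.card with hKc
  set E : ℝ := 3 * A * H * (1 + Real.log A) ^ 2 with hEd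
  set Y := ∑ z ∈ J, G (σ z) z.2 ^ 2 with hY
  have hY0 : 0 ≤ Y := by positivity
  have s4 : U.card * Y ^ 2 ≤ E * (Kc * W ^ 2) := by
    calc U.card * Y ^ 2 = (√U.card * Y) ^ 2 := by
          rw [mul_pow, Real.sq_sqrt (Nat.cast_nonneg _)]
      _ ≤ (∑ s, ν s * √(γ s)) ^ 2 := by gcongr
      _ ≤ _ := s3
      _ ≤ _ := mul_le_mul hE h4 (sum_nonneg fun s _ => hγ0 s) (by positivity)
  have s5 : (U.card * W ^ 2) * W ^ 2 ≤ (J.card ^ 2 * E * Kc) * W ^ 2 := by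
    calc (U.card * W ^ 2) * W ^ 2 = U.card * (W ^ 2) ^ 2 := by ring
      _ ≤ U.card * (J.card * Y) ^ 2 := by gcongr
      _ = J.card ^ 2 * (U.card * Y ^ 2) := by ring
      _ ≤ J.card ^ 2 * (E * (Kc * W ^ 2)) := by gcongr
      _ = _ := by ring
  rw [← hJc]
  rcases eq_or_ne W 0 with h0 | h0
  · rw [h0]
    simp only [ne_eq, OfNat.ofNat_ne_zero, not_false_eq_true, zero_pow, mul_zero]
    positivity
  · exact le_of_mul_le_mul_right s5 (by positivity)

/-- The averaged Burgess bound. -/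
theorem burgess (U : Finset (ZMod p))
    (T : Finset (MulChar (ZMod p) ℂ)) (hT : ∀ χ ∈ T, χ ≠ 1) (hTU : ∀ χ ∈ T, ∀ u ∈ U, χ u = 1)
    (hTi : ∀ χ ∈ T, χ⁻¹ ∈ T) (D H A B : ℕ) (hD : D * U.card + 1 = p) (hTD : T.card ≤ D)
    (hDB : D ≤ B) (hB : B ^ 6 ≤ p) (hA : A ≤ H) (hHA : 2 * H * A < p)
    (I : Finset ℤ) (hI : ∀ h ∈ I, |h| ≤ H) (hIc : I.card ≤ 3 * H) :
    (∑ χ ∈ T, ‖Ssum I A B χ‖ ^ 2) ^ 2 ≤
      378 * (H : ℝ) ^ 3 * (A : ℝ) ^ 3 * (1 + Real.log A) ^ 2 * D * (B : ℝ) ^ 2 * p := by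
  have hp2 : 2 ≤ p := (Fact.out : p.Prime).two_le
  have hBp : B < p := by
    rcases Nat.lt_or_ge B 2 with h | h
    · omega
    · exact lt_of_lt_of_le (by simpa using Nat.pow_lt_pow_right h (show 1 < 6 by norm_num)) hB
  have h1 := burgess_raw U T hT hTU hTi H A B hA hHA hBp I hI
  set W := ∑ χ ∈ T, ‖Ssum I A B χ‖ ^ 2 with hW
  have hp0 : (0 : ℝ) < p := by positivity
  have hp' : (p : ℝ) ≤ 2 * (D * U.card) := by
    have : p ≤ 2 * (D * U.card) := by omega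
    exact_mod_cast this
  have hTB : (T.card : ℝ) ≤ B := by exact_mod_cast hTD.trans hDB
  have hB3 : (B : ℝ) ^ 3 ≤ √p := by
    apply Real.le_sqrt_of_sq_le
    rw [← pow_mul]
    exact_mod_cast hB
  have hsq : √(p : ℝ) * √p = p := Real.mul_self_sqrt hp0.le
  have hIc' : (I.card : ℝ) ≤ 3 * H := by exact_mod_cast hIc
  have hK : 3 * (B : ℝ) ^ 2 * (p : ℝ) ^ 2 + B * (p : ℝ) ^ 2 * T.card +
      3 * (B : ℝ) ^ 4 * √p * p * T.card ≤ 7 * (B : ℝ) ^ 2 * (p : ℝ) ^ 2 := by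
    have e1 : B * (p : ℝ) ^ 2 * T.card ≤ B * (p : ℝ) ^ 2 * B := by gcongr
    have e2 : 3 * (B : ℝ) ^ 4 * √p * p * T.card ≤ 3 * (B : ℝ) ^ 2 * (p : ℝ) ^ 2 := by
      calc _ ≤ 3 * (B : ℝ) ^ 4 * √p * p * B := by gcongr
        _ = 3 * (B : ℝ) ^ 2 * √p * p * (B : ℝ) ^ 3 := by ring
        _ ≤ 3 * (B : ℝ) ^ 2 * √p * p * √p := by gcongr
        _ = 3 * (B : ℝ) ^ 2 * p * (√p * √p) := by ring
        _ = _ := by rw [hsq]; ring
    nlinarith
  refine le_of_mul_le_mul_left ?_ hp0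
  calc p * W ^ 2 ≤ 2 * (D * U.card) * W ^ 2 := by gcongr
    _ = 2 * D * (U.card * W ^ 2) := by ring
    _ ≤ 2 * D * ((3 * H * A) ^ 2 * (3 * A * H * (1 + Real.log A) ^ 2) *
          (7 * (B : ℝ) ^ 2 * (p : ℝ) ^ 2)) := by
        refine mul_le_mul_of_nonneg_left (h1.trans ?_) (by positivity)
        gcongr
    _ = _ := by ring

end Pool.Agent.Lib.MP_3bfe94_nt
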