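import Pool.Agent.Lib.MP_3bfe94_nt.Box2

/-!
From the box bound to continued fractions with a small sum of quotients.
-/

set_option autoImplicit false

open Finset

namespace Pool.Agent.Lib.MP_3bfe94_nt

/-- The quotients of the Euclidean algorithm. -/
def qs (r r' : ℕ) : List ℕ := if h : r = 0 then [] else r' / r :: qs (r' % r) r
termination_by r
decreasing_by exact Nat.mod_lt _ (Nat.pos_of_ne_zero h)

lemma qs_zero (r' : ℕ) : qs 0 r' = [] := by rw [qs]; simp

lemma qs_pos {r : ℕ} (h : 0 < r) (r' : ℕ) : qs r r' = r' / r :: qs (r' % r) r := by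
  rw [qs, dif_neg h.ne']

/-- The value of a finite continued fraction with integer part zero. -/
def cfv : List ℕ → ℚ
  | [] => 0
  | b :: bs => 1 / (b + cfv bs)

lemma qs_mem_pos : ∀ r r', r ≤ r' → ∀ b ∈ qs r r', 0 < b := by
  intro r
  induction r using Nat.strong_induction_on with
  | _ r ih =>
    intro r' h b hb
    rcases Nat.eq_zero_or_pos r with rfl | hr
    · simp [qs_zero] at hb
    · rw [qs_pos hr, List.mem_cons] at hb
      rcases hb with rfl | hb
      · exact Nat.div_pos h hr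
      · exact ih _ (Nat.mod_lt _ hr) r (Nat.mod_lt _ hr).le b hb

lemma cfv_qs : ∀ r r' : ℕ, cfv (qs r r') = (r : ℚ) / r' := by
  intro r
  induction r using Nat.strong_induction_on with
  | _ r ih =>
    intro r'
    rcases Nat.eq_zero_or_pos r with rfl | hr
    · simp [qs_zero, cfv]
    · rw [qs_pos hr, cfv, ih _ (Nat.mod_lt _ hr)]
      have h1 : (r : ℚ) ≠ 0 := by exact_mod_cast hr.ne'
      have h2 : ((r' / r : ℕ) : ℚ) + ((r' % r : ℕ) : ℚ) / r = r' / r := by
        rw [eq_div_iff h1, add_mul, div_mul_cancel₀ _ h1]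
        exact_mod_cast Nat.div_add_mod' r' r
      rw [h2, one_div_div]

lemma cfv_mem (bs : List ℕ) (h : ∀ b ∈ bs, 0 < b) : 0 ≤ cfv bs ∧ cfv bs ≤ 1 := by
  induction bs with
  | nil => simp [cfv]
  | cons b bs ih =>
    have h1 := (ih fun c hc => h c (List.mem_cons_of_mem _ hc)).1
    have h2 : (1 : ℚ) ≤ b := by exact_mod_cast h b List.mem_cons_self
    rw [cfv]
    exact ⟨by positivity, (div_le_one (by positivity)).2 (by linarith)⟩

lemma sum_unique (bs : List ℕ) (h : ∀ b ∈ bs, 0 < b) :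
    ∀ a p : ℕ, 0 < p → cfv bs = (a : ℚ) / p → bs.sum = (qs a p).sum := by
  induction bs with
  | nil =>
    intro a p hp he
    have hp' : (p : ℚ) ≠ 0 := by exact_mod_cast hp.ne'
    rw [cfv, eq_comm, div_eq_zero_iff, or_iff_left hp', Nat.cast_eq_zero] at he
    rw [he, qs_zero]
  | cons b bs ih =>
    intro a p hp he
    have hbs : ∀ c ∈ bs, 0 < c := fun c hc => h c (List.mem_cons_of_mem _ hc)
    obtain ⟨h0, h1⟩ := cfv_mem bs hbs
    have h2 : (1 : ℚ) ≤ b := by exact_mod_cast h b List.mem_cons_self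
    have hp' : (0 : ℚ) < p := by exact_mod_cast hp
    rw [cfv, div_eq_div_iff (by positivity) hp'.ne', one_mul] at he
    have ha : 0 < a := by
      rcases Nat.eq_zero_or_pos a with rfl | ha
      · simp at he; omega
      · exact ha
    have ha' : (0 : ℚ) < a := by exact_mod_cast ha
    have e1 : a * b ≤ p := by
      have : (a * b : ℚ) ≤ p := by rw [he]; nlinarith
      exact_mod_cast this
    obtain ⟨s, rfl⟩ := Nat.exists_eq_add_of_le e1
    have e2 : cfv bs = (s : ℚ) / a := by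
      rw [eq_div_iff ha'.ne']
      push_cast at he
      linarith
    have e3 : s ≤ a := by
      rw [e2, div_le_one ha'] at h1
      exact_mod_cast h1
    rw [List.sum_cons, ih hbs s a ha e2, qs_pos ha, List.sum_cons, Nat.mul_add_div ha,
      Nat.mul_add_mod]
    rcases e3.lt_or_eq with hlt | rfl
    · rw [Nat.div_eq_of_lt hlt, Nat.mod_eq_of_lt hlt, add_zero]
    · rw [qs_pos ha, List.sum_cons, add_assoc]

lemma le_dyadic (b : ℕ) : ∀ K, b < 2 ^ K → b ≤ ∑ k ∈ range K, if 2 ^ k ≤ b then 2 ^ k else 0 := by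
  intro K
  induction K with
  | zero => intro h; simp at h; simp [h]
  | succ K ih =>
    intro h
    rcases Nat.lt_or_ge b (2 ^ K) with h1 | h1
    · rw [sum_range_succ]
      exact (ih h1).trans (Nat.le_add_right _ _)
    · rw [sum_congr rfl (g := fun k => 2 ^ k)]
      · have := Nat.geomSum_eq (le_refl 2) (K + 1)
        omega
      · intro k hk
        exact if_pos ((Nat.pow_le_pow_right two_pos (Nat.lt_succ_iff.1 (mem_range.1 hk))).trans h1)

lemma sum_le_dyadic (K : ℕ) (bs : List ℕ) (h : bs.countP (fun b => 2 ^ K ≤ b) = 0) :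
    bs.sum ≤ ∑ k ∈ range K, 2 ^ k * bs.countP (fun b => 2 ^ k ≤ b) := by
  induction bs with
  | nil => simp
  | cons b bs ih =>
    rw [List.countP_cons, Nat.add_eq_zero_iff] at h
    have h1 : b < 2 ^ K := by simpa using h.2
    simp only [List.sum_cons, List.countP_cons, mul_add, sum_add_distrib]
    rw [add_comm]
    refine Nat.add_le_add (ih h.1) ((le_dyadic b K h1).trans (le_of_eq ?_))
    refine sum_congr rfl fun k _ => ?_
    simp

variable {p : ℕ} [Fact p.Prime]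

/-- Small solutions of `a x ≡ ± y`. -/
def Gd (a : ZMod p) (t y : ℕ) : Prop :=
  ∃ x : ℕ, 1 ≤ x ∧ t * (x * y) ≤ p ∧ (a * x = y ∨ a * x = -(y : ZMod p))

open Classical in
lemma cf_count (a : ZMod p) (t : ℕ) : ∀ (r r' q q' : ℕ) (ε : ZMod p), (ε = 1 ∨ ε = -1) → r ≤ r' →
    1 ≤ q → q * r' + q' * r = p → a * q = ε * r → a * q' = -ε * r' →
    (qs r r').countP (fun b => t ≤ b) ≤ ((Icc 1 r).filter (Gd a t)).card := by
  intro r
  induction r using Nat.strong_induction_on with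
  | _ r ih =>
    intro r' q q' ε hε hr hq hp h1 h2
    rcases Nat.eq_zero_or_pos r with rfl | hr0
    · simp [qs_zero]
    have hlt := Nat.mod_lt r' hr0
    have hdm := Nat.div_add_mod' r' r
    have hb : 0 < r' / r := Nat.div_pos hr hr0
    have h3 := ih (r' % r) hlt r (r' / r * q + q') q (-ε)
      (by rcases hε with rfl | rfl <;> simp) hlt.le
      (le_trans (Nat.mul_pos hb hq) (Nat.le_add_right _ _))
      (by rw [← hp]; nth_rewrite 3 [← hdm]; ring)
      (by
        have : (r' : ZMod p) = (r' / r : ℕ) * r + (r' % r : ℕ) := by exact_mod_cast congrArg _ hdm.symm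
        push_cast
        rw [this] at h2
        linear_combination ((r' / r : ℕ) : ZMod p) * h1 + h2)
      (by rw [neg_neg]; exact h1)
    have hsub : (Icc 1 (r' % r)).filter (Gd a t) ⊆ ((Icc 1 r).filter (Gd a t)).erase r := by
      intro y hy
      rw [mem_filter, mem_Icc] at hy
      rw [mem_erase, mem_filter, mem_Icc]
      exact ⟨by omega, ⟨hy.1.1, by omega⟩, hy.2⟩
    rw [qs_pos hr0, List.countP_cons]
    split_ifs with ht
    · have hmem : r ∈ (Icc 1 r).filter (Gd a t) := by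
        rw [mem_filter, mem_Icc]
        refine ⟨⟨hr0, le_rfl⟩, q, hq, ?_, ?_⟩
        · have ht' : t ≤ r' / r := by simpa using ht
          calc t * (q * r) ≤ r' / r * (q * r) := by gcongr
            _ = q * (r' / r * r) := by ring
            _ ≤ q * r' := by gcongr; omega
            _ ≤ p := by omega
        · rcases hε with rfl | rfl
          · left; rw [h1, one_mul]
          · right; rw [h1, neg_one_mul]
      have := card_le_card hsub
      rw [card_erase_of_mem hmem] at this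
      have := card_pos.2 ⟨r, hmem⟩
      omega
    · exact h3.trans (card_le_card (hsub.trans (erase_subset _ _)))

/-- Dyadic majorant for the number of quotients of size at least `2 ^ k`. -/
def Zc (a : ZMod p) (k : ℕ) : ℕ := ∑ j ∈ range (Nat.log 2 p + 1),
  (Pc a (2 ^ (j + 1)) (p / 2 ^ (k + j)) + Pc (-a) (2 ^ (j + 1)) (p / 2 ^ (k + j)))

lemma count_le_Zc (a : ZMod p) (ha : a ≠ 0) (k : ℕ) :
    (qs a.val p).countP (fun b => 2 ^ k ≤ b) ≤ Zc a k := by
  classical
  have hlt := ZMod.val_lt a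
  refine (cf_count a (2 ^ k) a.val p 1 0 1 (Or.inl rfl) hlt.le le_rfl (by simp) (by simp)
    (by simp)).trans ?_
  set E : ZMod p → ℕ → Finset (ZMod p) := fun c j =>
    (iv p (p / 2 ^ (k + j))).filter fun z => z ≠ 0 ∧ c⁻¹ * z ∈ iv p (2 ^ (j + 1)) with hE
  have hc : ∀ c, c ≠ 0 → ∀ j, (E c j).card = Pc c (2 ^ (j + 1)) (p / 2 ^ (k + j)) :=
    fun c hc j => (Pc_swap c hc _ _).symm
  refine le_trans (card_le_card_of_injOn (t := (range (Nat.log 2 p + 1)).biUnion
    fun j => E a j ∪ E (-a) j) (fun y : ℕ => (y : ZMod p)) ?_ ?_) ?_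
  · intro y hy
    rw [mem_coe, mem_filter, mem_Icc] at hy
    obtain ⟨⟨hy1, hy2⟩, x, hx1, hx2, hx3⟩ := hy
    have hy0 : (y : ZMod p) ≠ 0 := natCast_ne_zero_of_lt hy1 (by omega)
    have hxp : x ≤ p :=
      ((Nat.le_mul_of_pos_right x hy1).trans (Nat.le_mul_of_pos_left _ (by positivity))).trans hx2
    have m1 : (y : ZMod p) ∈ iv p (p / 2 ^ (k + Nat.log 2 x)) := by
      refine mem_image_of_mem _ (mem_Icc.2 ⟨hy1, ?_⟩)
      rw [Nat.le_div_iff_mul_le (by positivity)]
      refine le_trans ?_ hx2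
      have := Nat.pow_log_le_self 2 (show x ≠ 0 by omega)
      calc y * 2 ^ (k + Nat.log 2 x) = 2 ^ k * (2 ^ Nat.log 2 x * y) := by ring
        _ ≤ _ := by gcongr
    have m2 : (x : ZMod p) ∈ iv p (2 ^ (Nat.log 2 x + 1)) :=
      mem_image_of_mem _ (mem_Icc.2 ⟨hx1, (Nat.lt_pow_succ_log_self one_lt_two x).le⟩)
    rw [mem_coe, mem_biUnion]
    refine ⟨Nat.log 2 x, mem_range.2 (Nat.lt_succ_of_le (Nat.log_mono_right hxp)), ?_⟩
    rw [mem_union]
    beta_reduce
    rcases hx3 with h | h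
    · left
      exact mem_filter.2 ⟨m1, hy0, by rw [← h, inv_mul_cancel_left₀ ha]; exact m2⟩
    · right
      refine mem_filter.2 ⟨m1, hy0, ?_⟩
      have : (y : ZMod p) = -a * x := by rw [neg_mul, h, neg_neg]
      rw [this, inv_mul_cancel_left₀ (neg_ne_zero.2 ha)]
      exact m2
  · intro y hy y' hy' h
    rw [mem_coe, mem_filter, mem_Icc] at hy hy'
    have := (ZMod.natCast_eq_natCast_iff' y y' p).1 h
    rwa [Nat.mod_eq_of_lt (by omega), Nat.mod_eq_of_lt (by omega)] at this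
  · refine card_biUnion_le.trans (sum_le_sum fun j _ => (card_union_le _ _).trans (le_of_eq ?_))
    rw [hc a ha, hc (-a) (neg_ne_zero.2 ha)]

lemma avg_Pc {U : Finset (ZMod p)} (hU : IsSub U) (v : ZMod p) (hv : v ≠ 0) (B K : ℕ)
    (hB6 : B ^ 6 ≤ p) (hM : 12 ≤ 2 ^ K)
    (hD : (1 + Real.log p) ^ 2 * (HH U).card * (2 ^ K : ℕ) ≤ B) (k j : ℕ) (hk : k ≤ K) :
    (HH U).card * ∑ u ∈ U, 2 ^ k * Pc (v * u) (2 ^ (j + 1)) (p / 2 ^ (k + j)) ≤ 2600 * p := by
  rcases Nat.lt_or_ge p (2 ^ (k + j)) with hlt | hge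
  · rw [Nat.div_eq_of_lt hlt]
    simp [Pc, iv]
  obtain ⟨-, h1, h2⟩ := div_approx p (2 ^ (k + j)) (by positivity) hge
  generalize p / 2 ^ (k + j) = Y at h1 h2
  have e : 2 ^ k * (2 ^ (j + 1) * Y) = 2 * (Y * 2 ^ (k + j)) := by ring
  have h3 : 2 ^ (j + 1) * Y ≤ 2 ^ k * (2 ^ (j + 1) * Y) := Nat.le_mul_of_pos_left _ (by positivity)
  have h4 : 2 ^ k * (2 ^ (j + 1) * Y) ≤ 2 ^ K * (2 ^ (j + 1) * Y) := by gcongr; norm_num
  have h := box_le hU v hv B (2 ^ K) (2 ^ (j + 1)) Y hB6 hM hD (by omega) (by omega)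
  have h5 : (HH U).card * ∑ u ∈ U, Pc (v * u) (2 ^ (j + 1)) Y ≤ 1300 * (2 ^ (j + 1) * Y) := by
    exact_mod_cast h
  rw [← mul_sum]
  calc _ = 2 ^ k * ((HH U).card * ∑ u ∈ U, Pc (v * u) (2 ^ (j + 1)) Y) := by ring
    _ ≤ 2 ^ k * (1300 * (2 ^ (j + 1) * Y)) := by gcongr
    _ = 1300 * (2 ^ k * (2 ^ (j + 1) * Y)) := by ring
    _ ≤ _ := by omega

theorem exists_small {U : Finset (ZMod p)} (hU : IsSub U) (v : ZMod p) (hv : v ≠ 0) (B K : ℕ)
    (hB6 : B ^ 6 ≤ p) (hD : (1 + Real.log p) ^ 2 * (HH U).card * (2 ^ K : ℕ) ≤ B)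
    (hK : 10400 * ((K + 1) * (Nat.log 2 p + 1)) < 2 ^ K) :
    ∃ u ∈ U, (qs (v * u).val p).sum ≤ 10400 * ((K + 1) * (Nat.log 2 p + 1)) := by
  have hM : 12 ≤ 2 ^ K := by
    have : 0 < (K + 1) * (Nat.log 2 p + 1) := by positivity
    omega
  set Φ : ZMod p → ℕ := fun u => ∑ k ∈ range (K + 1), 2 ^ k * Zc (v * u) k with hΦ
  have h1 : (HH U).card * ∑ u ∈ U, Φ u ≤ (K + 1) * ((Nat.log 2 p + 1) * (5200 * p)) := by
    simp only [hΦ, Zc]
    rw [sum_comm, mul_sum]
    refine (sum_le_sum (g := fun _ => (Nat.log 2 p + 1) * (5200 * p)) fun k hk => ?_).trans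
      (by simp)
    have hk' : k ≤ K := Nat.lt_succ_iff.1 (mem_range.1 hk)
    simp only [mul_sum _ _ (2 ^ k)]
    rw [sum_comm, mul_sum]
    refine (sum_le_sum (g := fun _ => 5200 * p) fun j _ => ?_).trans (by simp)
    have e1 := avg_Pc hU v hv B K hB6 hM hD k j hk'
    have e2 := avg_Pc hU (-v) (neg_ne_zero.2 hv) B K hB6 hM hD k j hk'
    simp only [mul_add, sum_add_distrib, neg_mul] at e2 ⊢
    omega
  obtain ⟨u, hu, hmin⟩ := exists_min_image U Φ ⟨1, hU.one⟩
  have h2 : U.card * Φ u ≤ ∑ u ∈ U, Φ u := by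
    rw [← smul_eq_mul]; exact card_nsmul_le_sum U Φ _ hmin
  have hDU := card_HH hU
  have hp2 := (Fact.out : p.Prime).two_le
  have h3 : Φ u ≤ 10400 * ((K + 1) * (Nat.log 2 p + 1)) := by
    refine le_of_mul_le_mul_left (a := p) ?_ (by omega)
    calc p * Φ u ≤ (2 * ((HH U).card * U.card)) * Φ u := by gcongr; omega
      _ = 2 * ((HH U).card * (U.card * Φ u)) := by ring
      _ ≤ 2 * ((HH U).card * ∑ u ∈ U, Φ u) := by gcongr
      _ ≤ 2 * ((K + 1) * ((Nat.log 2 p + 1) * (5200 * p))) := by gcongr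
      _ = _ := by ring
  have hvu : v * u ≠ 0 := mul_ne_zero hv (hU.ne hu)
  refine ⟨u, hu, le_trans ?_ h3⟩
  simp only [hΦ] at h3 ⊢
  rw [sum_range_succ] at h3 ⊢
  have h4 : Zc (v * u) K = 0 := by
    by_contra h
    have : 2 ^ K ≤ 2 ^ K * Zc (v * u) K := Nat.le_mul_of_pos_right _ (Nat.pos_of_ne_zero h)
    omega
  have h5 := count_le_Zc (v * u) hvu K
  refine (sum_le_dyadic K _ (by omega)).trans (le_trans ?_ (Nat.le_add_right _ _))
  exact sum_le_sum fun k _ => Nat.mul_le_mul_left _ (count_le_Zc _ hvu k)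

end Pool.Agent.Lib.MP_3bfe94_nt
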