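import Pool.Agent.Lib.MP_3bfe94_nt.CF

/-!
Choice of the parameters.
-/

set_option autoImplicit false

open Finset

namespace Pool.Agent.Lib.MP_3bfe94_nt

lemma natlog_le (n : ℕ) (hn : n ≠ 0) : (Nat.log 2 n : ℝ) ≤ 3 / 2 * Real.log n := by
  have h1 : ((2 ^ Nat.log 2 n : ℕ) : ℝ) ≤ n := by exact_mod_cast Nat.pow_log_le_self 2 hn
  have h2 := Real.log_le_log (by positivity) h1
  rw [Nat.cast_pow, Real.log_pow] at h2
  have h3 := Real.log_two_gt_d9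
  have h4 : (0 : ℝ) ≤ Nat.log 2 n := Nat.cast_nonneg _
  push_cast at h2
  nlinarith

lemma one_le_log_three : 1 ≤ Real.log 3 := by
  rw [Real.le_log_iff_exp_le (by norm_num)]
  linarith [Real.exp_one_lt_d9]

lemma params (l : ℕ) (hl0 : l ≠ 0) : ∃ K : ℕ, 10400 * ((K + 1) * l) < 2 ^ K ∧
    2 ^ K ≤ 1048576 * l ^ 2 ∧ (K : ℝ) + 1 ≤ 21 + 3 * Real.log l := by
  have hm1 := Nat.pow_log_le_self 2 hl0
  have hm2 := Nat.lt_pow_succ_log_self one_lt_two l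
  have hm4 := natlog_le l hl0
  generalize Nat.log 2 l = m at hm1 hm2 hm4
  have hm3 : m < 2 ^ m := Nat.lt_two_pow_self
  refine ⟨2 * m + 20, ?_, ?_, ?_⟩
  · have e : 2 ^ (2 * m + 20) = 524288 * 2 ^ m * 2 ^ (m + 1) := by ring
    rw [e, ← mul_assoc]
    exact Nat.mul_lt_mul_of_le_of_lt (by omega) hm2 (by positivity)
  · calc 2 ^ (2 * m + 20) = 1048576 * (2 ^ m) ^ 2 := by ring
      _ ≤ _ := by gcongr
  · push_cast
    linarith

lemma sixth (p : ℕ) (hp : 1 ≤ p) : ∃ (s : ℝ) (B : ℕ), 1 ≤ s ∧ s ^ 6 = p ∧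
    (p : ℝ) ^ (5 / 6 : ℝ) = s ^ 5 ∧ s ≤ 2 * B ∧ B ^ 6 ≤ p := by
  have hp1 : (1 : ℝ) ≤ p := by exact_mod_cast hp
  have hs1 : 1 ≤ (p : ℝ) ^ (1 / 6 : ℝ) := Real.one_le_rpow hp1 (by norm_num)
  have hs6 : ((p : ℝ) ^ (1 / 6 : ℝ)) ^ 6 = p := by
    rw [← Real.rpow_natCast, ← Real.rpow_mul (by linarith)]; norm_num
  have hs5 : (p : ℝ) ^ (5 / 6 : ℝ) = ((p : ℝ) ^ (1 / 6 : ℝ)) ^ 5 := by
    rw [← Real.rpow_natCast, ← Real.rpow_mul (by linarith)]; norm_num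
  generalize (p : ℝ) ^ (1 / 6 : ℝ) = s at hs1 hs6 hs5
  refine ⟨s, ⌊s⌋₊, hs1, hs6, hs5, ?_, ?_⟩
  · have e1 := Nat.lt_floor_add_one s
    have e2 : (1 : ℝ) ≤ ⌊s⌋₊ := by exact_mod_cast (Nat.one_le_floor_iff s).2 hs1
    linarith
  · have hBs : (⌊s⌋₊ : ℝ) ≤ s := Nat.floor_le (by linarith)
    have : (⌊s⌋₊ : ℝ) ^ 6 ≤ p := by rw [← hs6]; gcongr
    exact_mod_cast this

lemma num1 (s L D u : ℝ) (hs : 1 ≤ s) (hD : 0 ≤ D) (h : 10 ^ 8 * s ^ 5 * L ^ 4 ≤ u)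
    (e1 : D * u ≤ s ^ 6) : 10 ^ 8 * (D * L ^ 4) ≤ s := by
  refine le_of_mul_le_mul_right ?_ (show 0 < s ^ 5 by positivity)
  calc 10 ^ 8 * (D * L ^ 4) * s ^ 5 = D * (10 ^ 8 * s ^ 5 * L ^ 4) := by ring
    _ ≤ D * u := by gcongr
    _ ≤ s ^ 6 := e1
    _ = _ := by ring

lemma num2 (s L D B l M : ℝ) (hL : 1 ≤ L) (hD : 0 ≤ D) (hl0 : 0 ≤ l) (hM0 : 0 ≤ M)
    (h : 10 ^ 8 * (D * L ^ 4) ≤ s) (hB : s ≤ 2 * B) (hl : l ≤ 3 * L) (hM : M ≤ 1048576 * l ^ 2) :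
    (1 + L) ^ 2 * D * M ≤ B := by
  have e : (0 : ℝ) ≤ D * L ^ 4 := by positivity
  calc (1 + L) ^ 2 * D * M ≤ (2 * L) ^ 2 * D * (1048576 * (3 * L) ^ 2) := by
        refine mul_le_mul (by gcongr; linarith) (hM.trans (by gcongr)) hM0 (by positivity)
    _ = 37748736 * (D * L ^ 4) := by ring
    _ ≤ _ := by linarith

lemma three_le_log (x : ℝ) (hx : 27 ≤ x) : 3 ≤ Real.log x := by
  rw [Real.le_log_iff_exp_le (by linarith)]
  have e5 : Real.exp 3 = Real.exp 1 ^ 3 := by rw [← Real.exp_nat_mul]; norm_num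
  have e6 : Real.exp 1 ^ 3 ≤ 3 ^ 3 := by
    gcongr
    linarith [Real.exp_one_lt_d9]
  linarith

lemma num3 (L l K : ℝ) (hL3 : 3 ≤ L) (hl0 : 0 < l) (hl : l ≤ 3 * L)
    (hK : K + 1 ≤ 21 + 3 * Real.log l) : 10400 * ((K + 1) * l) ≤ 10 ^ 6 * L * Real.log L := by
  have hLL : Real.log 3 ≤ Real.log L := Real.log_le_log (by norm_num) hL3
  have hLL1 : 1 ≤ Real.log L := one_le_log_three.trans hLL
  have e2 : Real.log l ≤ Real.log 3 + Real.log L := by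
    rw [← Real.log_mul (by norm_num) (by linarith)]
    exact Real.log_le_log hl0 hl
  calc 10400 * ((K + 1) * l) ≤ 10400 * ((27 * Real.log L) * (3 * L)) := by gcongr; linarith
    _ = 842400 * (L * Real.log L) := by ring
    _ ≤ 10 ^ 6 * (L * Real.log L) := by gcongr; norm_num
    _ = _ := by ring

theorem main {p : ℕ} [Fact p.Prime] (hp3 : 3 ≤ p) {U : Finset (ZMod p)} (hU : IsSub U)
    (v : ZMod p) (hv : v ≠ 0)
    (h : 10 ^ 8 * (p : ℝ) ^ (5 / 6 : ℝ) * Real.log p ^ 4 ≤ U.card) :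
    ∃ u ∈ U, ((qs (v * u).val p).sum : ℝ) ≤ 10 ^ 6 * Real.log p * Real.log (Real.log p) := by
  have hp3' : (3 : ℝ) ≤ p := by exact_mod_cast hp3
  have hL1 : 1 ≤ Real.log p := one_le_log_three.trans (Real.log_le_log (by norm_num) hp3')
  obtain ⟨s, B, hs1, hs6, hs5, hsB, hB6⟩ := sixth p (by omega)
  rw [hs5] at h
  have hDU := card_HH hU
  have hD1 : 1 ≤ (HH U).card := by
    rcases Nat.eq_zero_or_pos (HH U).card with h0 | h0
    · rw [h0] at hDU; omega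
    · exact h0
  have hDs := num1 s _ (HH U).card _ hs1 (Nat.cast_nonneg _) h (by
    rw [hs6]
    have : (HH U).card * U.card ≤ p := by omega
    exact_mod_cast this)
  have hlL : ((Nat.log 2 p + 1 : ℕ) : ℝ) ≤ 3 * Real.log p := by
    have := natlog_le p (by omega)
    push_cast; linarith
  obtain ⟨K, hK1, hK2, hK3⟩ := params (Nat.log 2 p + 1) (by omega)
  obtain ⟨u, hu, hsum⟩ := exists_small hU v hv B K hB6
    (num2 s _ _ _ _ _ hL1 (Nat.cast_nonneg _) (Nat.cast_nonneg _) (Nat.cast_nonneg _) hDs hsB hlL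
      (by exact_mod_cast hK2)) hK1
  refine ⟨u, hu, le_trans ?_ (num3 _ _ K (three_le_log _ ?_) (by positivity) hlL hK3)⟩
  · exact_mod_cast hsum
  · have e2 : (1 : ℝ) ≤ (HH U).card := by exact_mod_cast hD1
    have e3 : 1 ≤ (HH U).card * Real.log p ^ 4 := one_le_mul_of_one_le_of_one_le e2 (one_le_pow₀ hL1)
    have e4 : s ≤ s ^ 6 := le_self_pow₀ hs1 (by norm_num)
    linarith

end Pool.Agent.Lib.MP_3bfe94_nt
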