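import Pool.Agent.Lib.MP_3bfe94_nt.Weil

/-!
A fourth moment bound for short sums of a real linear combination of multiplicative characters.
-/

set_option autoImplicit false

open Finset

namespace Pool.Agent.Lib.MP_3bfe94_nt

variable {K : Type} [Field K] [Fintype K]

lemma weil_family {ι : Type} (s : Finset ι) (b : ι → K) (χ : ι → MulChar K ℂ) (i0 : ι)
    (h0 : i0 ∈ s) (hχ : χ i0 ≠ 1) (hb : ∀ i ∈ s, i ≠ i0 → b i ≠ b i0) :
    ‖∑ x : K, ∏ i ∈ s, χ i (x + b i)‖ ≤ (s.card - 1 : ℕ) * √(Fintype.card K) := by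
  classical
  have hap : ∀ (t : Finset ι), t.Nonempty → ∀ y : K, (∏ i ∈ t, χ i) y = ∏ i ∈ t, χ i y := by
    intro t ht y
    induction ht using Nonempty.cons_induction with
    | singleton a => simp
    | cons a t ha _ ih => rw [prod_cons, prod_cons, MulChar.mul_apply, ih]
  have h1 := weil (s.image b) (fun β => ∏ i ∈ s with b i = β, χ i) (b i0) (mem_image_of_mem b h0)
    (by
      have : (s.filter fun i => b i = b i0) = {i0} := by
        ext i
        rw [mem_filter, mem_singleton]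
        constructor
        · rintro ⟨h1, h2⟩
          by_contra h
          exact hb i h1 h h2
        · rintro rfl
          exact ⟨h0, rfl⟩
      simpa only [this, prod_singleton] using hχ)
  have h2 : ∀ x : K, ∏ β ∈ s.image b, (∏ i ∈ s with b i = β, χ i) (x + β) =
      ∏ i ∈ s, χ i (x + b i) := by
    intro x
    rw [← prod_fiberwise_of_maps_to (fun i hi => mem_image_of_mem b hi)]
    refine prod_congr rfl fun β hβ => ?_
    obtain ⟨i, hi, rfl⟩ := mem_image.1 hβ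
    rw [hap (s.filter fun j => b j = b i) ⟨i, mem_filter.2 ⟨hi, rfl⟩⟩]
    refine prod_congr rfl fun j hj => ?_
    rw [(mem_filter.1 hj).2]
  rw [sum_congr rfl fun x _ => h2 x] at h1
  refine h1.trans ?_
  gcongr
  exact card_image_le

lemma weil4 (χ1 χ2 χ3 χ4 : MulChar K ℂ) (h : χ1 ≠ 1) (b1 b2 b3 b4 : K) (h2 : b2 ≠ b1)
    (h3 : b3 ≠ b1) (h4 : b4 ≠ b1) :
    ‖∑ x : K, χ1 (x + b1) * χ2 (x + b2) * (χ3 (x + b3) * χ4 (x + b4))‖ ≤
      3 * √(Fintype.card K) := by
  have := weil_family (univ : Finset (Fin 4)) ![b1, b2, b3, b4] ![χ1, χ2, χ3, χ4] 0 (mem_univ _) h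
    (by
      intro i _ hi
      fin_cases i
      · exact absurd rfl hi
      · exact h2
      · exact h3
      · exact h4)
  simpa [Fin.prod_univ_four, mul_assoc] using this

open Classical in
lemma sum_mulChar (ψ : MulChar K ℂ) :
    ∑ x : K, ψ x = if ψ = 1 then ((Fintype.card K - 1 : ℕ) : ℂ) else 0 := by
  split_ifs with h
  · rw [h, MulChar.sum_one_eq_card_units, Fintype.card_units]
  · exact MulChar.sum_eq_zero_of_ne_one h

section

variable (T : Finset (MulChar K ℂ)) (c : MulChar K ℂ → ℂ) (f : K → ℝ)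
  (hf : ∀ x, (f x : ℂ) = ∑ χ ∈ T, c χ * χ x)
include hf

omit [Fintype K] in
lemma f_zero : f 0 = 0 := by
  have := hf 0
  simp only [MulChar.map_zero, mul_zero, sum_const_zero] at this
  exact_mod_cast this

lemma f_l2 : ∑ x, f x ^ 2 ≤ Fintype.card K * ∑ χ ∈ T, ‖c χ‖ ^ 2 := by
  classical
  have h1 : ∀ x, ((f x ^ 2 : ℝ) : ℂ) =
      ∑ χ ∈ T, ∑ ψ ∈ T, c χ * star (c ψ) * (χ * ψ⁻¹) x := by
    intro x
    have h2 : (f x : ℂ) = star (f x : ℂ) := (Complex.conj_ofReal _).symm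
    rw [sq, Complex.ofReal_mul]
    nth_rewrite 2 [h2]
    rw [hf, star_sum, sum_mul_sum]
    refine sum_congr rfl fun χ _ => sum_congr rfl fun ψ _ => ?_
    rw [star_mul', MulChar.star_apply', MulChar.mul_apply]
    ring
  have h3 : ((∑ x, f x ^ 2 : ℝ) : ℂ) =
      (((Fintype.card K - 1 : ℕ) * ∑ χ ∈ T, ‖c χ‖ ^ 2 : ℝ) : ℂ) := by
    rw [Complex.ofReal_sum, sum_congr rfl fun x _ => h1 x, sum_comm]
    push_cast
    rw [mul_sum]
    refine sum_congr rfl fun χ hχ => ?_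
    rw [sum_comm]
    simp only [← mul_sum, sum_mulChar, mul_inv_eq_one, mul_ite, mul_zero]
    rw [sum_ite_eq, if_pos hχ, Complex.star_def, Complex.mul_conj', mul_comm]
  rw [Complex.ofReal_injective h3]
  gcongr
  exact Nat.sub_le _ _

lemma f_sup (x : K) : f x ^ 2 ≤ T.card * ∑ χ ∈ T, ‖c χ‖ ^ 2 := by
  have h1 : |f x| ≤ ∑ χ ∈ T, ‖c χ‖ := by
    rw [← Real.norm_eq_abs, ← Complex.norm_real, hf]
    refine (norm_sum_le _ _).trans (sum_le_sum fun χ _ => ?_)
    rw [norm_mul]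
    exact mul_le_of_le_one_right (norm_nonneg _) (norm_mulChar_le _ _)
  rw [← sq_abs]
  exact (pow_le_pow_left₀ (abs_nonneg _) h1 2).trans sq_sum_le_card_mul_sum_sq

lemma f_l2_mul (t : K) : ∑ x, f (x * t) ^ 2 ≤ Fintype.card K * ∑ χ ∈ T, ‖c χ‖ ^ 2 := by
  rcases eq_or_ne t 0 with rfl | ht
  · simp only [mul_zero, f_zero T c f hf]
    simp only [ne_eq, OfNat.ofNat_ne_zero, not_false_eq_true, zero_pow, sum_const_zero]
    positivity
  · exact (le_of_eq (Equiv.sum_comp (Equiv.mulRight₀ t ht) (fun x => f x ^ 2))).trans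
      (f_l2 T c f hf)

lemma four_equal (b : K) : ∑ s, ∑ x, f (x * (s + b)) ^ 4 ≤
    (Fintype.card K : ℝ) ^ 2 * T.card * (∑ χ ∈ T, ‖c χ‖ ^ 2) ^ 2 := by
  set W := ∑ χ ∈ T, ‖c χ‖ ^ 2 with hW
  have hW0 : 0 ≤ W := by positivity
  have h1 : ∀ s ∈ (univ : Finset K), ∑ x, f (x * (s + b)) ^ 4 ≤
      T.card * W * (Fintype.card K * W) := by
    intro s _
    refine le_trans ?_ (mul_le_mul_of_nonneg_left (f_l2_mul T c f hf (s + b)) (by positivity))
    rw [mul_sum]
    refine sum_le_sum fun x _ => ?_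
    have := f_sup T c f hf (x * (s + b))
    calc f (x * (s + b)) ^ 4 = f (x * (s + b)) ^ 2 * f (x * (s + b)) ^ 2 := by ring
      _ ≤ _ := by gcongr
  refine (sum_le_sum h1).trans (le_of_eq ?_)
  rw [sum_const, card_univ, nsmul_eq_mul]
  ring

lemma four_pair (b b' : K) (hb : b ≠ b') : ∑ s, ∑ x, f (x * (s + b)) ^ 2 * f (x * (s + b')) ^ 2 ≤
    (Fintype.card K : ℝ) ^ 2 * (∑ χ ∈ T, ‖c χ‖ ^ 2) ^ 2 := by
  classical
  set g : K × K → ℝ := fun z => f z.1 ^ 2 * f z.2 ^ 2 with hg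
  set φ : K × K → K × K := fun z => (z.2 * (z.1 + b), z.2 * (z.1 + b')) with hφ
  have h1 : ∑ s, ∑ x, f (x * (s + b)) ^ 2 * f (x * (s + b')) ^ 2 =
      ∑ z ∈ univ.filter (fun z : K × K => z.2 ≠ 0), g (φ z) := by
    rw [← Fintype.sum_prod_type' (fun s x => f (x * (s + b)) ^ 2 * f (x * (s + b')) ^ 2),
      sum_filter]
    refine sum_congr rfl fun z _ => ?_
    split_ifs with h
    · rfl
    · rw [not_not.1 h]
      simp [f_zero T c f hf]
  have hinj : Set.InjOn φ (univ.filter (fun z : K × K => z.2 ≠ 0) : Finset (K × K)) := by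
    rintro ⟨s, x⟩ hz ⟨s', x'⟩ _ h
    simp only [hφ, Prod.mk.injEq] at h
    have hx : x ≠ 0 := (mem_filter.1 hz).2
    have e1 : x = x' := by
      have : (x - x') * (b - b') = 0 := by linear_combination h.1 - h.2
      exact sub_eq_zero.1 ((mul_eq_zero.1 this).resolve_right (sub_ne_zero.2 hb))
    subst e1
    have e2 := add_right_cancel (mul_left_cancel₀ hx h.1)
    rw [e2]
  rw [h1, ← sum_image hinj]
  refine (sum_le_univ_sum_of_nonneg fun z => by positivity).trans ?_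
  rw [Fintype.sum_prod_type, ← mul_pow]
  simp only [hg]
  rw [← sum_mul_sum, ← sq]
  exact pow_le_pow_left₀ (by positivity) (f_l2 T c f hf) 2

lemma four_nondeg (hT : ∀ χ ∈ T, χ ≠ 1) (b1 b2 b3 b4 : K) (h2 : b2 ≠ b1) (h3 : b3 ≠ b1)
    (h4 : b4 ≠ b1) :
    ∑ s, ∑ x, f (x * (s + b1)) * f (x * (s + b2)) * (f (x * (s + b3)) * f (x * (s + b4))) ≤
      3 * √(Fintype.card K) * Fintype.card K * T.card * (∑ χ ∈ T, ‖c χ‖ ^ 2) ^ 2 := by
  classical
  set P := T ×ˢ T with hP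
  set q : ℝ := (Fintype.card K : ℝ) with hq
  have hq0 : 0 ≤ q := by positivity
  have hpair : ∀ x y, (f x : ℂ) * f y = ∑ α ∈ P, c α.1 * c α.2 * (α.1 x * α.2 y) := by
    intro x y
    rw [hf, hf, sum_mul_sum, hP, sum_product]
    refine sum_congr rfl fun χ _ => sum_congr rfl fun ψ _ => ?_
    ring
  have h1 : ((∑ s, ∑ x, f (x * (s + b1)) * f (x * (s + b2)) *
      (f (x * (s + b3)) * f (x * (s + b4))) : ℝ) : ℂ) = ∑ α ∈ P, ∑ β ∈ P,
        c α.1 * c α.2 * (c β.1 * c β.2) * (∑ x, (α.1 * α.2 * (β.1 * β.2)) x) *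
          ∑ s, α.1 (s + b1) * α.2 (s + b2) * (β.1 (s + b3) * β.2 (s + b4)) := by
    push_cast
    simp only [hpair, sum_mul_sum P P]
    rw [sum_congr rfl fun s _ => sum_comm, sum_comm]
    refine sum_congr rfl fun α _ => ?_
    rw [sum_congr rfl fun s _ => sum_comm, sum_comm]
    refine sum_congr rfl fun β _ => ?_
    rw [mul_assoc, sum_mul_sum, mul_sum, sum_comm]
    refine sum_congr rfl fun x _ => ?_
    rw [mul_sum]
    refine sum_congr rfl fun s _ => ?_
    simp only [map_mul, MulChar.mul_apply]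
    ring
  set a : MulChar K ℂ × MulChar K ℂ → ℝ := fun α => ‖c α.1‖ * ‖c α.2‖ with ha
  have hcnt : ∀ g : MulChar K ℂ, ((P.filter fun β => g * (β.1 * β.2) = 1).card : ℝ) ≤ T.card := by
    intro g
    have : (P.filter fun β => g * (β.1 * β.2) = 1).card ≤ T.card := by
      refine card_le_card_of_injOn (fun β => β.1) (fun β hβ => ?_) ?_
      · exact (mem_product.1 (mem_filter.1 hβ).1).1
      · rintro ⟨u, v⟩ hu ⟨u', v'⟩ hu' h
        have e1 := (mem_filter.1 hu).2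
        have e2 := (mem_filter.1 hu').2
        simp only at h e1 e2
        subst h
        rw [mul_left_cancel (mul_left_cancel (e1.trans e2.symm))]
    exact_mod_cast this
  have hW : ∑ α ∈ P, a α ^ 2 = (∑ χ ∈ T, ‖c χ‖ ^ 2) ^ 2 := by
    rw [sq (∑ χ ∈ T, _), sum_mul_sum, hP, sum_product]
    simp only [ha, mul_pow]
  have hs1 : ∑ α ∈ P, ∑ β ∈ P, (if α.1 * α.2 * (β.1 * β.2) = 1 then a α ^ 2 else 0) ≤
      T.card * (∑ χ ∈ T, ‖c χ‖ ^ 2) ^ 2 := by
    rw [← hW, mul_sum]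
    refine sum_le_sum fun α _ => ?_
    rw [← sum_filter, sum_const, nsmul_eq_mul]
    exact mul_le_mul_of_nonneg_right (hcnt _) (sq_nonneg _)
  have hs2 : ∑ α ∈ P, ∑ β ∈ P, (if α.1 * α.2 * (β.1 * β.2) = 1 then a β ^ 2 else 0) ≤
      T.card * (∑ χ ∈ T, ‖c χ‖ ^ 2) ^ 2 := by
    rw [sum_comm]
    simpa only [mul_comm (_ * _ : MulChar K ℂ) (_ * _)] using hs1
  refine (le_abs_self _).trans ?_
  rw [← Real.norm_eq_abs, ← Complex.norm_real, h1]
  have hterm : ∀ α ∈ P, ∀ β ∈ P, ‖c α.1 * c α.2 * (c β.1 * c β.2) *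
      (∑ x, (α.1 * α.2 * (β.1 * β.2)) x) *
          ∑ s, α.1 (s + b1) * α.2 (s + b2) * (β.1 (s + b3) * β.2 (s + b4))‖ ≤
      3 * √q * q / 2 * ((if α.1 * α.2 * (β.1 * β.2) = 1 then a α ^ 2 else 0) +
        (if α.1 * α.2 * (β.1 * β.2) = 1 then a β ^ 2 else 0)) := by
    intro α hα β _
    rw [sum_mulChar]
    split_ifs with h
    · have hw := weil4 α.1 α.2 β.1 β.2 (hT _ (mem_product.1 hα).1) b1 b2 b3 b4 h2 h3 h4
      rw [norm_mul, norm_mul, norm_mul, norm_mul, norm_mul, Complex.norm_natCast]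
      have e1 : ((Fintype.card K - 1 : ℕ) : ℝ) ≤ q := by
        rw [hq]; exact_mod_cast Nat.sub_le _ _
      have e2 : a α * a β ≤ (a α ^ 2 + a β ^ 2) / 2 := by nlinarith [sq_nonneg (a α - a β)]
      calc _ ≤ a α * a β * q * (3 * √q) := by
            simp only [ha]
            gcongr
        _ ≤ (a α ^ 2 + a β ^ 2) / 2 * q * (3 * √q) := by gcongr
        _ = _ := by ring
    · simp
  refine (norm_sum_le _ _).trans ((sum_le_sum fun α hα =>
    (norm_sum_le _ _).trans (sum_le_sum fun β hβ => hterm α hα β hβ)).trans ?_)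
  simp only [← mul_sum, sum_add_distrib]
  calc _ ≤ 3 * √q * q / 2 * (T.card * (∑ χ ∈ T, ‖c χ‖ ^ 2) ^ 2 +
        T.card * (∑ χ ∈ T, ‖c χ‖ ^ 2) ^ 2) := by gcongr
    _ = _ := by ring

theorem fourth_moment (hT : ∀ χ ∈ T, χ ≠ 1) (Bs : Finset K) :
    ∑ s, ∑ x, (∑ b ∈ Bs, f (x * (s + b))) ^ 4 ≤
      (3 * (Bs.card : ℝ) ^ 2 * (Fintype.card K : ℝ) ^ 2 +
        Bs.card * (Fintype.card K : ℝ) ^ 2 * T.card +
        3 * (Bs.card : ℝ) ^ 4 * √(Fintype.card K) * Fintype.card K * T.card) *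
          (∑ χ ∈ T, ‖c χ‖ ^ 2) ^ 2 := by
  classical
  set W := ∑ χ ∈ T, ‖c χ‖ ^ 2 with hW
  set q : ℝ := (Fintype.card K : ℝ) with hq
  have hq0 : 0 ≤ q := by positivity
  set N : ℝ := 3 * √q * q * T.card * W ^ 2 with hN
  set P : ℝ := q ^ 2 * W ^ 2 with hP
  set Q : ℝ := q ^ 2 * T.card * W ^ 2 with hQ
  have hN0 : 0 ≤ N := by positivity
  have hP0 : 0 ≤ P := by positivity
  have hQ0 : 0 ≤ Q := by positivity
  set S : K → K → K → K → ℝ := fun b1 b2 b3 b4 => ∑ s, ∑ x,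
    f (x * (s + b1)) * f (x * (s + b2)) * (f (x * (s + b3)) * f (x * (s + b4))) with hS
  have sw12 : ∀ b1 b2 b3 b4, S b1 b2 b3 b4 = S b2 b1 b3 b4 := fun _ _ _ _ =>
    sum_congr rfl fun _ _ => sum_congr rfl fun _ _ => by ring
  have sw13 : ∀ b1 b2 b3 b4, S b1 b2 b3 b4 = S b3 b2 b1 b4 := fun _ _ _ _ =>
    sum_congr rfl fun _ _ => sum_congr rfl fun _ _ => by ring
  have sw14 : ∀ b1 b2 b3 b4, S b1 b2 b3 b4 = S b4 b2 b3 b1 := fun _ _ _ _ =>
    sum_congr rfl fun _ _ => sum_congr rfl fun _ _ => by ring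
  have hnd : ∀ b1 b2 b3 b4, b2 ≠ b1 → b3 ≠ b1 → b4 ≠ b1 → S b1 b2 b3 b4 ≤ N :=
    four_nondeg T c f hf hT
  have hpr : ∀ b b', b ≠ b' → S b b b' b' ≤ P := fun b b' h =>
    le_trans (le_of_eq (sum_congr rfl fun _ _ => sum_congr rfl fun _ _ => by ring))
      (four_pair T c f hf b b' h)
  have heq : ∀ b, S b b b b ≤ Q := fun b =>
    le_trans (le_of_eq (sum_congr rfl fun _ _ => sum_congr rfl fun _ _ => by ring))
      (four_equal T c f hf b)
  have hall : ∀ b1 b2 b3 b4, S b1 b2 b3 b4 ≤ N + (if b2 = b1 then if b4 = b3 then P else 0 else 0)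
      + (if b3 = b1 then if b4 = b2 then P else 0 else 0)
      + (if b3 = b2 then if b4 = b1 then P else 0 else 0)
      + (if b2 = b1 then if b3 = b1 then if b4 = b1 then Q else 0 else 0 else 0) := by
    intro b1 b2 b3 b4
    by_cases h21 : b2 = b1
    · subst h21
      by_cases h32 : b3 = b2
      · subst h32
        by_cases h43 : b4 = b3
        · subst h43
          simp only [if_true]
          linarith [heq b4]
        · simp only [if_true, if_neg h43]
          rw [sw14]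
          linarith [hnd b4 b3 b3 b3 (Ne.symm h43) (Ne.symm h43) (Ne.symm h43)]
      · simp only [if_true, if_neg h32]
        by_cases h43 : b4 = b3
        · subst h43
          simp only [if_true]
          linarith [hpr b2 b4 (Ne.symm h32)]
        · simp only [if_neg h43]
          rw [sw13]
          linarith [hnd b3 b2 b2 b4 (Ne.symm h32) (Ne.symm h32) h43]
    · simp only [if_neg h21]
      by_cases h31 : b3 = b1
      · subst h31
        simp only [if_true, if_neg (Ne.symm h21)]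
        by_cases h42 : b4 = b2
        · subst h42
          simp only [if_true]
          rw [sw14]
          linarith [hpr b4 b3 h21]
        · simp only [if_neg h42]
          rw [sw12]
          linarith [hnd b2 b3 b3 b4 (Ne.symm h21) (Ne.symm h21) h42]
      · simp only [if_neg h31]
        by_cases h41 : b4 = b1
        · subst h41
          by_cases h32 : b3 = b2
          · subst h32
            simp only [if_true]
            rw [sw13]
            linarith [hpr b3 b4 h21]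
          · simp only [if_neg h32]
            rw [sw12]
            linarith [hnd b2 b4 b3 b4 (Ne.symm h21) h32 (Ne.symm h21)]
        · simp only [if_neg h41, ite_self]
          linarith [hnd b1 b2 b3 b4 h21 h31 h41]
  have hexp : ∑ s, ∑ x, (∑ b ∈ Bs, f (x * (s + b))) ^ 4 =
      ∑ b1 ∈ Bs, ∑ b2 ∈ Bs, ∑ b3 ∈ Bs, ∑ b4 ∈ Bs, S b1 b2 b3 b4 := by
    have e1 : ∀ g : K → ℝ, (∑ b ∈ Bs, g b) ^ 4 =
        ∑ b1 ∈ Bs, ∑ b2 ∈ Bs, ∑ b3 ∈ Bs, ∑ b4 ∈ Bs, g b1 * g b2 * (g b3 * g b4) := by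
      intro g
      simp only [← mul_sum, ← sum_mul]
      ring
    simp only [e1, hS]
    rw [sum_congr rfl fun s _ => sum_comm, sum_comm]
    refine sum_congr rfl fun b1 _ => ?_
    rw [sum_congr rfl fun s _ => sum_comm, sum_comm]
    refine sum_congr rfl fun b2 _ => ?_
    rw [sum_congr rfl fun s _ => sum_comm, sum_comm]
    refine sum_congr rfl fun b3 _ => ?_
    rw [sum_congr rfl fun s _ => sum_comm, sum_comm]
  rw [hexp]
  refine (sum_le_sum fun b1 _ => sum_le_sum fun b2 _ => sum_le_sum fun b3 _ =>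
    sum_le_sum fun b4 _ => hall b1 b2 b3 b4).trans (le_of_eq ?_)
  simp only [sum_add_distrib]
  have e1 : ∑ b1 ∈ Bs, ∑ b2 ∈ Bs, ∑ b3 ∈ Bs, ∑ b4 ∈ Bs,
      (if b2 = b1 then if b4 = b3 then P else 0 else 0) = (Bs.card : ℝ) ^ 2 * P := by
    simp +contextual only [sum_ite_irrel, sum_ite_eq', sum_const_zero, if_true, sum_const,
      nsmul_eq_mul]
    ring
  have e2 : ∑ b1 ∈ Bs, ∑ b2 ∈ Bs, ∑ b3 ∈ Bs, ∑ b4 ∈ Bs,
      (if b3 = b1 then if b4 = b2 then P else 0 else 0) = (Bs.card : ℝ) ^ 2 * P := by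
    simp +contextual only [sum_ite_irrel, sum_ite_eq', sum_const_zero, if_true, sum_const,
      nsmul_eq_mul]
    ring
  have e3 : ∑ b1 ∈ Bs, ∑ b2 ∈ Bs, ∑ b3 ∈ Bs, ∑ b4 ∈ Bs,
      (if b3 = b2 then if b4 = b1 then P else 0 else 0) = (Bs.card : ℝ) ^ 2 * P := by
    simp +contextual only [sum_ite_irrel, sum_ite_eq', sum_const_zero, if_true, sum_const,
      nsmul_eq_mul]
    ring
  have e4 : ∑ b1 ∈ Bs, ∑ b2 ∈ Bs, ∑ b3 ∈ Bs, ∑ b4 ∈ Bs,
      (if b2 = b1 then if b3 = b1 then if b4 = b1 then Q else 0 else 0 else 0) =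
        (Bs.card : ℝ) * Q := by
    simp +contextual only [sum_ite_irrel, sum_ite_eq', sum_const_zero, if_true, sum_const,
      nsmul_eq_mul]
  rw [e1, e2, e3, e4]
  simp only [sum_const, nsmul_eq_mul, hN, hP, hQ]
  ring

end

end Pool.Agent.Lib.MP_3bfe94_nt
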