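import Mathlib

/-!
Analytic part of the lifting trick: if `X L' = L S` with `|S_k| ≤ C ρ ^ k` then the linear
coefficient of the polynomial `L` is at most `deg L * ρ`.
-/

set_option autoImplicit false

open Polynomial Finset

namespace Pool.Agent.Lib.MP_3bfe94_nt

lemma tele_eval (P : ℂ[X]) (t : ℕ → ℂ) (z : ℂ) (h0 : P.coeff 0 = - z * t 0)
    (h : ∀ k, P.coeff (k + 1) = t k - z * t (k + 1)) (N : ℕ) :
    ∑ k ∈ range (N + 1), P.coeff k * z ^ k = - z ^ (N + 1) * t N := by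
  induction N with
  | zero => simp [h0]
  | succ N ih => rw [sum_range_succ, ih, h]; ring

lemma root_large (L : ℂ[X]) (S : ℕ → ℂ) (C ρ : ℝ) (hρ : 0 < ρ) (h0 : L.coeff 0 = 1)
    (hS : ∀ k, ‖S k‖ ≤ C * ρ ^ k)
    (hrec : ∀ n : ℕ, (n : ℂ) * L.coeff n = ∑ ij ∈ antidiagonal n, S ij.1 * L.coeff ij.2)
    (z : ℂ) (hz : L.IsRoot z) : 1 ≤ ‖z‖ * ρ := by
  by_contra hlt
  push Not at hlt
  have hL : L ≠ 0 := by rintro rfl; simp at h0
  have hz0 : z ≠ 0 := by
    rintro rfl
    rw [IsRoot, ← coeff_zero_eq_eval_zero, h0] at hz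
    exact one_ne_zero hz
  obtain ⟨Q, hQ, hnd⟩ := exists_eq_pow_rootMultiplicity_mul_and_not_dvd L hL z
  obtain ⟨μ, hμ⟩ : ∃ μ, rootMultiplicity z L = μ + 1 :=
    Nat.exists_eq_succ_of_ne_zero ((rootMultiplicity_pos hL).2 hz).ne'
  rw [hμ] at hQ
  have hQz : Q.eval z ≠ 0 := fun h => hnd (dvd_iff_isRoot.2 h)
  have hC : 0 ≤ C := by
    have := (norm_nonneg _).trans (hS 0)
    simpa using this
  have e1 : ((X * derivative L : ℂ[X]) : PowerSeries ℂ) = PowerSeries.mk S * (L : PowerSeries ℂ) := by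
    ext n
    rw [PowerSeries.coeff_mul, Polynomial.coeff_coe]
    simp only [PowerSeries.coeff_mk, Polynomial.coeff_coe]
    rw [← hrec]
    cases n with
    | zero => simp
    | succ n => rw [coeff_X_mul, coeff_derivative]; push_cast; ring
  set P : ℂ[X] := X * (((μ + 1 : ℕ) : ℂ[X]) * Q + (X - Polynomial.C z) * derivative Q) with hP
  have e2 : X * derivative L = (X - Polynomial.C z) ^ μ * P := by
    rw [hP]
    conv_lhs => rw [hQ]
    rw [derivative_mul, derivative_X_sub_C_pow]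
    simp only [Nat.add_sub_cancel, map_natCast]
    ring
  have e3 : (P : PowerSeries ℂ) =
      ((X - Polynomial.C z : ℂ[X]) : PowerSeries ℂ) * (PowerSeries.mk S * (Q : PowerSeries ℂ)) := by
    have hne : (((X - Polynomial.C z : ℂ[X]) : PowerSeries ℂ)) ^ μ ≠ 0 := by
      apply pow_ne_zero
      rw [Ne, Polynomial.coe_eq_zero_iff]
      exact X_sub_C_ne_zero z
    apply mul_left_cancel₀ hne
    rw [← Polynomial.coe_pow, ← Polynomial.coe_mul, ← e2, e1]
    conv_lhs => rw [hQ]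
    rw [Polynomial.coe_mul, Polynomial.coe_pow, Polynomial.coe_pow]
    ring
  set T := PowerSeries.mk S * (Q : PowerSeries ℂ) with hT
  set t : ℕ → ℂ := fun k => PowerSeries.coeff k T with ht
  have hc0 : P.coeff 0 = - z * t 0 := by
    rw [← Polynomial.coeff_coe, e3, Polynomial.coe_sub, Polynomial.coe_X, Polynomial.coe_C, sub_mul,
      map_sub, PowerSeries.coeff_zero_X_mul, PowerSeries.coeff_C_mul]
    simp [ht]
  have hc1 : ∀ k, P.coeff (k + 1) = t k - z * t (k + 1) := by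
    intro k
    rw [← Polynomial.coeff_coe, e3, Polynomial.coe_sub, Polynomial.coe_X, Polynomial.coe_C, sub_mul,
      map_sub, PowerSeries.coeff_succ_X_mul, PowerSeries.coeff_C_mul]
  obtain ⟨D, hD⟩ : ∃ D : ℝ, D = ∑ j ∈ range (Q.natDegree + 1), ‖Q.coeff j‖ * (C * (ρ ^ j)⁻¹) :=
    ⟨_, rfl⟩
  have htb : ∀ k, ‖t k‖ ≤ D * ρ ^ k := by
    intro k
    simp only [ht, hT]
    rw [mul_comm, PowerSeries.coeff_mul, Finset.Nat.sum_antidiagonal_eq_sum_range_succ
      (fun i j => PowerSeries.coeff i (Q : PowerSeries ℂ) * PowerSeries.coeff j (PowerSeries.mk S))]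
    simp only [PowerSeries.coeff_mk, Polynomial.coeff_coe]
    refine (norm_sum_le _ _).trans ?_
    have h1 : ∀ i ∈ range k.succ, ‖Q.coeff i * S (k - i)‖ ≤ ‖Q.coeff i‖ * (C * (ρ ^ i)⁻¹) * ρ ^ k := by
      intro i hi
      have hik : i ≤ k := Nat.lt_succ_iff.1 (mem_range.1 hi)
      rw [norm_mul, mul_assoc]
      refine mul_le_mul_of_nonneg_left ((hS _).trans (le_of_eq ?_)) (norm_nonneg _)
      rw [pow_sub₀ _ hρ.ne' hik]; ring
    refine (sum_le_sum h1).trans ?_
    rw [← sum_mul, hD]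
    refine mul_le_mul_of_nonneg_right ?_ (by positivity)
    rw [← sum_filter_ne_zero]
    refine sum_le_sum_of_subset_of_nonneg (fun i hi => ?_) (fun i _ _ => by positivity)
    rw [mem_range, Nat.lt_succ_iff]
    refine le_natDegree_of_ne_zero fun h => (mem_filter.1 hi).2 ?_
    simp [h]
  have hPz : P.eval z ≠ 0 := by
    simp only [hP, eval_mul, eval_X, eval_add, eval_sub, eval_C, sub_self, zero_mul, add_zero,
      eval_natCast]
    exact mul_ne_zero hz0 (mul_ne_zero (Nat.cast_ne_zero.2 (Nat.succ_ne_zero _)) hQz)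
  have hb : ∀ N, P.natDegree ≤ N → ‖P.eval z‖ ≤ ‖z‖ * D * (‖z‖ * ρ) ^ N := by
    intro N hN
    rw [eval_eq_sum_range' (Nat.lt_succ_of_le hN), tele_eval P t z hc0 hc1, norm_mul, norm_neg,
      norm_pow]
    calc ‖z‖ ^ (N + 1) * ‖t N‖ ≤ ‖z‖ ^ (N + 1) * (D * ρ ^ N) := by gcongr; exact htb N
      _ = _ := by ring
  have hlim : Filter.Tendsto (fun N : ℕ => ‖z‖ * D * (‖z‖ * ρ) ^ N) Filter.atTop (nhds 0) := by
    have := (tendsto_pow_atTop_nhds_zero_of_lt_one (by positivity) hlt).const_mul (‖z‖ * D)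
    simpa using this
  have := ge_of_tendsto hlim (Filter.eventually_atTop.2 ⟨P.natDegree, hb⟩)
  exact hPz (norm_le_zero_iff.1 this)

lemma coeff_one_le (ρ : ℝ) (hρ : 0 < ρ) : ∀ (n : ℕ) (L : ℂ[X]), L.natDegree = n → L.coeff 0 = 1 →
    (∀ z, L.IsRoot z → 1 ≤ ‖z‖ * ρ) → ‖L.coeff 1‖ ≤ n * ρ := by
  intro n
  induction n with
  | zero =>
    intro L hL _ _
    rw [coeff_eq_zero_of_natDegree_lt (by omega)]
    simp
  | succ n ih =>
    intro L hL h0 hr
    obtain ⟨z, hz⟩ : ∃ z, L.IsRoot z := IsAlgClosed.exists_root L (by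
      rw [degree_eq_natDegree (by rintro rfl; simp at h0), hL]
      exact_mod_cast Nat.succ_ne_zero n)
    have hz1 := hr z hz
    have hz0 : z ≠ 0 := by rintro rfl; norm_num at hz1
    obtain ⟨M, hM⟩ := dvd_iff_isRoot.2 hz
    have hM0 : M ≠ 0 := by rintro rfl; rw [hM] at h0; simp at h0
    have hc0 : L.coeff 0 = - z * M.coeff 0 := by
      rw [hM, sub_mul, coeff_sub, coeff_X_mul_zero, coeff_C_mul]; ring
    have hc1 : L.coeff 1 = M.coeff 0 - z * M.coeff 1 := by
      rw [hM, sub_mul, coeff_sub, coeff_X_mul, coeff_C_mul]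
    have hd : (Polynomial.C (-z) * M).natDegree = n := by
      rw [natDegree_C_mul (neg_ne_zero.2 hz0)]
      rw [hM, natDegree_mul (X_sub_C_ne_zero z) hM0, natDegree_X_sub_C] at hL
      omega
    have h1 := ih (Polynomial.C (-z) * M) hd (by rw [coeff_C_mul, ← hc0, h0]) (by
      intro w hw
      apply hr
      rw [IsRoot, eval_mul, eval_C, mul_eq_zero] at hw
      rcases hw with hw | hw
      · exact absurd hw (neg_ne_zero.2 hz0)
      · rw [IsRoot, hM, eval_mul, hw, mul_zero])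
    rw [coeff_C_mul] at h1
    have h2 : ‖M.coeff 0‖ ≤ ρ := by
      have h3 : ‖z‖ * ‖M.coeff 0‖ = 1 := by
        rw [← norm_neg z, ← norm_mul, ← hc0, h0, norm_one]
      have h4 : 0 < ‖z‖ := norm_pos_iff.2 hz0
      nlinarith
    rw [hc1, sub_eq_add_neg, ← neg_mul]
    refine (norm_add_le _ _).trans ?_
    push_cast
    linarith

/-- Analytic lemma of the lifting trick. -/
theorem lift_bound (c S : ℕ → ℂ) (C ρ : ℝ) (m : ℕ) (hρ : 0 < ρ) (h0 : c 0 = 1)
    (hm : ∀ n, m < n → c n = 0) (hS : ∀ k, ‖S k‖ ≤ C * ρ ^ k)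
    (hrec : ∀ n : ℕ, (n : ℂ) * c n = ∑ ij ∈ antidiagonal n, S ij.1 * c ij.2) :
    ‖c 1‖ ≤ m * ρ := by
  set L : ℂ[X] := ∑ i ∈ range (m + 1), monomial i (c i) with hL
  have hc : ∀ n, L.coeff n = c n := by
    intro n
    rw [hL, finsetSum_coeff]
    simp only [coeff_monomial]
    rw [sum_ite_eq']
    split_ifs with h
    · rfl
    · rw [hm n (by simpa using h)]
  have hd : L.natDegree ≤ m := by
    rw [natDegree_le_iff_coeff_eq_zero]
    intro N hN
    rw [hc, hm N hN]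
  have := coeff_one_le ρ hρ _ L rfl (by rw [hc, h0])
    (root_large L S C ρ hρ (by rw [hc, h0]) hS (by simpa only [hc] using hrec))
  rw [hc] at this
  refine this.trans ?_
  gcongr

end Pool.Agent.Lib.MP_3bfe94_nt
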