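import Mathlib

/-!
Combinatorial part of the lifting trick: the logarithmic derivative of an `L`-series over `F[X]`.
-/

set_option autoImplicit false

open Polynomial Finset

namespace Pool.Agent.Lib.MP_3bfe94_nt

section

variable (F : Type) [Field F]

/-- The characteristic polynomial of an element of a finite extension. -/
noncomputable def cp {K : Type} [Field K] [Algebra F K] (x : K) : F[X] :=
  minpoly F x ^ (Module.finrank F K / (minpoly F x).natDegree)

variable {K : Type} [Field K] [Algebra F K] [FiniteDimensional F K]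

lemma cp_monic (x : K) : (cp F x).Monic :=
  (minpoly.monic (IsIntegral.of_finite F x)).pow _

lemma cp_natDegree (x : K) : (cp F x).natDegree = Module.finrank F K := by
  rw [cp, natDegree_pow]
  exact Nat.div_mul_cancel (minpoly.degree_dvd (IsIntegral.of_finite F x))

open IntermediateField in
lemma norm_eq_cp (y : K) :
    Algebra.norm F y = (-1) ^ Module.finrank F K * (cp F y).coeff 0 := by
  have hy : IsIntegral F y := IsIntegral.of_finite F y
  have h1 : Module.finrank F F⟮y⟯ * Module.finrank F⟮y⟯ K = Module.finrank F K :=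
    Module.finrank_mul_finrank F F⟮y⟯ K
  rw [adjoin.finrank hy] at h1
  have hd : 0 < (minpoly F y).natDegree := minpoly.natDegree_pos hy
  have h2 : Module.finrank F K / (minpoly F y).natDegree = Module.finrank F⟮y⟯ K := by
    rw [← h1, Nat.mul_div_cancel_left _ hd]
  rw [Algebra.norm_eq_norm_adjoin, ← adjoin.powerBasis_gen hy,
    Algebra.PowerBasis.norm_gen_eq_coeff_zero_minpoly, cp, h2, adjoin.powerBasis_gen,
    minpoly_gen, adjoin.powerBasis_dim, mul_pow, ← pow_mul, h1, coeff_zero_eq_eval_zero,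
    coeff_zero_eq_eval_zero, eval_pow]

lemma cp_eval (x : K) (β : F) :
    (cp F x).eval β = (-1) ^ Module.finrank F K * Algebra.norm F (x - algebraMap F K β) := by
  rw [norm_eq_cp, ← mul_assoc, ← mul_pow, cp, cp, minpoly.sub_algebraMap, natDegree_comp,
    natDegree_X_add_C, mul_one, coeff_zero_eq_eval_zero, eval_pow, eval_pow, eval_comp]
  simp

end

variable {F : Type} [Field F] [Fintype F]

lemma card_minpoly_eq {K : Type} [Field K] [Fintype K] [Algebra F K] [DecidableEq F] (π : F[X])
    (hm : π.Monic) (hi : Irreducible π) (hd : π.natDegree ∣ Module.finrank F K) :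
    (univ.filter fun x : K => minpoly F x = π).card = π.natDegree := by
  classical
  have h1 := hi.natDegree_dvd_iff_dvd_X_pow_card_pow_sub_X.1 hd
  rw [← Module.natCard_eq_pow_finrank, Nat.card_eq_fintype_card] at h1
  have hsp := (FiniteField.isSplittingField_sub K F).splits
  have hne : (X ^ Fintype.card K - X : F[X]) ≠ 0 :=
    FiniteField.X_pow_card_sub_X_ne_zero F Fintype.one_lt_card
  have hs : Splits (π.map (algebraMap F K)) :=
    Splits.of_dvd hsp (map_ne_zero hne) (Polynomial.map_dvd _ h1)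
  rw [← card_rootSet_eq_natDegree (PerfectField.separable_of_irreducible hi) hs, ← Fintype.card_coe]
  refine Fintype.card_congr (Equiv.subtypeEquivRight fun x => ?_)
  rw [mem_filter, mem_rootSet]
  constructor
  · rintro ⟨-, rfl⟩
    exact ⟨hm.ne_zero, minpoly.aeval F x⟩
  · rintro ⟨-, h⟩
    exact ⟨mem_univ _, (minpoly.eq_of_irreducible_of_monic hi h hm).symm⟩

open Classical in
lemma cnt_step {K : Type} [Field K] [Fintype K] [Algebra F K] (π h : F[X])
    (hm : π.Monic) (hi : Irreducible π) (v : ℕ) (hv : π ^ v ∣ h) (hv1 : ¬ π ^ (v + 1) ∣ h) :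
    (univ.filter fun x : K => cp F x ∣ π * h).card =
      (univ.filter fun x : K => cp F x ∣ h).card +
        if Module.finrank F K = (v + 1) * π.natDegree then π.natDegree else 0 := by
  have hpt : ∀ x : K, (if cp F x ∣ π * h then 1 else 0 : ℕ) = (if cp F x ∣ h then 1 else 0) +
      if minpoly F x = π ∧ Module.finrank F K = (v + 1) * π.natDegree then 1 else 0 := by
    intro x
    have hx : IsIntegral F x := IsIntegral.of_finite F x
    by_cases hp : minpoly F x = π
    · obtain ⟨j, hj⟩ := minpoly.degree_dvd hx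
      have hd : 0 < (minpoly F x).natDegree := minpoly.natDegree_pos hx
      have hj0 : j ≠ 0 := by
        rintro rfl
        exact absurd hj (by simpa using Module.finrank_pos.ne')
      obtain ⟨i, rfl⟩ := Nat.exists_eq_succ_of_ne_zero hj0
      have hc : cp F x = π ^ (i + 1) := by
        rw [cp, hj, Nat.mul_div_cancel_left _ hd, hp]
      rw [hp] at hj hd
      have a1 : ∀ a, π ^ a ∣ h ↔ a ≤ v := fun a =>
        ⟨fun ha => by
          by_contra hlt
          exact hv1 ((pow_dvd_pow π (by omega)).trans ha),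
        fun ha => (pow_dvd_pow π ha).trans hv⟩
      have a2 : π ^ (i + 1) ∣ π * h ↔ i ≤ v := by
        rw [pow_succ', mul_dvd_mul_iff_left hm.ne_zero, a1]
      have a3 : Module.finrank F K = (v + 1) * π.natDegree ↔ i = v := by
        rw [hj, mul_comm, Nat.mul_left_inj hd.ne']
        omega
      simp only [hc, hp, true_and, a1, a2, a3]
      split_ifs <;> omega
    · have hco : IsCoprime (cp F x) π := by
        apply IsCoprime.pow_left
        rw [(minpoly.irreducible hx).coprime_iff_not_dvd]
        intro hdv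
        exact hp (eq_of_monic_of_associated (minpoly.monic hx) hm
          ((minpoly.irreducible hx).associated_of_dvd hi hdv))
      have a1 : cp F x ∣ π * h ↔ cp F x ∣ h :=
        ⟨fun ha => hco.dvd_of_dvd_mul_left ha, fun ha => ha.mul_left _⟩
      simp [a1, hp]
  rw [card_filter, card_filter, sum_congr rfl fun x _ => hpt x, sum_add_distrib]
  congr 1
  split_ifs with hk
  · simp only [hk, and_true]
    rw [← card_filter]
    exact card_minpoly_eq π hm hi (by rw [hk]; exact dvd_mul_left _ _)
  · simp [hk]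

variable (p : ℕ) [Fact p.Prime] [CharP F p]

noncomputable instance extFintype (k : ℕ) : Fintype (FiniteField.Extension F p (k + 1)) :=
  Fintype.ofFinite _

open Classical in
lemma cnt_total (N : ℕ) : ∀ (n : ℕ) (h : F[X]), h.Monic → h.natDegree = n → n ≤ N →
    ∑ k ∈ range N, (univ.filter fun x : FiniteField.Extension F p (k + 1) => cp F x ∣ h).card
      = n := by
  intro n
  induction n using Nat.strong_induction_on with
  | _ n ih =>
    intro h hm hd hN
    rcases Nat.eq_zero_or_pos n with rfl | hn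
    · rw [(Monic.natDegree_eq_zero hm).1 hd]
      refine sum_eq_zero fun k _ => ?_
      rw [card_eq_zero, filter_eq_empty_iff]
      intro x _ hx
      have := natDegree_le_of_dvd hx one_ne_zero
      rw [cp_natDegree, FiniteField.finrank_extension, natDegree_one] at this
      omega
    · obtain ⟨π, hπm, hπi, h', rfl⟩ := exists_monic_irreducible_factor h
        (not_isUnit_of_natDegree_pos h (by omega))
      have hm' : h'.Monic := hπm.of_mul_monic_left hm
      rw [hπm.natDegree_mul hm'] at hd
      have hπ0 : 0 < π.natDegree := hπi.natDegree_pos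
      obtain ⟨v, g, hg, hv⟩ := WfDvdMonoid.max_power_factor hm'.ne_zero hπi
      have hv0 : π ^ v ∣ h' := ⟨g, hv⟩
      have hv1 : ¬ π ^ (v + 1) ∣ h' := by
        rw [hv, pow_succ, mul_dvd_mul_iff_left (pow_ne_zero _ hπm.ne_zero)]
        exact hg
      have hle : v * π.natDegree ≤ h'.natDegree := by
        have := natDegree_le_of_dvd hv0 hm'.ne_zero
        rwa [natDegree_pow] at this
      rw [sum_congr rfl fun k _ => cnt_step π h' hπm hπi v hv0 hv1, sum_add_distrib,
        ih h'.natDegree (by omega) h' hm' rfl (by omega)]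
      simp only [FiniteField.finrank_extension]
      have hk : (v + 1) * π.natDegree = v * π.natDegree + π.natDegree := by ring
      rw [sum_eq_single (v * π.natDegree + π.natDegree - 1)]
      · rw [if_pos (by omega)]; omega
      · intro b _ hb
        rw [if_neg (by omega)]
      · intro hb
        exact absurd (mem_range.2 (by omega)) hb

lemma monics_finite (n : ℕ) : {h : F[X] | h.Monic ∧ h.natDegree = n}.Finite := by
  refine Set.Finite.of_finite_image (f := fun (h : F[X]) (i : Fin (n + 1)) => h.coeff i)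
    (Set.toFinite _) ?_
  intro a ha b hb hab
  ext i
  rcases Nat.lt_or_ge n i with hi | hi
  · rw [coeff_eq_zero_of_natDegree_lt (by rw [ha.2]; exact hi),
      coeff_eq_zero_of_natDegree_lt (by rw [hb.2]; exact hi)]
  · exact congrFun hab ⟨i, by omega⟩

/-- The monic polynomials of degree `n`. -/
noncomputable def monics (n : ℕ) : Finset F[X] := (monics_finite (F := F) n).toFinset

lemma mem_monics {n : ℕ} {h : F[X]} : h ∈ monics n ↔ h.Monic ∧ h.natDegree = n := by
  simp [monics]

open Classical in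
lemma sum_dvd (Ξ : F[X] → ℂ) (hΞ : ∀ a b, Ξ (a * b) = Ξ a * Ξ b) (a : F[X]) (ha : a.Monic)
    (j n : ℕ) (hn : a.natDegree + j = n) :
    ∑ h ∈ monics n with a ∣ h, Ξ h = Ξ a * ∑ g ∈ monics j, Ξ g := by
  rw [mul_sum]
  symm
  refine sum_bij (fun g _ => a * g) ?_ ?_ ?_ ?_
  · intro g hg
    rw [mem_monics] at hg
    rw [mem_filter, mem_monics]
    exact ⟨⟨ha.mul hg.1, by rw [ha.natDegree_mul hg.1, hg.2, hn]⟩, dvd_mul_right _ _⟩
  · intro g _ g' _ h
    exact mul_left_cancel₀ ha.ne_zero h
  · intro h hh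
    rw [mem_filter, mem_monics] at hh
    obtain ⟨⟨h1, h2⟩, g, rfl⟩ := hh
    have hg : g.Monic := ha.of_mul_monic_left h1
    rw [ha.natDegree_mul hg] at h2
    exact ⟨g, mem_monics.2 ⟨hg, by omega⟩, rfl⟩
  · intro g _
    rw [hΞ]

/-- The power sums attached to a multiplicative function on `F[X]`. -/
noncomputable def psum (Ξ : F[X] → ℂ) : ℕ → ℂ
  | 0 => 0
  | k + 1 => ∑ x : FiniteField.Extension F p (k + 1), Ξ (cp F x)

theorem logder (Ξ : F[X] → ℂ) (hΞ : ∀ a b, Ξ (a * b) = Ξ a * Ξ b) (n : ℕ) :
    (n : ℂ) * ∑ h ∈ monics n, Ξ h =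
      ∑ ij ∈ antidiagonal n, psum p Ξ ij.1 * ∑ h ∈ monics ij.2, Ξ h := by
  classical
  rw [Finset.Nat.sum_antidiagonal_eq_sum_range_succ
    (fun i j => psum p Ξ i * ∑ h ∈ monics j, Ξ h), sum_range_succ', mul_sum]
  simp only [psum, zero_mul, add_zero]
  have h1 : ∀ h ∈ monics (F := F) n, (n : ℂ) * Ξ h = ∑ k ∈ range n,
      ∑ x : FiniteField.Extension F p (k + 1), if cp F x ∣ h then Ξ h else 0 := by
    intro h hh
    rw [mem_monics] at hh
    conv_lhs => rw [← cnt_total p n n h hh.1 hh.2 le_rfl]
    rw [Nat.cast_sum, sum_mul]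
    refine sum_congr rfl fun k _ => ?_
    rw [← sum_filter, sum_const, nsmul_eq_mul]
  rw [sum_congr rfl h1, sum_comm]
  refine sum_congr rfl fun k hk => ?_
  rw [sum_comm, sum_mul]
  refine sum_congr rfl fun x _ => ?_
  rw [← sum_filter]
  refine sum_dvd Ξ hΞ _ (cp_monic F x) _ _ ?_
  rw [cp_natDegree, FiniteField.finrank_extension]
  have := mem_range.1 hk
  omega

lemma monics_zero (Ξ : F[X] → ℂ) : ∑ h ∈ monics 0, Ξ h = Ξ 1 := by
  have : monics (F := F) 0 = {1} := by
    ext h
    rw [mem_monics, mem_singleton]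
    exact ⟨fun h1 => (Monic.natDegree_eq_zero h1.1).1 h1.2, by rintro rfl; simp⟩
  rw [this, sum_singleton]

lemma monics_one (Ξ : F[X] → ℂ) : ∑ h ∈ monics 1, Ξ h = ∑ s : F, Ξ (X + C s) := by
  symm
  refine sum_bij (fun s _ => X + C s) ?_ ?_ ?_ ?_
  · intro s _
    exact mem_monics.2 ⟨monic_X_add_C s, natDegree_X_add_C s⟩
  · intro s _ t _ h
    exact C_injective (add_left_cancel h)
  · intro h hh
    rw [mem_monics] at hh
    exact ⟨h.coeff 0, mem_univ _, (hh.1.eq_X_add_C hh.2).symm⟩
  · intro s _
    rfl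

lemma monics_vanish (B : Finset F) (χ : F → MulChar F ℂ) (β0 : F) (h0 : β0 ∈ B) (hχ : χ β0 ≠ 1)
    (n : ℕ) (hn : B.card ≤ n) : ∑ h ∈ monics n, ∏ β ∈ B, χ β (h.eval β) = 0 := by
  classical
  set w : F[X] := ∏ β ∈ B.erase β0, (X - C β) with hw
  have hwd : w.natDegree < n := by
    rw [hw, natDegree_finsetProd_X_sub_C_eq_card, card_erase_of_mem h0]
    have := card_pos.2 ⟨β0, h0⟩
    omega
  have hw0 : w.eval β0 ≠ 0 := by
    rw [hw, eval_prod, prod_ne_zero_iff]
    intro β hβ
    simpa [sub_eq_zero] using (ne_of_mem_erase hβ).symm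
  have hw1 : ∀ β ∈ B.erase β0, w.eval β = 0 := by
    intro β hβ
    rw [hw, eval_prod]
    exact prod_eq_zero hβ (by simp)
  have hmem : ∀ (t : F) (h : F[X]), h ∈ monics n → h + C t * w ∈ monics n := by
    intro t h hh
    rw [mem_monics] at hh ⊢
    have hlt : (C t * w).natDegree < h.natDegree := by
      rw [hh.2]; exact (natDegree_C_mul_le t w).trans_lt hwd
    exact ⟨hh.1.add_of_left (degree_lt_degree hlt), by
      rw [natDegree_add_eq_left_of_natDegree_lt hlt, hh.2]⟩
  have hshift : ∀ t : F, ∑ h ∈ monics n, ∏ β ∈ B, χ β (h.eval β) =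
      ∑ h ∈ monics n, ∏ β ∈ B, χ β ((h + C t * w).eval β) := by
    intro t
    symm
    refine sum_bij' (fun h _ => h + C t * w) (fun h _ => h + C (-t) * w) (fun h hh => hmem t h hh)
      (fun h hh => hmem (-t) h hh) ?_ ?_ ?_
    · intro h _; simp
    · intro h _; simp
    · intro h _; rfl
  have hsum : ∑ t : F, ∑ h ∈ monics n, ∏ β ∈ B, χ β ((h + C t * w).eval β) = 0 := by
    rw [sum_comm]
    refine sum_eq_zero fun h _ => ?_
    have e1 : ∀ t : F, ∏ β ∈ B, χ β ((h + C t * w).eval β) =
        χ β0 (t * w.eval β0 + h.eval β0) * ∏ β ∈ B.erase β0, χ β (h.eval β) := by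
      intro t
      rw [← mul_prod_erase B _ h0]
      congr 1
      · simp [add_comm]
      · refine prod_congr rfl fun β hβ => ?_
        simp [hw1 β hβ]
    rw [sum_congr rfl fun t _ => e1 t, ← sum_mul]
    have e2 : ∑ t : F, χ β0 (t * w.eval β0 + h.eval β0) = ∑ t : F, χ β0 t :=
      ((Equiv.mulRight₀ _ hw0).trans (Equiv.addRight (h.eval β0))).sum_comp (fun t => χ β0 t)
    rw [e2, MulChar.sum_eq_zero_of_ne_one hχ, zero_mul]
  rw [← sum_congr rfl fun t _ => hshift t, sum_const, nsmul_eq_mul] at hsum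
  exact (mul_eq_zero.1 hsum).resolve_left (Nat.cast_ne_zero.2 Fintype.card_ne_zero)

end Pool.Agent.Lib.MP_3bfe94_nt
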