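import Mathlib

/-!
Non-vanishing of the auxiliary polynomial in the method of Stepanov (norm form argument).
-/

set_option autoImplicit false

open Polynomial Finset

namespace Pool.Agent.Lib.MP_3bfe94_nt

/-- matrix of multiplication by `∑ H i * Y ^ i` modulo `Y ^ e - w` -/
def Mat {R : Type} [CommRing R] {e : ℕ} (H : Fin e → R) (w : R) : Matrix (Fin e) (Fin e) R :=
  Matrix.of fun a b => ∑ i : Fin e,
    H i * (if (i : ℕ) + b = a then 1 else if (i : ℕ) + b = a + e then w else 0)

lemma Mat_key {R S : Type} [CommRing R] [CommRing S] (φ : R →+* S) {e : ℕ} (H : Fin e → R) (w : R)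
    (g : S) (hg : g ^ e = φ w) (b : Fin e) :
    ∑ a : Fin e, g ^ (a : ℕ) * φ (Mat H w a b) = (∑ i : Fin e, φ (H i) * g ^ (i : ℕ)) * g ^ (b : ℕ) := by
  simp only [Mat, Matrix.of_apply, map_sum, map_mul, Finset.mul_sum, Finset.sum_mul]
  rw [Finset.sum_comm]
  refine Finset.sum_congr rfl fun i _ => ?_
  have hi := i.2
  have hb := b.2
  by_cases h : (i : ℕ) + b < e
  · rw [Finset.sum_eq_single (⟨i + b, h⟩ : Fin e)]
    · simp [pow_add]; ring
    · intro a _ ha
      have h1 : ¬ (i : ℕ) + b = a := fun h' => ha (Fin.ext h'.symm)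
      have h2 : ¬ (i : ℕ) + b = a + e := by omega
      simp [h1, h2]
    · simp
  · rw [Finset.sum_eq_single (⟨i + b - e, by omega⟩ : Fin e)]
    · have h1 : ¬ (i : ℕ) + b = i + b - e := by omega
      have h2 : (i : ℕ) + b = i + b - e + e := by omega
      simp only [h1, if_false, ← h2, if_true]
      rw [← hg, mul_assoc, ← pow_add, mul_left_comm, ← pow_add, ← h2]
    · intro a _ ha
      have ha' := a.2
      have h1 : ¬ (i : ℕ) + b = a := by omega
      have h2 : ¬ (i : ℕ) + b = a + e := fun h' => ha (Fin.ext (by simp; omega))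
      simp [h1, h2]
    · simp

lemma Mat_map {R S : Type} [CommRing R] [CommRing S] (φ : R →+* S) {e : ℕ} (H : Fin e → R)
    (w : R) : φ (Mat H w).det = (Mat (fun i => φ (H i)) (φ w)).det := by
  rw [RingHom.map_det]
  congr 1
  ext a b
  simp only [Mat, RingHom.mapMatrix_apply, Matrix.map_apply, Matrix.of_apply, map_sum, map_mul]
  refine Finset.sum_congr rfl fun i _ => ?_
  split_ifs <;> simp

lemma Mat_det_zero {R : Type} [CommRing R] [IsDomain R] {e : ℕ} (he : 0 < e) (H : Fin e → R)
    (g : R) (h : ∑ i : Fin e, H i * g ^ (i : ℕ) = 0) : (Mat H (g ^ e)).det = 0 := by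
  rw [← Matrix.exists_vecMul_eq_zero_iff]
  refine ⟨fun a => g ^ (a : ℕ), fun h0 => ?_, ?_⟩
  · have := congrFun h0 ⟨0, he⟩
    simp at this
  · funext b
    have := Mat_key (RingHom.id R) H (g ^ e) g rfl b
    simp only [RingHom.id_apply, h, zero_mul] at this
    simpa [Matrix.vecMul, dotProduct] using this

variable {K : Type} [Field K]

lemma Mat_deg {e D W : ℕ} (H : Fin e → K[X]) (w : K[X]) (hH : ∀ i, (H i).natDegree ≤ D)
    (hw : w.natDegree ≤ W) : (Mat H w).det.natDegree ≤ e * (D + W) := by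
  have h1 : ∀ a b, (Mat H w a b).natDegree ≤ D + W := fun a b => by
    simp only [Mat, Matrix.of_apply]
    refine natDegree_sum_le_of_forall_le _ _ fun i _ => natDegree_mul_le.trans ?_
    refine Nat.add_le_add (hH i) ?_
    split_ifs
    · simp
    · exact hw
    · simp
  rw [Matrix.det_apply']
  refine natDegree_sum_le_of_forall_le _ _ fun σ _ => natDegree_mul_le.trans ?_
  rw [natDegree_intCast, zero_add]
  refine (natDegree_prod_le _ _).trans ?_
  refine (Finset.sum_le_card_nsmul _ _ _ fun i _ => h1 _ _).trans ?_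
  simp

lemma rootMult_pow {f : K[X]} (hf : f ≠ 0) (β : K) (n : ℕ) :
    rootMultiplicity β (f ^ n) = n * rootMultiplicity β f := by
  induction n with
  | zero => simp
  | succ n ih => rw [pow_succ, rootMultiplicity_mul (mul_ne_zero (pow_ne_zero _ hf) hf), ih]; ring

/-- independence of the powers of a root of `Y ^ e = w` -/
lemma indep (L S : Type) [Field L] [Field S] [Algebra K[X] L] [IsFractionRing K[X] L]
    [Algebra L S] [Algebra K[X] S] [IsScalarTower K[X] L S] [IsAlgClosed S]
    [Algebra.IsAlgebraic L S] {e : ℕ} (w : K[X]) (hw : w ≠ 0)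
    (hH : ∀ r, (∀ β : K, e ∣ r * rootMultiplicity β w) → e ∣ r)
    (y : S) (hy : y ^ e = algebraMap K[X] S w) (k : Fin e → K[X])
    (h : ∑ i : Fin e, algebraMap K[X] S (k i) * y ^ (i : ℕ) = 0) : k = 0 := by
  classical
  by_contra hk
  obtain ⟨i0, hi0⟩ := Function.ne_iff.1 hk
  have hinj : Function.Injective (algebraMap K[X] L) := IsFractionRing.injective _ _
  let A : L[X] := ∑ i : Fin e, monomial i (algebraMap K[X] L (k i))
  have hA0 : A ≠ 0 := by
    intro h0
    have := congrArg (fun P => coeff P i0) h0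
    simp only [A, finsetSum_coeff, coeff_monomial, coeff_zero] at this
    rw [Finset.sum_eq_single i0] at this
    · simp only [if_true] at this
      exact hi0 ((map_eq_zero_iff _ hinj).1 this)
    · intro b _ hb
      rw [if_neg (fun h' => hb (Fin.ext h'))]
    · simp
  have hAy : aeval y A = 0 := by
    rw [← h]
    simp only [A, map_sum, aeval_monomial]
    refine Finset.sum_congr rfl fun i _ => ?_
    rw [← IsScalarTower.algebraMap_apply]
  have hAd : A.natDegree < e := by
    have he : 0 < e := lt_of_le_of_lt (Nat.zero_le _) i0.2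
    have : A.natDegree ≤ e - 1 := natDegree_sum_le_of_forall_le _ _ fun i _ =>
      (natDegree_monomial_le _).trans (by have := i.2; omega)
    omega
  have hint : IsIntegral L y := Algebra.IsIntegral.isIntegral y
  set μ := minpoly L y
  have hr : μ.natDegree < e :=
    lt_of_le_of_lt (natDegree_le_of_dvd (minpoly.dvd L y hAy) hA0) hAd
  have hr0 : 0 < μ.natDegree := minpoly.natDegree_pos hint
  have hdvd : μ ∣ X ^ e - C (algebraMap K[X] L w) := by
    refine minpoly.dvd L y ?_
    rw [map_sub, map_pow, aeval_X, aeval_C, hy, ← IsScalarTower.algebraMap_apply, sub_self]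
  have hm : (μ.map (algebraMap L S)).Monic := (minpoly.monic hint).map _
  have hs : (μ.map (algebraMap L S)).Splits := IsAlgClosed.splits _
  have hc := hs.coeff_zero_eq_prod_roots_of_monic hm
  have hroot : ∀ ρ ∈ (μ.map (algebraMap L S)).roots, ρ ^ e = algebraMap K[X] S w := by
    intro ρ hρ
    have h1 : aeval ρ μ = 0 := by
      have := (mem_roots hm.ne_zero).1 hρ
      rwa [IsRoot.def, eval_map_algebraMap] at this
    have h2 := aeval_eq_zero_of_dvd_aeval_eq_zero hdvd h1
    rw [map_sub, map_pow, aeval_X, aeval_C, ← IsScalarTower.algebraMap_apply, sub_eq_zero] at h2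
    exact h2
  have hcard : (μ.map (algebraMap L S)).roots.card = μ.natDegree := by
    rw [← hs.natDegree_eq_card_roots, natDegree_map]
  have hprod : (μ.map (algebraMap L S)).roots.prod ^ e = algebraMap K[X] S w ^ μ.natDegree := by
    have := Multiset.prod_map_pow (m := (μ.map (algebraMap L S)).roots) (f := id) (n := e)
    simp only [id, Multiset.map_id'] at this
    rw [← this, Multiset.map_congr rfl hroot, Multiset.map_const', Multiset.prod_replicate, hcard]
  rw [natDegree_map, coeff_map] at hc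
  set r := μ.natDegree
  have h1 : ((-1) ^ r * μ.coeff 0) ^ e = algebraMap K[X] L w ^ r := by
    apply (algebraMap L S).injective
    rw [map_pow, map_mul, hc, map_pow, map_pow, map_neg, map_one, ← mul_assoc, ← mul_pow,
      ← IsScalarTower.algebraMap_apply, ← hprod]
    simp
  obtain ⟨a, b, hb, hab⟩ := IsFractionRing.div_surjective (A := K[X]) ((-1) ^ r * μ.coeff 0)
  have hb0 : b ≠ 0 := nonZeroDivisors.ne_zero hb
  have hb1 : algebraMap K[X] L b ≠ 0 := fun h0 => hb0 ((map_eq_zero_iff _ hinj).1 h0)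
  have h2 : a ^ e = w ^ r * b ^ e := by
    apply hinj
    rw [map_mul, map_pow, map_pow, map_pow, ← h1, ← hab, div_pow,
      div_mul_cancel₀ _ (pow_ne_zero _ hb1)]
  have h3 : w ^ r * b ^ e ≠ 0 := mul_ne_zero (pow_ne_zero _ hw) (pow_ne_zero _ hb0)
  have ha0 : a ≠ 0 := by
    intro h0
    rw [h0, zero_pow (by omega)] at h2
    exact h3 h2.symm
  have h4 : e ∣ r := hH r fun β => by
    have := congrArg (rootMultiplicity β) h2
    rw [rootMultiplicity_mul h3, rootMult_pow ha0, rootMult_pow hw, rootMult_pow hb0] at this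
    exact (Nat.dvd_add_left (Dvd.intro _ rfl)).1 (this ▸ Dvd.intro _ rfl)
  exact absurd (Nat.le_of_dvd hr0 h4) (by omega)

lemma eq_zero_of_det {e : ℕ} (he : 0 < e) (w : K[X]) (hw : w ≠ 0)
    (hH : ∀ r, (∀ β : K, e ∣ r * rootMultiplicity β w) → e ∣ r)
    (k : Fin e → K[X]) (h : (Mat k w).det = 0) : k = 0 := by
  obtain ⟨v, hv, hMv⟩ := Matrix.exists_mulVec_eq_zero_iff.2 h
  obtain ⟨y, hy⟩ := IsAlgClosed.exists_pow_nat_eq
    (algebraMap K[X] (AlgebraicClosure (FractionRing K[X])) w) he
  set φ := algebraMap K[X] (AlgebraicClosure (FractionRing K[X]))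
  have h1 : (∑ i : Fin e, φ (k i) * y ^ (i : ℕ)) * (∑ i : Fin e, φ (v i) * y ^ (i : ℕ)) = 0 := by
    rw [Finset.mul_sum]
    have : ∀ b : Fin e, (∑ i : Fin e, φ (k i) * y ^ (i : ℕ)) * (φ (v b) * y ^ (b : ℕ))
        = ∑ a : Fin e, y ^ (a : ℕ) * φ (Mat k w a b * v b) := fun b => by
      rw [mul_left_comm, ← Mat_key φ k w y hy b, Finset.mul_sum]
      exact Finset.sum_congr rfl fun a _ => by rw [map_mul]; ring
    simp_rw [this]
    rw [Finset.sum_comm]
    refine Finset.sum_eq_zero fun a _ => ?_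
    rw [← Finset.mul_sum, ← map_sum]
    have := congrFun hMv a
    simp only [Matrix.mulVec, dotProduct, Pi.zero_apply] at this
    rw [this, map_zero, mul_zero]
  rcases mul_eq_zero.1 h1 with h2 | h2
  · exact indep (FractionRing K[X]) _ w hw hH y hy k h2
  · exact absurd (indep (FractionRing K[X]) _ w hw hH y hy v h2) hv

/-- one step of the non-vanishing argument -/
lemma nonvan_step {e D W : ℕ} (he : 0 < e) (w G Q : K[X]) (hw : w ≠ 0)
    (hH : ∀ r, (∀ β : K, e ∣ r * rootMultiplicity β w) → e ∣ r) (hW : w.natDegree ≤ W)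
    (hG : Q ∣ G ^ e - w) (hQ : e * (D + W) < Q.natDegree) (k H : Fin e → K[X])
    (hk : ∀ i, (k i).natDegree ≤ D) (hkH : ∀ i, Q ∣ H i - k i)
    (h : ∑ i : Fin e, H i * G ^ (i : ℕ) = 0) : k = 0 := by
  refine eq_zero_of_det he w hw hH k ?_
  have h1 := Mat_det_zero he H G h
  let π := Ideal.Quotient.mk (Ideal.span {Q})
  have hπ : ∀ a b : K[X], Q ∣ a - b → π a = π b := fun a b hab =>
    Ideal.Quotient.eq.2 (Ideal.mem_span_singleton.2 hab)
  have h2 : π (Mat k w).det = 0 := by
    rw [Mat_map, ← hπ _ _ hG, ← funext fun i => hπ _ _ (hkH i), ← Mat_map, h1, map_zero]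
  have h3 : Q ∣ (Mat k w).det :=
    Ideal.mem_span_singleton.1 (Ideal.Quotient.eq_zero_iff_mem.1 h2)
  by_contra h0
  have := natDegree_le_of_dvd h3 h0
  have := Mat_deg k w hk hW
  omega

lemma nonvan {e D W : ℕ} (he : 0 < e) (w G Q : K[X]) (hw : w ≠ 0)
    (hH : ∀ r, (∀ β : K, e ∣ r * rootMultiplicity β w) → e ∣ r) (hW : w.natDegree ≤ W)
    (hG : Q ∣ G ^ e - w) (hQ : e * (D + W) < Q.natDegree) (J : ℕ) :
    ∀ k : ℕ → Fin e → K[X], (∀ j i, (k j i).natDegree ≤ D) →
      ∑ j ∈ range J, ∑ i : Fin e, k j i * G ^ (i : ℕ) * Q ^ j = 0 → ∀ j < J, k j = 0 := by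
  have hQ0 : Q ≠ 0 := by
    rintro rfl
    simp at hQ
  induction J with
  | zero => intro k _ _ j hj; omega
  | succ J ih =>
    intro k hk h
    have h0 : k 0 = 0 := by
      refine nonvan_step he w G Q hw hH hW hG hQ (k 0)
        (fun i => ∑ j ∈ range (J + 1), k j i * Q ^ j) (hk 0) (fun i => ?_) ?_
      · rw [Finset.sum_range_succ', pow_zero, mul_one, add_sub_cancel_right]
        exact Finset.dvd_sum fun j _ => Dvd.dvd.mul_left (dvd_pow_self _ (by omega)) _
      · rw [← h, Finset.sum_comm]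
        refine Finset.sum_congr rfl fun i _ => ?_
        rw [Finset.sum_mul]
        exact Finset.sum_congr rfl fun j _ => by ring
    rw [Finset.sum_range_succ', h0] at h
    simp only [Pi.zero_apply, zero_mul, Finset.sum_const_zero, add_zero, pow_succ,
      ← mul_assoc, ← Finset.sum_mul] at h
    have h1 := (mul_eq_zero.1 h).resolve_right hQ0
    have h2 := ih (fun j => k (j + 1)) (fun j i => hk _ i) (by
      simpa only [Finset.sum_mul] using h1)
    intro j hj
    rcases j with _ | j
    · exact h0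
    · exact h2 j (by omega)

end Pool.Agent.Lib.MP_3bfe94_nt
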