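import Pool.Agent.Lib.MP_3bfe94_nt.Nonvan

/-!
The method of Stepanov: upper bound for the number of `a` with `f(a) ^ ((q-1)/e) = ζ`.
-/

set_option autoImplicit false

open Polynomial Finset

namespace Pool.Agent.Lib.MP_3bfe94_nt

variable {K : Type} [Field K]

lemma hasse_dvd (f k : K[X]) (N : ℕ) : ∀ l, f ^ (N - l) ∣ hasseDeriv l (k * f ^ N) := by
  induction N with
  | zero => intro l; simp
  | succ N ih =>
    intro l
    rw [pow_succ, ← mul_assoc, hasseDeriv_mul]
    refine Finset.dvd_sum fun ij hij => ?_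
    have hs : ij.1 + ij.2 = l := mem_antidiagonal.1 hij
    rcases Nat.eq_zero_or_pos ij.2 with h0 | h0
    · rw [h0, hasseDeriv_zero']
      have h1 : N + 1 - l ≤ N - ij.1 + 1 := by omega
      exact (pow_dvd_pow f h1).trans (by rw [pow_succ]; exact mul_dvd_mul_right (ih _) _)
    · have h1 : N + 1 - l ≤ N - ij.1 := by omega
      exact ((pow_dvd_pow f h1).trans (ih _)).mul_right _

lemma pow_dvd_of_hasse (F : K[X]) (a : K) (M : ℕ)
    (h : ∀ l < M, (hasseDeriv l F).eval a = 0) : (X - C a) ^ M ∣ F := by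
  have h1 : X ^ M ∣ taylor a F := X_pow_dvd_iff.2 fun l hl => by rw [taylor_coeff, h l hl]
  obtain ⟨Q, hQ⟩ := h1
  have h2 := congrArg (taylor (-a)) hQ
  rw [taylor_taylor, neg_add_cancel, taylor_zero, taylor_mul, taylor_X_pow, C_neg,
    ← sub_eq_add_neg] at h2
  exact Dvd.intro _ h2.symm

lemma exists_rel {U : Type} [Fintype U] (M D : ℕ) (P : U → Fin M → K[X])
    (hP : ∀ u l, (P u l).natDegree < D) (hc : M * D < Fintype.card U) :
    ∃ κ : U → K, κ ≠ 0 ∧ ∀ l, ∑ u, C (κ u) * P u l = 0 := by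
  classical
  let A : Matrix (Fin M × Fin D) U K := Matrix.of fun ls u => (P u ls.1).coeff ls.2
  have h1 : LinearMap.ker A.mulVecLin ≠ ⊥ := LinearMap.ker_ne_bot_of_finrank_lt (by
    simpa [Module.finrank_pi] using hc)
  obtain ⟨κ, hκ, h0⟩ := (Submodule.ne_bot_iff _).1 h1
  refine ⟨κ, h0, fun l => ?_⟩
  ext s
  rw [finsetSum_coeff, coeff_zero]
  by_cases hs : s < D
  · have := congrFun (LinearMap.mem_ker.1 hκ) (l, ⟨s, hs⟩)
    simp only [Matrix.mulVecLin_apply, Matrix.mulVec, dotProduct, A, Matrix.of_apply,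
      Pi.zero_apply] at this
    rw [← this]
    exact Finset.sum_congr rfl fun u _ => by rw [coeff_C_mul, mul_comm]
  · refine Finset.sum_eq_zero fun u _ => ?_
    rw [coeff_C_mul, coeff_eq_zero_of_natDegree_lt (by have := hP u l; omega), mul_zero]

lemma card_mul_le_natDegree (h : K[X]) (h0 : h ≠ 0) (Z : Finset K) (M : ℕ)
    (hZ : ∀ a ∈ Z, (X - C a) ^ M ∣ h) : Z.card * M ≤ h.natDegree := by
  classical
  have h1 : ∀ a ∈ Z, M ≤ h.roots.count a := fun a ha => by
    rw [count_roots]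
    exact (le_rootMultiplicity_iff h0).2 (hZ a ha)
  have h2 : Z.card * M ≤ ∑ a ∈ Z, h.roots.count a := by
    simpa using Finset.card_nsmul_le_sum Z _ M h1
  refine h2.trans (le_trans ?_ (card_roots' h))
  rw [← Multiset.toFinset_sum_count_eq]
  calc ∑ a ∈ Z, h.roots.count a = ∑ a ∈ Z ∩ h.roots.toFinset, h.roots.count a := by
        refine (Finset.sum_subset Finset.inter_subset_left fun a ha hb => ?_).symm
        refine Multiset.count_eq_zero_of_notMem fun hc => hb ?_
        exact Finset.mem_inter.2 ⟨ha, Multiset.mem_toFinset.2 hc⟩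
    _ ≤ _ := Finset.sum_le_sum_of_subset Finset.inter_subset_right

lemma frob_dvd [Fintype K] (F : K[X]) (a : K) :
    (X - C a) ^ Fintype.card K ∣ F ^ Fintype.card K - C (F.eval a) := by
  obtain ⟨p, hp⟩ := CharP.exists K
  obtain ⟨n, hpp, hn⟩ := FiniteField.card K p
  have : Fact p.Prime := ⟨hpp⟩
  have h1 := pow_dvd_pow_of_dvd (X_sub_C_dvd_sub_C_eval (a := a) (p := F)) (Fintype.card K)
  have h2 : (F - C (F.eval a)) ^ Fintype.card K = F ^ Fintype.card K - C (F.eval a) := by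
    conv_rhs => rw [← FiniteField.pow_card (F.eval a), C_pow]
    rw [hn, sub_pow_char_pow]
  rwa [h2] at h1

/-- the construction -/
lemma stepanov_core [Fintype K] {e m n D M J : ℕ} (he : 0 < e) (f : K[X]) (hf : f.Monic)
    (hm : f.natDegree = m) (hn : e * n + 1 = Fintype.card K) (hD : D + m * e = n)
    (hM : M ≤ Fintype.card K) (x0 : K) (hx0 : f.eval x0 ≠ 0)
    (hH : ∀ r, (∀ β : K, e ∣ r * rootMultiplicity β f) → e ∣ r)
    (hc : M * (J + n + M * m + 1) < J * (e * (D + 1))) (ζ : K) (Z : Finset K)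
    (hZ : ∀ a ∈ Z, f.eval a ^ n = ζ) :
    Z.card * M ≤ D + m * M + m * ((n + 1) * e) + Fintype.card K * J := by
  classical
  set q := Fintype.card K with hq
  set T : K[X] := X - C x0 with hT
  have hTd : T.natDegree = 1 := natDegree_X_sub_C x0
  have hTm : T.Monic := monic_X_sub_C x0
  let b : ℕ → ℕ → ℕ → K[X] := fun l i s =>
    hasseDeriv l (X ^ s * f ^ (M + (n + 1) * i)) /ₘ f ^ (M + (n + 1) * i - l)
  have hb : ∀ l i s, f ^ (M + (n + 1) * i - l) * b l i s
      = hasseDeriv l (X ^ s * f ^ (M + (n + 1) * i)) := fun l i s => by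
    have h1 := modByMonic_add_div (hasseDeriv l (X ^ s * f ^ (M + (n + 1) * i)))
      (f ^ (M + (n + 1) * i - l))
    rw [(modByMonic_eq_zero_iff_dvd (hf.pow _)).2 (hasse_dvd f _ _ l), zero_add] at h1
    exact h1
  have hbd : ∀ l i s, l ≤ M → (b l i s).natDegree ≤ s + l * m := fun l i s hl => by
    simp only [b]
    rw [natDegree_divByMonic _ (hf.pow _), hf.natDegree_pow, hm]
    have h1 := natDegree_hasseDeriv_le (X ^ s * f ^ (M + (n + 1) * i)) l
    have h2 : (X ^ s * f ^ (M + (n + 1) * i) : K[X]).natDegree ≤ s + (M + (n + 1) * i) * m := by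
      refine natDegree_mul_le.trans ?_
      rw [natDegree_X_pow, hf.natDegree_pow, hm]
    have h3 : (M + (n + 1) * i) * m = (M + (n + 1) * i - l) * m + l * m := by
      rw [← add_mul]; congr 1; omega
    omega
  obtain ⟨κ, hκ0, hκ⟩ := exists_rel (K := K) (U := Fin J × Fin e × Fin (D + 1)) M
    (J + n + M * m + 1)
    (fun u l => T ^ (u.1 : ℕ) * (C ζ * f) ^ (u.2.1 : ℕ) * b l u.2.1 u.2.2) (fun u l => by
      have h1 : (T ^ (u.1 : ℕ)).natDegree ≤ J := by
        rw [hTm.natDegree_pow, hTd, mul_one]; exact u.1.2.le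
      have h2 : ((C ζ * f) ^ (u.2.1 : ℕ)).natDegree ≤ m * e := by
        refine natDegree_pow_le.trans ?_
        rw [mul_comm m]
        exact Nat.mul_le_mul u.2.1.2.le ((natDegree_C_mul_le _ _).trans hm.le)
      have h3 := hbd l u.2.1 u.2.2 l.2.le
      have h4 : (l : ℕ) * m ≤ M * m := Nat.mul_le_mul_right _ l.2.le
      have h5 := u.2.2.2
      have h6 := natDegree_mul_le (p := T ^ (u.1 : ℕ) * (C ζ * f) ^ (u.2.1 : ℕ))
        (q := b l u.2.1 u.2.2)
      have h7 := natDegree_mul_le (p := T ^ (u.1 : ℕ)) (q := (C ζ * f) ^ (u.2.1 : ℕ))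
      omega) (by simpa using hc)
  let h : K[X] := ∑ u : Fin J × Fin e × Fin (D + 1),
    C (κ u) * ((T ^ q) ^ (u.1 : ℕ) * (X ^ (u.2.2 : ℕ) * f ^ (M + (n + 1) * u.2.1)))
  have hdeg : h.natDegree ≤ D + m * M + m * ((n + 1) * e) + q * J := by
    refine natDegree_sum_le_of_forall_le _ _ fun u _ => (natDegree_C_mul_le _ _).trans ?_
    refine natDegree_mul_le.trans ?_
    have h1 : ((T ^ q) ^ (u.1 : ℕ)).natDegree ≤ q * J := by
      rw [(hTm.pow _).natDegree_pow, hTm.natDegree_pow, hTd, mul_one, mul_comm]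
      exact Nat.mul_le_mul_left _ u.1.2.le
    have h2 := natDegree_mul_le (p := (X ^ (u.2.2 : ℕ) : K[X])) (q := f ^ (M + (n + 1) * u.2.1))
    rw [natDegree_X_pow, hf.natDegree_pow, hm] at h2
    have h3 := u.2.2.2
    have h4 : (M + (n + 1) * (u.2.1 : ℕ)) * m ≤ m * M + m * ((n + 1) * e) := by
      rw [← mul_add, mul_comm m]
      exact Nat.mul_le_mul_right _ (Nat.add_le_add_left (Nat.mul_le_mul_left _ u.2.1.2.le) _)
    omega
  have h0 : h ≠ 0 := by
    intro h0
    let k : ℕ → Fin e → K[X] := fun j i =>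
      if hj : j < J then ∑ s : Fin (D + 1), monomial s (κ (⟨j, hj⟩, i, s)) else 0
    have hw0 : C (f.eval x0) * f ^ (e - 1) ≠ 0 :=
      mul_ne_zero (C_ne_zero.2 hx0) (pow_ne_zero _ hf.ne_zero)
    have hk := nonvan (D := D) (W := m * e) he (C (f.eval x0) * f ^ (e - 1)) (f ^ (n + 1)) (T ^ q)
      hw0 (fun r hr => hH r fun β => by
        have := hr β
        rw [rootMultiplicity_mul hw0, rootMultiplicity_C, zero_add, rootMult_pow hf.ne_zero] at this
        have h2 : r * (e * rootMultiplicity β f)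
            = r * ((e - 1) * rootMultiplicity β f) + r * rootMultiplicity β f := by
          obtain ⟨e', rfl⟩ : ∃ e', e = e' + 1 := ⟨e - 1, by omega⟩
          simp; ring
        exact (Nat.dvd_add_right this).1 (h2 ▸ Dvd.intro (r * rootMultiplicity β f) (by ring)))
      (by
        refine (natDegree_C_mul_le _ _).trans ?_
        rw [hf.natDegree_pow, hm, mul_comm]
        exact Nat.mul_le_mul_left _ (Nat.sub_le _ _))
      (by
        have h1 : (f ^ (n + 1)) ^ e = f ^ q * f ^ (e - 1) := by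
          rw [← pow_mul, ← pow_add]
          congr 1
          rw [← hn, add_mul, mul_comm n e]
          omega
        rw [h1, ← sub_mul]
        exact (frob_dvd f x0).mul_right _)
      (by rw [hTm.natDegree_pow, hTd, hD]; omega) J k (fun j i => by
        simp only [k]
        split_ifs
        · exact natDegree_sum_le_of_forall_le _ _ fun s _ =>
            (natDegree_monomial_le _).trans (by have := s.2; omega)
        · simp) (by
        have h1 : f ^ M * ∑ j ∈ range J, ∑ i : Fin e, k j i * (f ^ (n + 1)) ^ (i : ℕ) * (T ^ q) ^ j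
            = h := by
          rw [Finset.sum_range, Finset.mul_sum]
          simp only [h]
          rw [Fintype.sum_prod_type]
          refine Finset.sum_congr rfl fun j _ => ?_
          rw [Fintype.sum_prod_type, Finset.mul_sum]
          refine Finset.sum_congr rfl fun i _ => ?_
          simp only [k, dif_pos j.2, Finset.sum_mul, Finset.mul_sum]
          refine Finset.sum_congr rfl fun s _ => ?_
          rw [← C_mul_X_pow_eq_monomial, pow_add f M, pow_mul f (n + 1)]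
          simp only [Fin.eta]
          ring
        rw [h0] at h1
        exact (mul_eq_zero.1 h1).resolve_left (pow_ne_zero _ hf.ne_zero))
    apply hκ0
    funext ⟨j, i, s⟩
    have h1 := congrArg (fun P => coeff P s) (congrFun (hk j j.2) i)
    simp only [k, dif_pos j.2, finsetSum_coeff, coeff_monomial, Pi.zero_apply, coeff_zero] at h1
    rw [Finset.sum_eq_single s] at h1
    · simpa using h1
    · intro s' _ hs
      rw [if_neg (fun h' => hs (Fin.ext h'))]
    · simp
  refine (card_mul_le_natDegree h h0 Z M fun a ha => ?_).trans hdeg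
  let h' : K[X] := ∑ u : Fin J × Fin e × Fin (D + 1),
    C (κ u) * (C (T.eval a) ^ (u.1 : ℕ) * (X ^ (u.2.2 : ℕ) * f ^ (M + (n + 1) * u.2.1)))
  have h1 : (X - C a) ^ M ∣ h - h' := by
    simp only [h, h']
    rw [← Finset.sum_sub_distrib]
    refine Finset.dvd_sum fun u _ => ?_
    rw [← mul_sub, ← sub_mul]
    refine Dvd.dvd.mul_left (Dvd.dvd.mul_right ?_ _) _
    exact ((pow_dvd_pow _ hM).trans (frob_dvd T a)).trans (sub_dvd_pow_sub_pow _ _ _)
  have h2 : (X - C a) ^ M ∣ h' := by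
    refine pow_dvd_of_hasse _ _ _ fun l hl => ?_
    have h3 := congrArg (eval a) (hκ ⟨l, hl⟩)
    simp only [eval_finsetSum, eval_mul, eval_C, eval_pow, eval_zero] at h3
    simp only [h', map_sum, eval_finsetSum]
    rw [← mul_zero (f.eval a ^ (M - l)), ← h3, Finset.mul_sum]
    refine Finset.sum_congr rfl fun u _ => ?_
    rw [← C_pow, ← mul_assoc, ← C_mul, ← smul_eq_C_mul, map_smul, ← hb, eval_smul, eval_mul,
      eval_pow, ← hZ a ha, ← pow_succ, ← pow_mul,
      show M + (n + 1) * (u.2.1 : ℕ) - l = M - l + (n + 1) * u.2.1 by omega, pow_add, smul_eq_mul]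
    ring
  simpa using dvd_add h1 h2

theorem stepanov (e m : ℕ) (he : 0 < e) : ∃ C q0 : ℕ, ∀ (K : Type) [Field K] [Fintype K]
    (f : K[X]) (n : ℕ), f.Monic → f.natDegree = m → e * n + 1 = Fintype.card K →
    q0 ≤ Fintype.card K → (∀ r, (∀ β : K, e ∣ r * rootMultiplicity β f) → e ∣ r) →
    ∀ (ζ : K) (Z : Finset K), (∀ a ∈ Z, f.eval a ^ n = ζ) →
      e * Z.card ≤ Fintype.card K + C * Nat.sqrt (Fintype.card K) := by
  obtain ⟨C0, hC0⟩ : ∃ C0, C0 = 2 * e * m + 10 := ⟨_, rfl⟩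
  obtain ⟨E, hE⟩ : ∃ E, E = e * (m * e) := ⟨_, rfl⟩
  obtain ⟨M0, hM0⟩ : ∃ M0, M0 = E + C0 * e + e + m + 2 := ⟨_, rfl⟩
  refine ⟨4 * (1 + 3 * (e * m) + C0 * e), M0 * M0, fun K _ _ f n hf hm hn hq hH ζ Z hZ => ?_⟩
  obtain ⟨q, hqd⟩ : ∃ q, q = Fintype.card K := ⟨_, rfl⟩
  obtain ⟨M, hM⟩ : ∃ M, M = Nat.sqrt q := ⟨_, rfl⟩
  rw [← hqd] at hq ⊢
  rw [← hM]
  have h1 : M * M ≤ q := hM ▸ Nat.sqrt_le q
  have h2 : q < (M + 1) * (M + 1) := hM ▸ Nat.lt_succ_sqrt q
  have h3 : M0 ≤ M := hM ▸ Nat.le_sqrt.2 hq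
  have hM2 : 2 ≤ M := by omega
  have h4 : 2 * M ≤ q := le_trans (Nat.mul_le_mul_right _ hM2) h1
  have hq4 : q ≤ 4 * (M * M) := by nlinarith
  have hen : e * n + 1 = q := hn.trans hqd.symm
  have hmn : m * e ≤ n := by
    refine Nat.le_of_mul_le_mul_left ?_ he
    rw [← hE]; omega
  obtain ⟨D, hD⟩ : ∃ D, D + m * e = n := ⟨n - m * e, by omega⟩
  obtain ⟨x0, hx0⟩ : ∃ x0, f.eval x0 ≠ 0 := by
    refine exists_eval_ne_zero_of_natDegree_lt_card f hf.ne_zero ?_
    rw [Cardinal.mk_fintype, hm, ← hqd]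
    exact_mod_cast (by omega : m < q)
  obtain ⟨J, hJ⟩ : ∃ J, J = M / e + C0 := ⟨_, rfl⟩
  have hJ1 : e * J ≤ M + C0 * e := by
    have := Nat.mul_div_le M e
    rw [hJ, mul_add, mul_comm e C0]; omega
  have hJ2 : M + (2 * e * m + 9) * e ≤ e * J := by
    have := Nat.lt_mul_div_succ M he
    rw [hJ, hC0]; nlinarith
  have hD1 : e * (D + 1) + E = q - 1 + e := by
    rw [← hen, ← hD, hE]; simp; ring
  have hD2 : q ≤ e * (D + 1) + E := by omega
  have hc : M * (J + n + M * m + 1) < J * (e * (D + 1)) := by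
    refine Nat.lt_of_mul_lt_mul_left (a := e) ?_
    obtain ⟨R, hR⟩ : ∃ R, R = e * (D + 1) := ⟨_, rfl⟩
    rw [← hR] at hD2 ⊢
    have a1 : M * (C0 * e) ≤ q := le_trans (Nat.mul_le_mul_left _ (by omega)) h1
    have a2 : M * e ≤ q := le_trans (Nat.mul_le_mul_left _ (by omega)) h1
    have a3 : M * E ≤ q := le_trans (Nat.mul_le_mul_left _ (by omega)) h1
    have a4 : q ≤ 2 * R := by omega
    have a5 : e * m * (M * M) ≤ e * m * q := Nat.mul_le_mul_left _ h1
    have a6 : M * (e * J) ≤ M * (M + C0 * e) := Nat.mul_le_mul_left _ hJ1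
    have a7 : (M + (2 * e * m + 9) * e) * R ≤ e * J * R := Nat.mul_le_mul_right _ hJ2
    have a8 : M * q ≤ M * (R + E) := Nat.mul_le_mul_left _ hD2
    have a9 : (2 * e * m + 9) * R ≤ (2 * e * m + 9) * e * R :=
      Nat.mul_le_mul_right _ (Nat.le_mul_of_pos_right _ he)
    have a10 : e * m * q ≤ e * m * (2 * R) := Nat.mul_le_mul_left _ a4
    have a11 : M * (e * n) ≤ M * q := Nat.mul_le_mul_left _ (by omega)
    have e1 : e * (M * (J + n + M * m + 1))
        = M * (e * J) + M * (e * n) + e * m * (M * M) + M * e := by ring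
    rw [e1, ← mul_assoc e J R]
    have hR0 : 0 < R := by omega
    linarith
  have h := stepanov_core he f hf hm hn hD (by omega) x0 hx0 hH hc ζ Z hZ
  rw [← hqd] at h
  refine Nat.le_of_mul_le_mul_right ?_ (by omega : 0 < M)
  have b1 := Nat.mul_le_mul_left e h
  have b2 : e * D ≤ q := le_trans (Nat.mul_le_mul_left _ (by omega : D ≤ n)) (by omega)
  have b3 : e * m * M ≤ e * m * q := Nat.mul_le_mul_left _ (by omega)
  have b4 : e * m * (e * n + e) ≤ e * m * (2 * q) := Nat.mul_le_mul_left _ (by omega)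
  have b5 : q * (e * J) ≤ q * (M + C0 * e) := Nat.mul_le_mul_left _ hJ1
  have b6 : (1 + 3 * (e * m) + C0 * e) * q ≤ (1 + 3 * (e * m) + C0 * e) * (4 * (M * M)) :=
    Nat.mul_le_mul_left _ hq4
  linarith

end Pool.Agent.Lib.MP_3bfe94_nt
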