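import Pool.Agent.Lib.MP_3bfe94_nt.Step
import Pool.Agent.Lib.MP_3bfe94_nt.LiftA
import Pool.Agent.Lib.MP_3bfe94_nt.LiftB

/-!
The bound of Weil for sums of products of multiplicative characters at shifted arguments.
-/

set_option autoImplicit false

open Polynomial Finset

namespace Pool.Agent.Lib.MP_3bfe94_nt

lemma norm_mulChar_eq {K : Type} [Field K] [Fintype K] (χ : MulChar K ℂ) {z : K} (hz : z ≠ 0) :
    ‖χ z‖ = 1 := by
  have h1 : χ z ^ (Fintype.card K - 1) = 1 := by
    rw [← map_pow, FiniteField.pow_card_sub_one_eq_one z hz, map_one]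
  exact Complex.norm_eq_one_of_pow_eq_one h1 (Nat.sub_ne_zero_of_lt Fintype.one_lt_card)

lemma norm_mulChar_le {K : Type} [Field K] [Fintype K] (χ : MulChar K ℂ) (z : K) :
    ‖χ z‖ ≤ 1 := by
  rcases eq_or_ne z 0 with rfl | hz
  · rw [MulChar.map_zero, norm_zero]; exact zero_le_one
  · exact (norm_mulChar_eq χ hz).le

lemma sum_char_poly_le {K : Type} [Field K] [Fintype K] (lam : MulChar K ℂ) (h1 : lam ≠ 1)
    (e n D : ℕ) (hlam : lam ^ e = 1) (hn : e * n + 1 = Fintype.card K) (f : K[X]) (hf : f ≠ 0)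
    (hZ : ∀ (ζ : K) (Z : Finset K), (∀ a ∈ Z, f.eval a ^ n = ζ) →
      e * Z.card ≤ Fintype.card K + D) :
    ‖∑ x : K, lam (f.eval x)‖ ≤ D + f.natDegree := by
  classical
  have hq : 1 < Fintype.card K := Fintype.one_lt_card
  have hen : 0 < e * n := by omega
  have he : 0 < e := Nat.pos_of_mul_pos_right hen
  have hn0 : 0 < n := Nat.pos_of_mul_pos_left hen
  obtain ⟨γ, hγ⟩ := IsCyclic.exists_ofOrder_eq_natCard (α := Kˣ)
  rw [Nat.card_units, Nat.card_eq_fintype_card, ← hn, Nat.add_sub_cancel] at hγ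
  have hprim : IsPrimitiveRoot (γ : K) (e * n) := by
    rw [← hγ, IsPrimitiveRoot.coe_units_iff]; exact IsPrimitiveRoot.orderOf γ
  have hprim' : IsPrimitiveRoot ((γ : K) ^ e) n := hprim.pow hen rfl
  have hW : (univ.filter fun w : K => w ^ n = 1).card = n := by
    refine Eq.trans ?_ hprim'.card_nthRootsFinset
    congr 1
    ext w
    simp [mem_nthRootsFinset hn0]
  have hW1 : ∀ w : K, w ^ n = 1 → lam w = 1 := by
    intro w hw
    have : NeZero n := ⟨hn0.ne'⟩
    obtain ⟨i, -, rfl⟩ := hprim'.eq_pow_of_pow_eq_one hw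
    rw [map_pow, map_pow, ← MulChar.pow_apply' _ he.ne', hlam, MulChar.one_apply_coe, one_pow]
  have hfib : ∀ y : K, y ≠ 0 → (univ.filter fun z : K => y ^ n = z ^ n).card = n := by
    intro y hy
    refine Eq.trans ?_ hW
    symm
    refine card_bij' (fun w _ => w * y) (fun z _ => z * y⁻¹) ?_ ?_ ?_ ?_
    · intro w hw
      simp only [mem_filter, mem_univ, true_and] at hw ⊢
      rw [mul_pow, hw, one_mul]
    · intro z hz
      simp only [mem_filter, mem_univ, true_and] at hz ⊢
      rw [mul_pow, ← hz, inv_pow, mul_inv_cancel₀ (pow_ne_zero _ hy)]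
    · intro w _; field_simp
    · intro z _; field_simp
  have hin : ∀ y : K, ∑ z : K with y ^ n = z ^ n, lam z = n * lam y := by
    intro y
    rcases eq_or_ne y 0 with rfl | hy
    · rw [MulChar.map_zero, mul_zero]
      refine sum_eq_zero fun z hz => ?_
      have := (mem_filter.1 hz).2
      rw [zero_pow hn0.ne'] at this
      rw [pow_eq_zero_iff hn0.ne' |>.1 this.symm, MulChar.map_zero]
    · rw [sum_congr rfl (g := fun _ => lam y), sum_const, hfib y hy, nsmul_eq_mul]
      intro z hz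
      have h2 := (mem_filter.1 hz).2
      have h3 : lam (z * y⁻¹) = 1 := hW1 _ (by
        rw [mul_pow, ← h2, inv_pow, mul_inv_cancel₀ (pow_ne_zero _ hy)])
      calc lam z = lam (z * y⁻¹ * y) := by congr 1; field_simp
        _ = lam y := by rw [map_mul, h3, one_mul]
  set N : K → ℕ := fun z => (univ.filter fun x : K => f.eval x ^ n = z ^ n).card with hN
  set M : ℝ := ((Fintype.card K : ℝ) + D) / e with hM
  have heR : (0 : ℝ) < e := by exact_mod_cast he
  have hnR : (0 : ℝ) < n := by exact_mod_cast hn0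
  have hNM : ∀ z, (N z : ℝ) ≤ M := by
    intro z
    rw [hM, le_div_iff₀ heR, mul_comm]
    exact_mod_cast hZ (z ^ n) _ fun a ha => (mem_filter.1 ha).2
  have hA : (n : ℂ) * ∑ x : K, lam (f.eval x) = ∑ z : K, lam z * ((N z : ℂ) - (M : ℂ)) := by
    simp only [mul_sub]
    rw [sum_sub_distrib, ← sum_mul, MulChar.sum_eq_zero_of_ne_one h1, zero_mul, sub_zero, mul_sum,
      sum_congr rfl fun x _ => (hin (f.eval x)).symm]
    simp only [sum_filter]
    rw [sum_comm]
    refine sum_congr rfl fun z _ => ?_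
    rw [← sum_filter, sum_const, nsmul_eq_mul, mul_comm]
  have hB : ∑ z ∈ univ.erase (0 : K), N z = n * (univ.filter fun x : K => f.eval x ≠ 0).card := by
    simp only [hN, card_filter]
    rw [sum_comm, mul_sum]
    refine sum_congr rfl fun x _ => ?_
    rw [← card_filter]
    split_ifs with hx
    · rw [mul_one]
      refine Eq.trans ?_ (hfib _ hx)
      congr 1
      ext z
      simp only [mem_filter, mem_erase, mem_univ, and_true, true_and, and_iff_right_iff_imp]
      rintro h rfl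
      rw [zero_pow hn0.ne'] at h
      exact hx (pow_eq_zero_iff hn0.ne' |>.1 h)
    · rw [mul_zero, card_eq_zero, filter_eq_empty_iff]
      intro z hz h
      rw [not_not.1 hx, zero_pow hn0.ne'] at h
      exact (ne_of_mem_erase hz) (pow_eq_zero_iff hn0.ne' |>.1 h.symm)
  have hC : Fintype.card K ≤ (univ.filter fun x : K => f.eval x ≠ 0).card + f.natDegree := by
    have h2 : (univ.filter fun x : K => ¬ f.eval x ≠ 0).card ≤ f.natDegree := by
      refine le_trans (card_le_card ?_) ((Multiset.toFinset_card_le _).trans (card_roots' f))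
      intro x hx
      rw [Multiset.mem_toFinset, mem_roots hf]
      exact not_not.1 (mem_filter.1 hx).2
    have := card_filter_add_card_filter_not (s := univ) (fun x : K => f.eval x ≠ 0)
    rw [card_univ] at this
    omega
  have hD : ‖∑ z : K, lam z * ((N z : ℂ) - (M : ℂ))‖ ≤ ∑ z ∈ univ.erase (0 : K), (M - N z) := by
    rw [← sum_erase (s := univ) (a := (0 : K)) (by rw [MulChar.map_zero, zero_mul])]
    refine (norm_sum_le _ _).trans (sum_le_sum fun z _ => ?_)
    rw [norm_mul]
    have h3 : ‖(N z : ℂ) - (M : ℂ)‖ = M - N z := by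
      rw [← Complex.ofReal_natCast, ← Complex.ofReal_sub, Complex.norm_real, Real.norm_eq_abs,
        abs_sub_comm, abs_of_nonneg (sub_nonneg.2 (hNM z))]
    rw [h3]
    exact mul_le_of_le_one_left (sub_nonneg.2 (hNM z)) (norm_mulChar_le _ _)
  rw [← hA, norm_mul, Complex.norm_natCast, sum_sub_distrib, sum_const, card_erase_of_mem
    (mem_univ _), card_univ, ← Nat.cast_sum, hB, ← hn, Nat.add_sub_cancel, nsmul_eq_mul] at hD
  have hE : ((e * n : ℕ) : ℝ) * M = n * (Fintype.card K + D) := by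
    rw [hM]; push_cast; field_simp
  rw [hE] at hD
  have hC' : (Fintype.card K : ℝ) ≤ (univ.filter fun x : K => f.eval x ≠ 0).card + f.natDegree := by
    exact_mod_cast hC
  push_cast at hD
  refine le_of_mul_le_mul_left (hD.trans ?_) hnR
  rw [← mul_sub]
  gcongr
  linarith

/-- Composition of a multiplicative character with the norm. -/
noncomputable def normChar {F : Type} [Field F] (K : Type) [Field K] [Algebra F K]
    [FiniteDimensional F K] (ψ : MulChar F ℂ) : MulChar K ℂ where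
  toFun z := ψ (Algebra.norm F z)
  map_one' := by simp
  map_mul' x y := by simp
  map_nonunit' z hz := by
    rw [isUnit_iff_ne_zero, not_not] at hz
    rw [hz, Algebra.norm_zero, MulChar.map_zero]

lemma normChar_apply {F : Type} [Field F] (K : Type) [Field K] [Algebra F K]
    [FiniteDimensional F K] (ψ : MulChar F ℂ) (z : K) :
    normChar K ψ z = ψ (Algebra.norm F z) := rfl

lemma exists_gen {F : Type} [Field F] [Fintype F] (B : Finset F) (χ : F → MulChar F ℂ) :
    ∃ (ψ : MulChar F ℂ) (a : F → ℕ), (∀ β, a β ≠ 0) ∧ (∀ β ∈ B, χ β = ψ ^ a β) ∧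
      ∀ r, (∀ β ∈ B, orderOf ψ ∣ r * a β) → orderOf ψ ∣ r := by
  classical
  have : IsCyclic (MulChar F ℂ) :=
    isCyclic_of_surjective (MulChar.mulEquiv_units F ℂ).some.symm
      (MulChar.mulEquiv_units F ℂ).some.symm.surjective
  set G := Subgroup.closure (χ '' (B : Set F)) with hG
  obtain ⟨ψ, hψ⟩ := (Subgroup.isCyclic_iff_exists_zpowers_eq_top G).1 inferInstance
  have h1 : ∀ β, ∃ a : ℕ, a ≠ 0 ∧ (β ∈ B → χ β = ψ ^ a) := by
    intro β
    by_cases hβ : β ∈ B
    · have : χ β ∈ Subgroup.zpowers ψ := by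
        rw [hψ]; exact Subgroup.subset_closure ⟨β, hβ, rfl⟩
      rw [← mem_powers_iff_mem_zpowers] at this
      obtain ⟨a, ha⟩ := this
      refine ⟨a + orderOf ψ, (Nat.add_pos_right _ (orderOf_pos ψ)).ne', fun _ => ?_⟩
      rw [pow_add, pow_orderOf_eq_one, mul_one]
      exact ha.symm
    · exact ⟨1, one_ne_zero, fun h => absurd h hβ⟩
  choose a ha0 ha using h1
  refine ⟨ψ, a, ha0, ha, fun r hr => ?_⟩
  rw [orderOf_dvd_iff_pow_eq_one]
  have h2 : ψ ∈ G := by rw [← hψ]; exact Subgroup.mem_zpowers ψ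
  have h3 : G ≤ (powMonoidHom r : MulChar F ℂ →* MulChar F ℂ).ker := by
    rw [hG, Subgroup.closure_le]
    rintro _ ⟨β, hβ, rfl⟩
    rw [SetLike.mem_coe, MonoidHom.mem_ker, powMonoidHom_apply, ha β hβ, ← pow_mul, mul_comm,
      ← orderOf_dvd_iff_pow_eq_one]
    exact hr β hβ
  exact h3 h2

lemma ext_bound {F : Type} [Field F] [Fintype F] (B : Finset F) (χ : F → MulChar F ℂ) (β0 : F)
    (h0 : β0 ∈ B) (hχ : χ β0 ≠ 1) : ∃ C : ℝ, ∀ (K : Type) [Field K] [Fintype K] [Algebra F K],
      ‖∑ x : K, ∏ β ∈ B, χ β ((cp F x).eval β)‖ ≤ C * √(Fintype.card K) := by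
  classical
  obtain ⟨ψ, a, ha0, ha, hr⟩ := exists_gen B χ
  obtain ⟨C, q0, hS⟩ := stepanov (orderOf ψ) (∑ β ∈ B, a β) (orderOf_pos ψ)
  refine ⟨C + (∑ β ∈ B, a β : ℕ) + q0, fun K _ _ _ => ?_⟩
  have hq : 1 ≤ √(Fintype.card K : ℝ) := by
    rw [Real.one_le_sqrt]; exact_mod_cast Fintype.card_pos
  rcases Nat.lt_or_ge (Fintype.card K) q0 with hlt | hge
  · refine (norm_sum_le _ _).trans ?_
    have h1 : ∀ x ∈ (univ : Finset K), ‖∏ β ∈ B, χ β ((cp F x).eval β)‖ ≤ 1 := by
      intro x _
      rw [norm_prod]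
      exact prod_le_one (fun _ _ => norm_nonneg _) fun _ _ => norm_mulChar_le _ _
    refine (sum_le_sum h1).trans ?_
    rw [sum_const, card_univ, nsmul_eq_mul, mul_one]
    have h2 : (Fintype.card K : ℝ) ≤ q0 := by exact_mod_cast hlt.le
    refine le_trans ?_ (le_mul_of_one_le_right (by positivity) hq)
    have : (0 : ℝ) ≤ C + (∑ β ∈ B, a β : ℕ) := by positivity
    linarith
  set f : K[X] := ∏ β ∈ B, (X - Polynomial.C (algebraMap F K β)) ^ a β with hf
  have hfm : f.Monic := monic_prod_of_monic _ _ fun β _ => (monic_X_sub_C _).pow _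
  have hfd : f.natDegree = ∑ β ∈ B, a β := by
    rw [hf, natDegree_prod_of_monic _ _ fun β _ => (monic_X_sub_C _).pow _]
    simp
  have hmul : ∀ β ∈ B, rootMultiplicity (algebraMap F K β) f = a β := by
    intro β hβ
    rw [hf, ← prod_erase_mul B _ hβ, rootMultiplicity_mul_X_sub_C_pow
      (monic_prod_of_monic _ _ fun β _ => (monic_X_sub_C _).pow _).ne_zero,
      rootMultiplicity_eq_zero, zero_add]
    rw [IsRoot, eval_prod, ← Ne, prod_ne_zero_iff]
    intro γ hγ
    simp only [eval_pow, eval_sub, eval_X, eval_C]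
    refine pow_ne_zero _ (sub_ne_zero.2 fun h => ne_of_mem_erase hγ ?_)
    exact ((algebraMap F K).injective h).symm
  have hψ1 : ψ ≠ 1 := by
    rintro rfl
    exact hχ (by rw [ha β0 h0, one_pow])
  have hl1 : normChar K ψ ≠ 1 := by
    intro h
    apply hψ1
    refine MulChar.ext fun u => ?_
    obtain ⟨z, hz⟩ := FiniteField.norm_surjective F K (u : F)
    have hz0 : z ≠ 0 := by
      rintro rfl
      rw [Algebra.norm_zero] at hz
      exact u.ne_zero hz.symm
    rw [MulChar.one_apply_coe, ← hz, ← normChar_apply, h, MulChar.one_apply (Ne.isUnit hz0)]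
  have hle : normChar K ψ ^ orderOf ψ = 1 := by
    refine MulChar.ext fun u => ?_
    rw [MulChar.pow_apply' _ (orderOf_pos ψ).ne', normChar_apply,
      ← MulChar.pow_apply' _ (orderOf_pos ψ).ne', pow_orderOf_eq_one, MulChar.one_apply_coe,
      MulChar.one_apply (Ne.isUnit (Algebra.norm_ne_zero_iff.2 u.ne_zero))]
  have hdvd : orderOf ψ ∣ Fintype.card K - 1 := by
    refine (MulChar.orderOf_dvd_card_sub_one F ψ).trans ?_
    rw [Module.card_eq_pow_finrank (K := F) (V := K)]
    exact Nat.sub_one_dvd_pow_sub_one _ _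
  obtain ⟨n, hn⟩ := hdvd
  have hn' : orderOf ψ * n + 1 = Fintype.card K := by
    have : 0 < Fintype.card K := Fintype.card_pos
    omega
  have hb := sum_char_poly_le (normChar K ψ) hl1 (orderOf ψ) n _ hle hn' f hfm.ne_zero
    (hS K f n hfm hfd hn' hge fun r h => hr r fun β hβ => by rw [← hmul β hβ]; exact h _)
  have he : ∀ x : K, ∏ β ∈ B, χ β ((cp F x).eval β) =
      (∏ β ∈ B, χ β ((-1) ^ Module.finrank F K)) * normChar K ψ (f.eval x) := by
    intro x
    rw [hf, eval_prod, map_prod, ← prod_mul_distrib]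
    refine prod_congr rfl fun β hβ => ?_
    rw [cp_eval, map_mul, eval_pow, map_pow (normChar K ψ), normChar_apply,
      ← MulChar.pow_apply' _ (ha0 β), ← ha β hβ]
    simp
  rw [sum_congr rfl fun x _ => he x, ← mul_sum, norm_mul]
  have h1 : ‖∏ β ∈ B, χ β ((-1) ^ Module.finrank F K)‖ ≤ 1 := by
    rw [norm_prod]
    exact prod_le_one (fun _ _ => norm_nonneg _) fun _ _ => norm_mulChar_le _ _
  refine (mul_le_of_le_one_left (norm_nonneg _) h1).trans (hb.trans ?_)
  rw [hfd]
  have h2 : ((Nat.sqrt (Fintype.card K) : ℕ) : ℝ) ≤ √(Fintype.card K) := Real.nat_sqrt_le_real_sqrt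
  push_cast at h2 ⊢
  have h3 : (0 : ℝ) ≤ ∑ β ∈ B, (a β : ℝ) := by positivity
  have h4 : (0 : ℝ) ≤ q0 := by positivity
  have h5 : (0 : ℝ) ≤ C := by positivity
  nlinarith

/-- **Weil's bound** for `∑ s, ∏ β ∈ B, χ β (s + β)`. -/
theorem weil {F : Type} [Field F] [Fintype F] (B : Finset F) (χ : F → MulChar F ℂ) (β0 : F)
    (h0 : β0 ∈ B) (hχ : χ β0 ≠ 1) :
    ‖∑ s : F, ∏ β ∈ B, χ β (s + β)‖ ≤ (B.card - 1 : ℕ) * √(Fintype.card F) := by
  obtain ⟨p, hp⟩ := CharP.exists F
  have : Fact p.Prime := ⟨CharP.char_is_prime F p⟩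
  obtain ⟨C, hC⟩ := ext_bound B χ β0 h0 hχ
  set Ξ : F[X] → ℂ := fun h => ∏ β ∈ B, χ β (h.eval β) with hΞ
  have hmul : ∀ a b, Ξ (a * b) = Ξ a * Ξ b := by
    intro a b
    simp only [hΞ, eval_mul, map_mul, prod_mul_distrib]
  have hq : 0 < √(Fintype.card F : ℝ) := Real.sqrt_pos.2 (by exact_mod_cast Fintype.card_pos)
  have h1 := lift_bound (fun n => ∑ h ∈ monics n, Ξ h) (psum p Ξ) (max C 0) _ (B.card - 1) hq
    (by rw [monics_zero]; simp [hΞ])
    (fun n hn => monics_vanish B χ β0 h0 hχ n (by omega))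
    (by
      intro k
      cases k with
      | zero => simp [psum]
      | succ k =>
        refine (hC (FiniteField.Extension F p (k + 1))).trans ?_
        rw [Fintype.card_eq_nat_card, FiniteField.natCard_extension, Nat.card_eq_fintype_card,
          Nat.cast_pow, Real.sqrt_eq_rpow, Real.sqrt_eq_rpow, ← Real.rpow_natCast,
          ← Real.rpow_natCast, ← Real.rpow_mul (by positivity), ← Real.rpow_mul (by positivity),
          mul_comm (1 / 2 : ℝ)]
        gcongr
        exact le_max_left _ _)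
    (logder p Ξ hmul)
  simp only [monics_one, hΞ, eval_add, eval_X, eval_C] at h1
  simpa only [add_comm] using h1

end Pool.Agent.Lib.MP_3bfe94_nt
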